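import Mathlib

/-!
# Social learning on deterministic networks with binary signals: the model
-/

set_option autoImplicit false
set_option linter.unusedSectionVars false

open MeasureTheory ProbabilityTheory

namespace Pool.Agent.X304.Learn

/-- Sequences of private signals. -/
abbrev Sig : Type := ℕ → Bool

variable (F : Bool → Measure Bool) [∀ t, IsProbabilityMeasure (F t)]

/-- The law of the sequence of signals in state `t`: independent signals with law `F t`. -/
noncomputable def sigLaw (t : Bool) : Measure Sig := Measure.infinitePi (fun _ : ℕ => F t)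

instance (t : Bool) : IsProbabilityMeasure (sigLaw F t) := by
  unfold sigLaw; infer_instance

/-- The joint law of the state `θ` and the signals: `θ` is uniform on `Bool`, and given `θ = t` the
signals are independent with law `F t`. -/
noncomputable def world : Measure (Bool × Sig) :=
  ∑ t : Bool, (2 : ENNReal)⁻¹ • (Measure.dirac t).prod (sigLaw F t)

/-- real valued version -/
noncomputable def pr (t : Bool) (A : Set Sig) : ℝ := (sigLaw F t).real A

/-- probability of the signal value `s` in state `t` -/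
noncomputable def lk (t s : Bool) : ℝ := (F t).real {s}

/-- `A` depends only on the coordinates in `Z`. -/
def Dep (A : Set Sig) (Z : Finset ℕ) : Prop :=
  ∀ u v : Sig, (∀ i ∈ Z, u i = v i) → (u ∈ A ↔ v ∈ A)

/-- `A` does not depend on the coordinates in `X`. -/
def Ins (A : Set Sig) (X : Finset ℕ) : Prop :=
  ∀ u v : Sig, (∀ i, i ∉ X → u i = v i) → (u ∈ A ↔ v ∈ A)

lemma Dep.measurableSet {A : Set Sig} {Z : Finset ℕ} (h : Dep A Z) : MeasurableSet A := by
  have e : A = (fun u : Sig => fun i : Z => u i) ⁻¹' ((fun u : Sig => fun i : Z => u i) '' A) := by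
    ext u
    constructor
    · intro hu
      exact ⟨u, hu, rfl⟩
    · rintro ⟨v, hv, huv⟩
      refine (h v u ?_).1 hv
      intro i hi
      exact congrFun huv ⟨i, hi⟩
  rw [e]
  apply measurableSet_preimage
  · fun_prop
  · exact (Set.toFinite _).measurableSet

lemma Dep.mono {A : Set Sig} {Z Z' : Finset ℕ} (h : Dep A Z) (hZ : Z ⊆ Z') : Dep A Z' :=
  fun u v huv => h u v (fun i hi => huv i (hZ hi))

lemma Dep.inter {A B : Set Sig} {Z : Finset ℕ} (h : Dep A Z) (h' : Dep B Z) : Dep (A ∩ B) Z :=
  fun u v huv => and_congr (h u v huv) (h' u v huv)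

lemma Dep.compl {A : Set Sig} {Z : Finset ℕ} (h : Dep A Z) : Dep Aᶜ Z :=
  fun u v huv => not_congr (h u v huv)

lemma Ins.inter {A B : Set Sig} {Z : Finset ℕ} (h : Ins A Z) (h' : Ins B Z) : Ins (A ∩ B) Z :=
  fun u v huv => and_congr (h u v huv) (h' u v huv)

lemma Ins.compl {A : Set Sig} {Z : Finset ℕ} (h : Ins A Z) : Ins Aᶜ Z :=
  fun u v huv => not_congr (h u v huv)

lemma Dep.ins {A : Set Sig} {Z X : Finset ℕ} (h : Dep A Z) (hX : Disjoint Z X) : Ins A X :=
  fun u v huv => h u v (fun i hi => huv i (fun hi' => (Finset.disjoint_left.1 hX) hi hi'))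

lemma Dep.sdiff {A : Set Sig} {Z X : Finset ℕ} (h : Dep A Z) (hX : Ins A X) : Dep A (Z \ X) := by
  intro u v huv
  have h1 : u ∈ A ↔ Z.piecewise v u ∈ A := by
    apply hX
    intro i hi
    by_cases hZ : i ∈ Z
    · rw [Finset.piecewise_eq_of_mem _ _ _ hZ]
      exact huv i (Finset.mem_sdiff.2 ⟨hZ, hi⟩)
    · rw [Finset.piecewise_eq_of_notMem _ _ _ hZ]
  rw [h1]
  apply h
  intro i hi
  rw [Finset.piecewise_eq_of_mem _ _ _ hi]

lemma pr_indep (t : Bool) {A B : Set Sig} {Y Z : Finset ℕ} (hA : Dep A Y) (hB : Dep B Z)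
    (hYZ : Disjoint Y Z) : pr F t (A ∩ B) = pr F t A * pr F t B := by
  have hi : iIndepFun (fun (i : ℕ) (ω : Sig) => ω i) (sigLaw F t) :=
    iIndepFun_infinitePi (P := fun _ : ℕ => F t) (X := fun _ : ℕ => (id : Bool → Bool))
      (fun _ => measurable_id)
  have hm : ∀ i : ℕ, Measurable (fun ω : Sig => ω i) := fun i => measurable_pi_apply i
  have h2 := hi.indepFun_finset Y Z hYZ hm
  have eA : ∀ (A : Set Sig) (Z : Finset ℕ), Dep A Z →
      A = (fun u : Sig => fun i : Z => u i) ⁻¹' ((fun u : Sig => fun i : Z => u i) '' A) := by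
    intro A Z h
    ext u
    constructor
    · intro hu
      exact ⟨u, hu, rfl⟩
    · rintro ⟨v, hv, huv⟩
      refine (h v u ?_).1 hv
      intro i hi
      exact congrFun huv ⟨i, hi⟩
  have h3 := h2.measure_inter_preimage_eq_mul
    ((fun u : Sig => fun i : Y => u i) '' A) ((fun u : Sig => fun i : Z => u i) '' B)
    (Set.toFinite _).measurableSet (Set.toFinite _).measurableSet
  unfold pr Measure.real
  rw [← ENNReal.toReal_mul]
  congr 1
  conv_lhs => rw [eA A Y hA, eA B Z hB]
  conv_rhs => rw [eA A Y hA, eA B Z hB]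
  exact h3

/-- the cylinder `u = x` on `X` -/
def cyl (X : Finset ℕ) (x : Sig) : Set Sig := {u | ∀ i ∈ X, u i = x i}

lemma dep_cyl (X : Finset ℕ) (x : Sig) : Dep (cyl X x) X := by
  intro u v huv
  unfold cyl
  simp only [Set.mem_ofPred_eq]
  constructor
  · intro h i hi
    rw [← huv i hi]; exact h i hi
  · intro h i hi
    rw [huv i hi]; exact h i hi

lemma pr_cyl (t : Bool) (X : Finset ℕ) (x : Sig) : pr F t (cyl X x) = ∏ i ∈ X, lk F t (x i) := by
  have e : cyl X x = Set.pi (X : Set ℕ) (fun i => {x i}) := by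
    ext u
    simp [cyl, Set.mem_pi]
  unfold pr lk Measure.real sigLaw
  rw [e, Measure.infinitePi_pi _ (fun i _ => measurableSet_singleton _), ENNReal.toReal_prod]

lemma pr_inter_cyl (t : Bool) {A : Set Sig} {Z X : Finset ℕ} (hA : Dep A Z) (hX : Ins A X) (x : Sig) :
    pr F t (A ∩ cyl X x) = pr F t A * ∏ i ∈ X, lk F t (x i) := by
  rw [← pr_cyl]
  exact pr_indep F t (hA.sdiff hX) (dep_cyl X x) Finset.sdiff_disjoint

lemma pr_mono (t : Bool) {A B : Set Sig} (h : A ⊆ B) : pr F t A ≤ pr F t B :=
  measureReal_mono h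

lemma pr_nonneg (t : Bool) (A : Set Sig) : 0 ≤ pr F t A := measureReal_nonneg

lemma pr_le_one (t : Bool) (A : Set Sig) : pr F t A ≤ 1 := measureReal_le_one

lemma pr_union_le (t : Bool) (A B : Set Sig) : pr F t (A ∪ B) ≤ pr F t A + pr F t B :=
  measureReal_union_le A B

lemma pr_diff (t : Bool) {A B : Set Sig} {Z : Finset ℕ} (hB : Dep B Z) :
    pr F t (A ∩ Bᶜ) = pr F t A - pr F t (A ∩ B) := by
  have h := measureReal_inter_add_sdiff (μ := sigLaw F t) (s := A) hB.measurableSet
  have e : A \ B = A ∩ Bᶜ := rfl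
  rw [e] at h
  unfold pr
  linarith

lemma pr_univ (t : Bool) : pr F t Set.univ = 1 := by
  unfold pr
  simp

lemma lk_add (t s : Bool) : lk F t s + lk F t (!s) = 1 := by
  have h : (F t).real Set.univ = 1 := probReal_univ
  have e : (Set.univ : Set Bool) = {s} ∪ {!s} := by
    ext b
    cases b <;> cases s <;> simp
  rw [e, measureReal_union (by cases s <;> simp) (measurableSet_singleton _)] at h
  exact h

end Pool.Agent.X304.Learn
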