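import Mathlib

set_option autoImplicit false

namespace Pool.Agent.X304.Learn

lemma geo {x y C E : ℝ} (hx : 0 < x) (hxy : x < y) (hC : 0 < C) (hE : 0 < E) :
    ∃ n0 : ℕ, ∀ n ≥ n0, C * x ^ n < E * y ^ n := by
  have hy : 0 < y := hx.trans hxy
  have h1 : x / y < 1 := (div_lt_one hy).2 hxy
  have h0 : 0 ≤ x / y := by positivity
  obtain ⟨n0, hn0⟩ := exists_pow_lt_of_lt_one (show 0 < E / C by positivity) h1
  refine ⟨n0, fun n hn => ?_⟩
  have h2 : (x / y) ^ n < E / C := (pow_le_pow_of_le_one h0 h1.le hn).trans_lt hn0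
  rw [div_pow, div_lt_div_iff₀ (by positivity) hC] at h2
  linarith

/-- Fine tuning. -/
lemma tune {a a' d d' x x' : ℝ} (ha' : 0 < a') (ha : 0 < a) (hd : 0 < d) (hdd : d < d')
    (hx' : 0 < x') (m : ℕ) (hm : a' ^ (m + 1) * x' < a ^ (m + 1) * x)
    (h0 : d * x < d' * x') :
    ∃ r ≤ m, a' ^ (r + 1) * x' < a ^ (r + 1) * x ∧ d * (a ^ r * x) < d' * (a' ^ r * x') := by
  classical
  have hex : ∃ r, a' ^ (r + 1) * x' < a ^ (r + 1) * x := ⟨m, hm⟩
  refine ⟨Nat.find hex, Nat.find_min' hex hm, Nat.find_spec hex, ?_⟩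
  rcases Nat.eq_zero_or_pos (Nat.find hex) with h | h
  · rw [h]; simpa using h0
  · obtain ⟨j, hj⟩ : ∃ j, Nat.find hex = j + 1 := ⟨Nat.find hex - 1, by omega⟩
    have hmin := Nat.find_min hex (m := j) (by omega)
    rw [hj]
    push Not at hmin
    have h1 : 0 < a' ^ (j + 1) * x' := by positivity
    calc d * (a ^ (j + 1) * x) ≤ d * (a' ^ (j + 1) * x') := by gcongr
      _ < d' * (a' ^ (j + 1) * x') := by gcongr

/-- All the inequalities. -/
structure Ineqs (a a' d d' w w' η η' : ℝ) (r n k M m : ℕ) : Prop where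
  F1 : (w' * η' * a' ^ r) * d' ^ 2 < (w * η * a ^ r) * d ^ 2
  F2 : a * d * (w * (1 - η) * a ^ r) < a' * d' * (w' * (1 - η') * a' ^ r)
  F3 : a' ^ 2 * (w' * (1 - η') * a' ^ r) < a ^ 2 * (w * (1 - η) * a ^ r)
  T1 : (w' * η' * a' ^ r) * d' ^ (n + 2) < (w * η * a ^ r) * d ^ (n + 2)
  T2 : (w * a ^ r) * a ^ 2 * d ^ n < (w' * (1 - η') * a' ^ r) * a' ^ 3 * d' ^ n
  T3 : (w' * a' ^ r) * a' ^ (n + 1) * d' < (w * η * a ^ r) * a ^ (n + 1) * d
  DU : d * ((w * a ^ r) * (d ^ k + (1 - d ^ n) ^ M)) < d' * ((w' * η' * a' ^ r) * d' ^ k)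
  RL : a' ^ (m + 1) * (w' * a' ^ r) < a ^ (m + 1) * ((w * η * a ^ r) * d ^ k)

lemma params (a a' d d' w w' : ℝ) (ha' : 0 < a') (haa : a' < a) (hd : 0 < d) (hdd : d < d')
    (had : a + d = 1) (had' : a' + d' = 1) (hw : 0 < w) (hw' : 0 < w') :
    ∃ δ > 0, ∀ ny0 : ℕ, ∃ ny ≥ ny0, 1 ≤ ny ∧ w' * a' ^ ny * d' < w * a ^ ny * d ∧
      w * d ^ ny * d < w' * d' ^ ny * d' ∧ ∃ rM nM k M mM : ℕ, 1 ≤ k ∧
      ∀ η η' : ℝ, 1 - η ≤ δ → η ≤ 1 → η' ≤ δ → d ^ (ny + 1) ≤ 1 - η → a' ^ ny ≤ η' →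
        ∃ r ≤ rM, ∃ n ≤ nM, Ineqs a a' d d' w w' η η' r n k M mM := by
  have ha : 0 < a := ha'.trans haa
  have hd' : 0 < d' := hd.trans hdd
  have ha1 : a < 1 := by linarith
  have ha'1 : a' < 1 := by linarith
  have hd1 : d < 1 := by linarith
  have hd'1 : d' < 1 := by linarith
  obtain ⟨δ, hδ, hδ1, c1, c2, c3, c4⟩ : ∃ δ > 0, δ ≤ 1 / 2 ∧ w' * d' ^ 2 * δ < w * d ^ 2 / 2 ∧
      a * d * w * δ < a' * d' * w' / 2 ∧ d' ^ 3 * a ^ 2 * δ < a' ^ 3 * d ^ 3 / 4 ∧
      2 * a * d' * δ < a' * d / 2 := by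
    have key : ∀ C E : ℝ, 0 < C → 0 < E → C * (E / (2 * C)) < E := by
      intro C E hC hE
      have : C * (E / (2 * C)) = E / 2 := by field_simp
      rw [this]; linarith
    have p1 : 0 < w' * d' ^ 2 := by positivity
    have q1 : 0 < w * d ^ 2 / 2 := by positivity
    have p2 : 0 < a * d * w := by positivity
    have q2 : 0 < a' * d' * w' / 2 := by positivity
    have p3 : 0 < d' ^ 3 * a ^ 2 := by positivity
    have q3 : 0 < a' ^ 3 * d ^ 3 / 4 := by positivity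
    have p4 : 0 < 2 * a * d' := by positivity
    have q4 : 0 < a' * d / 2 := by positivity
    refine ⟨min (1 / 2) (min ((w * d ^ 2 / 2) / (2 * (w' * d' ^ 2)))
      (min ((a' * d' * w' / 2) / (2 * (a * d * w))) (min ((a' ^ 3 * d ^ 3 / 4) / (2 * (d' ^ 3 * a ^ 2)))
        ((a' * d / 2) / (2 * (2 * a * d')))))), ?_, ?_, ?_, ?_, ?_, ?_⟩
    · simp only [gt_iff_lt, lt_min_iff]
      refine ⟨by norm_num, by positivity, by positivity, by positivity, by positivity⟩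
    · exact min_le_left _ _
    · refine lt_of_le_of_lt (mul_le_mul_of_nonneg_left ?_ p1.le) (key _ _ p1 q1)
      exact (min_le_right _ _).trans (min_le_left _ _)
    · refine lt_of_le_of_lt (mul_le_mul_of_nonneg_left ?_ p2.le) (key _ _ p2 q2)
      exact (min_le_right _ _).trans ((min_le_right _ _).trans (min_le_left _ _))
    · refine lt_of_le_of_lt (mul_le_mul_of_nonneg_left ?_ p3.le) (key _ _ p3 q3)
      exact (min_le_right _ _).trans ((min_le_right _ _).trans ((min_le_right _ _).trans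
        (min_le_left _ _)))
    · refine lt_of_le_of_lt (mul_le_mul_of_nonneg_left ?_ p4.le) (key _ _ p4 q4)
      exact (min_le_right _ _).trans ((min_le_right _ _).trans ((min_le_right _ _).trans
        (min_le_right _ _)))
  refine ⟨δ, hδ, fun ny0 => ?_⟩
  obtain ⟨n1, hn1⟩ := geo ha' haa (show 0 < w' * d' by positivity) (show 0 < w * d by positivity)
  obtain ⟨n2, hn2⟩ := geo hd hdd (show 0 < w * d by positivity) (show 0 < w' * d' by positivity)
  obtain ⟨ny, hny⟩ : ∃ ny : ℕ, ny = max (max ny0 1) (max n1 n2) := ⟨_, rfl⟩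
  have b1 : ny0 ≤ ny := by omega
  have b2 : 1 ≤ ny := by omega
  have b3 := hn1 ny (by omega)
  have b4 := hn2 ny (by omega)
  refine ⟨ny, b1, b2, by linarith, by linarith, ?_⟩
  -- rM
  obtain ⟨rM, hrM⟩ := geo ha' haa (show 0 < w' * a' ^ 2 by positivity)
    (show 0 < w * d ^ (ny + 1) * a ^ 2 by positivity)
  replace hrM := hrM rM le_rfl
  obtain ⟨nM, hnM⟩ := geo hd hdd (show 0 < w * a ^ 2 by positivity)
    (show 0 < w' * (1 / 2) * a' ^ (rM + 3) by positivity)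
  replace hnM := hnM nM le_rfl
  obtain ⟨k0, hk0⟩ := geo hd hdd (show 0 < 2 * (d * w) by positivity)
    (show 0 < d' * w' * a' ^ (ny + rM) by positivity)
  obtain ⟨k, hk⟩ : ∃ k : ℕ, k = max k0 1 := ⟨_, rfl⟩
  have hk1 : 1 ≤ k := by omega
  have hkk := hk0 k (by omega)
  have hdn : 0 ≤ 1 - d ^ nM ∧ 1 - d ^ nM < 1 := by
    have h1 : 0 < d ^ nM := by positivity
    have h2 : d ^ nM ≤ 1 := pow_le_one₀ hd.le hd1.le
    constructor <;> linarith
  obtain ⟨M, hM⟩ := exists_pow_lt_of_lt_one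
    (show 0 < d' * w' * a' ^ (ny + rM) * d' ^ k / (2 * (d * w)) by positivity) hdn.2
  rw [lt_div_iff₀ (by positivity)] at hM
  obtain ⟨mM, hmM⟩ := geo ha' haa (show 0 < w' * a' by positivity)
    (show 0 < w / 2 * a ^ rM * d ^ k * a by positivity)
  replace hmM := hmM mM le_rfl
  refine ⟨rM, nM, k, M, mM, hk1, ?_⟩
  intro η η' e1 e1' e2 e3 e4
  have hη : 1 / 2 ≤ η := by linarith
  have hη' : 1 / 2 ≤ 1 - η' := by linarith
  have hη'0 : 0 < η' := lt_of_lt_of_le (by positivity) e4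
  have hη0 : 0 < η := by linarith
  have hη1 : 0 < 1 - η := lt_of_lt_of_le (by positivity) e3
  have hη'1 : 0 < 1 - η' := by linarith
  -- choice of r
  obtain ⟨r, hr, hr1, hr2⟩ := tune (a := a) (a' := a') (d := d) (d' := d')
    (x := a * (w * (1 - η))) (x' := a' * (w' * (1 - η'))) ha' ha hd hdd (by positivity) rM (by
      have h1 : a' ^ (rM + 1) * (a' * (w' * (1 - η'))) ≤ w' * a' ^ 2 * a' ^ rM := by
        have : a' ^ (rM + 1) * (a' * (w' * (1 - η'))) = (w' * a' ^ 2 * a' ^ rM) * (1 - η') := by ring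
        rw [this]
        have h0 : 0 < w' * a' ^ 2 * a' ^ rM := by positivity
        nlinarith
      have h2 : w * d ^ (ny + 1) * a ^ 2 * a ^ rM ≤ a ^ (rM + 1) * (a * (w * (1 - η))) := by
        have : a ^ (rM + 1) * (a * (w * (1 - η))) = (w * a ^ 2 * a ^ rM) * (1 - η) := by ring
        rw [this]
        have : w * d ^ (ny + 1) * a ^ 2 * a ^ rM = (w * a ^ 2 * a ^ rM) * d ^ (ny + 1) := by ring
        rw [this]
        gcongr
      linarith) (by
      have h1 : a * d * w * (1 - η) ≤ a * d * w * δ := by gcongr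
      have h2 : a' * d' * w' * (1 / 2) ≤ a' * d' * w' * (1 - η') := by gcongr
      calc d * (a * (w * (1 - η))) = a * d * w * (1 - η) := by ring
        _ < a' * d' * w' * (1 - η') := by linarith
        _ = d' * (a' * (w' * (1 - η'))) := by ring)
  have har : 0 < a ^ r := by positivity
  have ha'r : 0 < a' ^ r := by positivity
  have harle : a ^ r ≤ 1 := pow_le_one₀ ha.le ha1.le
  have ha'rle : a' ^ r ≤ 1 := pow_le_one₀ ha'.le ha'1.le
  have hrr : a' ^ r ≤ a ^ r := by gcongr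
  have harM : a ^ rM ≤ a ^ r := pow_le_pow_of_le_one ha.le ha1.le hr
  have ha'rM : a' ^ rM ≤ a' ^ r := pow_le_pow_of_le_one ha'.le ha'1.le hr
  have F1 : (w' * η' * a' ^ r) * d' ^ 2 < (w * η * a ^ r) * d ^ 2 := by
    have h1 : w' * η' * d' ^ 2 < w * η * d ^ 2 := by
      have : w' * η' * d' ^ 2 ≤ w' * d' ^ 2 * δ := by
        have : w' * η' * d' ^ 2 = w' * d' ^ 2 * η' := by ring
        rw [this]; gcongr
      have : w * d ^ 2 / 2 ≤ w * η * d ^ 2 := by
        have h0 : 0 < w * d ^ 2 := by positivity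
        nlinarith
      linarith
    calc (w' * η' * a' ^ r) * d' ^ 2 = a' ^ r * (w' * η' * d' ^ 2) := by ring
      _ ≤ a ^ r * (w' * η' * d' ^ 2) := by gcongr
      _ < a ^ r * (w * η * d ^ 2) := by gcongr
      _ = (w * η * a ^ r) * d ^ 2 := by ring
  have F2 : a * d * (w * (1 - η) * a ^ r) < a' * d' * (w' * (1 - η') * a' ^ r) := by
    calc a * d * (w * (1 - η) * a ^ r) = d * (a ^ r * (a * (w * (1 - η)))) := by ring
      _ < d' * (a' ^ r * (a' * (w' * (1 - η')))) := hr2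
      _ = a' * d' * (w' * (1 - η') * a' ^ r) := by ring
  have F3 : a' ^ 2 * (w' * (1 - η') * a' ^ r) < a ^ 2 * (w * (1 - η) * a ^ r) := by
    calc a' ^ 2 * (w' * (1 - η') * a' ^ r) = a' ^ (r + 1) * (a' * (w' * (1 - η'))) := by ring
      _ < a ^ (r + 1) * (a * (w * (1 - η))) := hr1
      _ = a ^ 2 * (w * (1 - η) * a ^ r) := by ring
  -- choice of n
  classical
  have hexn : ∃ n, (w * a ^ r) * a ^ 2 * d ^ n < (w' * (1 - η') * a' ^ r) * a' ^ 3 * d' ^ n := by
    refine ⟨nM, ?_⟩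
    have h1 : (w * a ^ r) * a ^ 2 * d ^ nM ≤ w * a ^ 2 * d ^ nM := by
      have : (w * a ^ r) * a ^ 2 * d ^ nM = a ^ r * (w * a ^ 2 * d ^ nM) := by ring
      rw [this]
      have h0 : 0 < w * a ^ 2 * d ^ nM := by positivity
      nlinarith
    have h2 : w' * (1 / 2) * a' ^ (rM + 3) * d' ^ nM ≤ (w' * (1 - η') * a' ^ r) * a' ^ 3 * d' ^ nM := by
      have : w' * (1 / 2) * a' ^ (rM + 3) * d' ^ nM = w' * (1 / 2) * a' ^ rM * a' ^ 3 * d' ^ nM := by
        ring
      rw [this]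
      gcongr
    linarith
  have hnle : Nat.find hexn ≤ nM := by
    apply Nat.find_min' hexn
    have h1 : (w * a ^ r) * a ^ 2 * d ^ nM ≤ w * a ^ 2 * d ^ nM := by
      have : (w * a ^ r) * a ^ 2 * d ^ nM = a ^ r * (w * a ^ 2 * d ^ nM) := by ring
      rw [this]
      have h0 : 0 < w * a ^ 2 * d ^ nM := by positivity
      nlinarith
    have h2 : w' * (1 / 2) * a' ^ (rM + 3) * d' ^ nM ≤ (w' * (1 - η') * a' ^ r) * a' ^ 3 * d' ^ nM := by
      have : w' * (1 / 2) * a' ^ (rM + 3) * d' ^ nM = w' * (1 / 2) * a' ^ rM * a' ^ 3 * d' ^ nM := by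
        ring
      rw [this]
      gcongr
    linarith
  refine ⟨r, hr, Nat.find hexn, hnle, ?_⟩
  set n := Nat.find hexn with hn
  have T2 := Nat.find_spec hexn
  rw [← hn] at T2
  refine ⟨F1, F2, F3, ?_, T2, ?_, ?_, ?_⟩
  · -- T1
    rcases Nat.eq_zero_or_pos n with h | h
    · rw [h]; simpa using F1
    · obtain ⟨j, hj⟩ : ∃ j, n = j + 1 := ⟨n - 1, by omega⟩
      have hmin := Nat.find_min hexn (m := j) (by omega)
      push Not at hmin
      rw [hj]
      have hZ : 0 < (w' * (1 - η') * a' ^ r) * a' ^ 3 := by positivity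
      have h3 : η' * d' ^ 3 * a ^ 2 < (1 - η') * η * a' ^ 3 * d ^ 3 := by
        have g1 : η' * d' ^ 3 * a ^ 2 ≤ d' ^ 3 * a ^ 2 * δ := by
          have : η' * d' ^ 3 * a ^ 2 = d' ^ 3 * a ^ 2 * η' := by ring
          rw [this]; gcongr
        have g2 : a' ^ 3 * d ^ 3 / 4 ≤ (1 - η') * η * a' ^ 3 * d ^ 3 := by
          have h0 : 0 < a' ^ 3 * d ^ 3 := by positivity
          have h1 : 1 / 4 ≤ (1 - η') * η := by nlinarith
          nlinarith
        linarith
      have h4 : ((w' * (1 - η') * a' ^ r) * a' ^ 3) * ((w' * η' * a' ^ r) * d' ^ (j + 1 + 2)) <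
          ((w' * (1 - η') * a' ^ r) * a' ^ 3) * ((w * η * a ^ r) * d ^ (j + 1 + 2)) := by
        calc ((w' * (1 - η') * a' ^ r) * a' ^ 3) * ((w' * η' * a' ^ r) * d' ^ (j + 1 + 2))
            = ((w' * η' * a' ^ r) * d' ^ 3) * ((w' * (1 - η') * a' ^ r) * a' ^ 3 * d' ^ j) := by ring
          _ ≤ ((w' * η' * a' ^ r) * d' ^ 3) * ((w * a ^ r) * a ^ 2 * d ^ j) := by gcongr
          _ = (w' * a' ^ r * w * a ^ r * d ^ j) * (η' * d' ^ 3 * a ^ 2) := by ring
          _ < (w' * a' ^ r * w * a ^ r * d ^ j) * ((1 - η') * η * a' ^ 3 * d ^ 3) := by gcongr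
          _ = ((w' * (1 - η') * a' ^ r) * a' ^ 3) * ((w * η * a ^ r) * d ^ (j + 1 + 2)) := by ring
      exact lt_of_mul_lt_mul_left h4 hZ.le
  · -- T3
    have h1 : a' ^ 2 * (w' * a' ^ r) ≤ 2 * ((1 - η) * (a ^ 2 * (w * a ^ r))) := by
      have g1 : a' ^ 2 * (w' * a' ^ r) * (1 / 2) ≤ a' ^ 2 * (w' * (1 - η') * a' ^ r) := by
        have : a' ^ 2 * (w' * (1 - η') * a' ^ r) = a' ^ 2 * (w' * a' ^ r) * (1 - η') := by ring
        rw [this]; gcongr
      have g2 : a ^ 2 * (w * (1 - η) * a ^ r) = (1 - η) * (a ^ 2 * (w * a ^ r)) := by ring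
      rw [g2] at F3
      linarith
    have h2 : 2 * (1 - η) * a * d' < η * a' * d := by
      have g1 : 2 * (1 - η) * a * d' ≤ 2 * a * d' * δ := by
        have : 2 * (1 - η) * a * d' = 2 * a * d' * (1 - η) := by ring
        rw [this]; gcongr
      have g2 : a' * d / 2 ≤ η * a' * d := by
        have h0 : 0 < a' * d := by positivity
        nlinarith
      linarith
    have h3 : a' * ((w' * a' ^ r) * a' ^ (n + 1) * d') < a' * ((w * η * a ^ r) * a ^ (n + 1) * d) := by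
      calc a' * ((w' * a' ^ r) * a' ^ (n + 1) * d') = (a' ^ 2 * (w' * a' ^ r)) * (a' ^ n * d') := by
            ring
        _ ≤ (2 * ((1 - η) * (a ^ 2 * (w * a ^ r)))) * (a ^ n * d') := by
            gcongr
        _ = (a * (w * a ^ r) * a ^ n) * (2 * (1 - η) * a * d') := by ring
        _ < (a * (w * a ^ r) * a ^ n) * (η * a' * d) := by gcongr
        _ = a' * ((w * η * a ^ r) * a ^ (n + 1) * d) := by ring
    exact lt_of_mul_lt_mul_left h3 ha'.le
  · -- DU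
    have h1 : (1 - d ^ n) ^ M ≤ (1 - d ^ nM) ^ M := by
      have g1 : d ^ nM ≤ d ^ n := pow_le_pow_of_le_one hd.le hd1.le hnle
      have g2 : d ^ n ≤ 1 := pow_le_one₀ hd.le hd1.le
      gcongr
    have h2 : d' * w' * a' ^ (ny + rM) * d' ^ k ≤ d' * ((w' * η' * a' ^ r) * d' ^ k) := by
      have : d' * w' * a' ^ (ny + rM) * d' ^ k = d' * ((w' * a' ^ ny * a' ^ rM) * d' ^ k) := by ring
      rw [this]
      gcongr
    have h3 : d * ((w * a ^ r) * (d ^ k + (1 - d ^ n) ^ M)) ≤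
        d * w * d ^ k + d * w * (1 - d ^ nM) ^ M := by
      have g0 : 0 ≤ (1 - d ^ n) ^ M := by
        have g2 : d ^ n ≤ 1 := pow_le_one₀ hd.le hd1.le
        have : 0 ≤ 1 - d ^ n := by linarith
        positivity
      have g1 : d * ((w * a ^ r) * (d ^ k + (1 - d ^ n) ^ M)) ≤
          d * ((w * 1) * (d ^ k + (1 - d ^ nM) ^ M)) := by
        gcongr
      calc _ ≤ _ := g1
        _ = _ := by ring
    linarith
  · -- RL
    have h1 : a' ^ (mM + 1) * (w' * a' ^ r) ≤ w' * a' * a' ^ mM := by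
      have : a' ^ (mM + 1) * (w' * a' ^ r) = (w' * a' * a' ^ mM) * a' ^ r := by ring
      rw [this]
      have h0 : 0 < w' * a' * a' ^ mM := by positivity
      nlinarith
    have h2 : w / 2 * a ^ rM * d ^ k * a * a ^ mM ≤ a ^ (mM + 1) * ((w * η * a ^ r) * d ^ k) := by
      have g1 : w / 2 * a ^ rM * d ^ k * a * a ^ mM = a ^ (mM + 1) * ((w * (1 / 2) * a ^ rM) * d ^ k) := by
        ring
      rw [g1]
      gcongr
    linarith

end Pool.Agent.X304.Learn
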