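import Pool.Agent.X304.Learn.Test
import Pool.Agent.X304.Learn.Params

set_option autoImplicit false
set_option linter.unusedSectionVars false
set_option linter.unusedVariables false

open MeasureTheory ProbabilityTheory Finset

namespace Pool.Agent.X304.Learn

variable (F : Bool → Measure Bool) [∀ t, IsProbabilityMeasure (F t)]
variable (tie : ℕ → (ℕ → Bool) → Bool → Bool)

/-- On `E`, the action of agent `m` does not depend on the signals in `X`. -/
def AIns (act : ℕ → Sig → Bool) (E : Set Sig) (X : Finset ℕ) (m : ℕ) : Prop :=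
  ∀ u ∈ E, ∀ w ∈ E, (∀ i, i ∉ X → u i = w i) → act m u = act m w

lemma ins_inter {E A : Set Sig} {X : Finset ℕ} (hE : Ins E X)
    (h : ∀ u ∈ E, ∀ w ∈ E, (∀ i, i ∉ X → u i = w i) → (u ∈ A ↔ w ∈ A)) : Ins (E ∩ A) X := by
  intro u w huw
  have h1 := hE u w huw
  constructor
  · rintro ⟨h2, h3⟩
    exact ⟨h1.1 h2, (h u h2 w (h1.1 h2) huw).1 h3⟩
  · rintro ⟨h2, h3⟩
    exact ⟨h1.2 h2, (h u (h1.2 h2) w h2 huw).2 h3⟩

lemma AIns.step {N : ℕ → Finset ℕ} {E : Set Sig} {X : Finset ℕ} {n : ℕ} (hn : n ∉ X)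
    (h : ∀ m ∈ N n, AIns (play F tie N) E X m) : AIns (play F tie N) E X n := by
  intro u hu w hw huw
  exact play_loc F tie N n u w (fun m hm => h m hm u hu w hw huw) (huw n hn)

/-- The setting of the gadget. -/
structure Setup (N : ℕ → Finset ℕ) (T : ℕ) (u0 : Sig) (b : Bool) (J Y R : Finset ℕ) (y k M n : ℕ)
    (v f : ℕ → ℕ) (g : ℕ → ℕ → ℕ) (C : ℕ → Finset ℕ) : Prop where
  valid : Valid N
  raw : ∀ u ∈ cell (play F tie N) (range T) u0, ∀ j ∈ J, play F tie N j u = u j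
  JT : ∀ j ∈ J, T ≤ j
  YJ : Y ⊆ J
  RJ : R ⊆ J
  vJ : ∀ i < k, v i ∈ J
  CJ : ∀ j < M, C j ⊆ J
  YR : Disjoint Y R
  vY : ∀ i < k, v i ∉ Y
  vR : ∀ i < k, v i ∉ R
  CY : ∀ j < M, Disjoint (C j) Y
  CR : ∀ j < M, Disjoint (C j) R
  vC : ∀ i < k, ∀ j < M, v i ∉ C j
  CC : ∀ j < M, ∀ j' < M, j ≠ j' → Disjoint (C j) (C j')
  vinj : Set.InjOn v (range k : Set ℕ)
  Ccard : ∀ j < M, (C j).card = n
  yT : T ≤ y
  yJ : y ∉ J
  fT : ∀ i < k, T ≤ f i
  fJ : ∀ i < k, f i ∉ J
  fy : ∀ i < k, f i ≠ y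
  gJ : ∀ i < k, ∀ j < M, g i j ∉ J
  Ny : N y = range T ∪ Y
  Nf : ∀ i < k, N (f i) = range T ∪ R ∪ {y, v i}
  Ng : ∀ i < k, ∀ j < M, N (g i j) = range T ∪ R ∪ ({v i, f i} ∪ C j)

variable {F} {tie}
variable {N : ℕ → Finset ℕ} {T : ℕ} {u0 : Sig} {b : Bool} {J Y R : Finset ℕ} {y k M n : ℕ}
  {v f : ℕ → ℕ} {g : ℕ → ℕ → ℕ} {C : ℕ → Finset ℕ}


namespace Setup

variable (S : Setup F tie N T u0 b J Y R y k M n v f g C)
include S

lemma dep0 : Dep (cell (play F tie N) (range T) u0) (range T) := dep_cell F tie (range T) u0 (Finset.Subset.refl _)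

lemma ins0 {X : Finset ℕ} (hX : ∀ i ∈ X, T ≤ i) : Ins (cell (play F tie N) (range T) u0) X :=
  S.dep0.ins (by
    rw [Finset.disjoint_left]
    intro i hi hi'
    have := hX i hi'
    have := mem_range.1 hi
    omega)

lemma ins1 {X : Finset ℕ} (hX : ∀ i ∈ X, T ≤ i) (hXR : Disjoint X R) : Ins (cell (play F tie N) (range T) u0 ∩ cyl R (fun _ => b)) X :=
  (S.ins0 hX).inter ((dep_cyl R _).ins hXR.symm)

/-- actions of the base agents are constant -/
lemma aBase {X : Finset ℕ} {m : ℕ} (hm : m ∈ range T) : AIns (play F tie N) (cell (play F tie N) (range T) u0) X m := by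
  intro u hu w hw _
  rw [hu m hm, hw m hm]

lemma aRaw {X : Finset ℕ} {m : ℕ} (hm : m ∈ J) (hX : m ∉ X) : AIns (play F tie N) (cell (play F tie N) (range T) u0) X m := by
  intro u hu w hw h
  rw [S.raw u hu m hm, S.raw w hw m hm, h m hX]

omit S in
lemma aMono {X : Finset ℕ} {m : ℕ} (h : AIns (play F tie N) (cell (play F tie N) (range T) u0) X m) : AIns (play F tie N) (cell (play F tie N) (range T) u0 ∩ cyl R (fun _ => b)) X m :=
  fun u hu w hw huw => h u hu.1 w hw.1 huw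

lemma aR {X : Finset ℕ} {m : ℕ} (hm : m ∈ R) : AIns (play F tie N) (cell (play F tie N) (range T) u0 ∩ cyl R (fun _ => b)) X m := by
  intro u hu w hw h
  rw [S.raw u hu.1 m (S.RJ hm), S.raw w hw.1 m (S.RJ hm), hu.2 m hm, hw.2 m hm]

lemma ay {X : Finset ℕ} (hy : y ∉ X) (hY : Disjoint Y X) : AIns (play F tie N) (cell (play F tie N) (range T) u0) X y := by
  apply AIns.step F tie hy
  intro m hm
  rw [S.Ny, mem_union] at hm
  rcases hm with hm | hm
  · exact S.aBase hm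
  · exact S.aRaw (S.YJ hm) (fun h => (disjoint_left.1 hY) hm h)

lemma af {X : Finset ℕ} {i : ℕ} (hi : i < k) (hy : y ∉ X) (hY : Disjoint Y X) (hv : v i ∉ X)
    (hf : f i ∉ X) : AIns (play F tie N) (cell (play F tie N) (range T) u0 ∩ cyl R (fun _ => b)) X (f i) := by
  apply AIns.step F tie hf
  intro m hm
  rw [S.Nf i hi, mem_union, mem_union, mem_insert, mem_singleton] at hm
  rcases hm with (hm | hm) | (hm | hm)
  · exact aMono (S.aBase hm)
  · exact S.aR hm
  · rw [hm]; exact aMono (S.ay hy hY)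
  · rw [hm]; exact aMono (S.aRaw (S.vJ i hi) hv)

lemma ag {X : Finset ℕ} {i j : ℕ} (hi : i < k) (hj : j < M) (hy : y ∉ X) (hY : Disjoint Y X)
    (hv : v i ∉ X) (hf : f i ∉ X) (hg : g i j ∉ X) (hC : Disjoint (C j) X) :
    AIns (play F tie N) (cell (play F tie N) (range T) u0 ∩ cyl R (fun _ => b)) X (g i j) := by
  apply AIns.step F tie hg
  intro m hm
  rw [S.Ng i hi j hj, mem_union, mem_union, mem_union, mem_insert, mem_singleton] at hm
  rcases hm with (hm | hm) | ((hm | hm) | hm)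
  · exact aMono (S.aBase hm)
  · exact S.aR hm
  · rw [hm]; exact aMono (S.aRaw (S.vJ i hi) hv)
  · rw [hm]; exact S.af hi hy hY hv hf
  · exact aMono (S.aRaw (S.CJ j hj hm) (fun h => (disjoint_left.1 hC) hm h))

/-- the cell of an agent who observes the base history and `R` -/
lemma cell_eq (Q : Finset ℕ) {u : Sig} (hu : u ∈ (cell (play F tie N) (range T) u0 ∩ cyl R (fun _ => b))) :
    cell (play F tie N) (range T ∪ R ∪ Q) u = (cell (play F tie N) (range T) u0 ∩ cyl R (fun _ => b)) ∩ cell (play F tie N) Q u := by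
  ext w
  constructor
  · intro h
    have h0 : w ∈ (cell (play F tie N) (range T) u0) := by
      intro m hm
      rw [h m (by simp only [mem_union]; tauto), hu.1 m hm]
    refine ⟨⟨h0, ?_⟩, fun m hm => h m (by simp only [mem_union]; tauto)⟩
    intro m hm
    have h1 := h m (by simp only [mem_union]; tauto)
    rw [S.raw w h0 m (S.RJ hm), S.raw u hu.1 m (S.RJ hm)] at h1
    rw [h1]
    exact hu.2 m hm
  · rintro ⟨⟨h1, h2⟩, h3⟩ m hm
    rw [mem_union, mem_union] at hm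
    rcases hm with (hm | hm) | hm
    · rw [h1 m hm, hu.1 m hm]
    · rw [S.raw w h1 m (S.RJ hm), S.raw u hu.1 m (S.RJ hm), h2 m hm, hu.2 m hm]
    · exact h3 m hm

lemma rule1 {m : ℕ} (Q : Finset ℕ) (hm : N m = range T ∪ R ∪ Q) {u : Sig} (hu : u ∈ (cell (play F tie N) (range T) u0 ∩ cyl R (fun _ => b))) (t : Bool)
    (h : pr F (!t) ((cell (play F tie N) (range T) u0 ∩ cyl R (fun _ => b)) ∩ cell (play F tie N) Q u) * lk F (!t) (u m) <
      pr F t ((cell (play F tie N) (range T) u0 ∩ cyl R (fun _ => b)) ∩ cell (play F tie N) Q u) * lk F t (u m)) : (play F tie N) m u = t := by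
  apply play_rule F tie S.valid
  rw [hm, S.cell_eq Q hu]
  exact h

end Setup

end Pool.Agent.X304.Learn
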