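import Pool.Agent.X304.Learn.Gadget

set_option autoImplicit false
set_option linter.unusedSectionVars false
set_option linter.unusedVariables false

open MeasureTheory ProbabilityTheory Finset

namespace Pool.Agent.X304.Learn

variable {F : Bool → Measure Bool} [∀ t, IsProbabilityMeasure (F t)]
variable {tie : ℕ → (ℕ → Bool) → Bool → Bool}
variable {N : ℕ → Finset ℕ} {T : ℕ} {u0 : Sig} {b : Bool} {J Y R : Finset ℕ} {y k M n : ℕ}
  {v f : ℕ → ℕ} {g : ℕ → ℕ → ℕ} {C : ℕ → Finset ℕ}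


lemma Dep.inter' {A B : Set Sig} {Z Z' : Finset ℕ} (h : Dep A Z) (h' : Dep B Z') :
    Dep (A ∩ B) (Z ∪ Z') :=
  (h.mono subset_union_left).inter (h'.mono subset_union_right)

lemma dep_act (F : Bool → Measure Bool) [∀ t, IsProbabilityMeasure (F t)]
    (tie : ℕ → (ℕ → Bool) → Bool → Bool) (N : ℕ → Finset ℕ) (m : ℕ) (c : Bool) :
    Dep {w | play F tie N m w = c} (range (m + 1)) := by
  intro u w huw
  simp only [Set.mem_ofPred_eq]
  rw [play_dep F tie N m u w (fun i hi => huv_aux i hi huw)]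
where
  huv_aux {m : ℕ} {u w : Sig} (i : ℕ) (hi : i ≤ m) (huw : ∀ i ∈ range (m + 1), u i = w i) :
      u i = w i := huw i (mem_range.2 (by omega))

/-- positivity and monotonicity of the likelihoods -/
structure Lik (F : Bool → Measure Bool) (b : Bool) : Prop where
  pos : ∀ t s, 0 < lk F t s
  hi : lk F (!b) b < lk F b b
  lo : lk F b (!b) < lk F (!b) (!b)

lemma lik_of (hpos : ∀ t s, 0 < lk F t s) (hinf : lk F false true < lk F true true) (b : Bool) :
    Lik F b := by
  have h1 := lk_add F true true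
  have h2 := lk_add F false true
  simp only [Bool.not_true] at h1 h2
  refine ⟨hpos, ?_, ?_⟩
  · cases b
    · simp only [Bool.not_false]; linarith
    · simp only [Bool.not_true]; linarith
  · cases b
    · simp only [Bool.not_false]; linarith
    · simp only [Bool.not_true]; linarith

lemma Lik.r1 (h : Lik F b) (s : Bool) :
    lk F (!b) s * lk F b (!b) ≤ lk F b s * lk F (!b) (!b) := by
  have h1 := h.hi
  have h2 := h.lo
  have p1 := h.pos b b
  have p2 := h.pos (!b) b
  have p3 := h.pos b (!b)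
  have p4 := h.pos (!b) (!b)
  by_cases hs : s = b
  · rw [hs]; nlinarith
  · have : s = !b := by cases s <;> cases b <;> simp_all
    rw [this, mul_comm]

lemma Lik.r2 (h : Lik F b) (s : Bool) :
    lk F b s * lk F (!b) b ≤ lk F (!b) s * lk F b b := by
  have h1 := h.hi
  have h2 := h.lo
  have p1 := h.pos b b
  have p2 := h.pos (!b) b
  have p3 := h.pos b (!b)
  have p4 := h.pos (!b) (!b)
  by_cases hs : s = b
  · rw [hs, mul_comm]
  · have : s = !b := by cases s <;> cases b <;> simp_all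
    rw [this]; nlinarith

namespace Setup

variable (S : Setup F tie N T u0 b J Y R y k M n v f g C)
include S

lemma dep1 : Dep (cell (play F tie N) (range T) u0 ∩ cyl R (fun _ => b)) (range T ∪ R) := S.dep0.inter' (dep_cyl R _)

lemma cell_f {i : ℕ} (hi : i < k) {u : Sig} (hu : u ∈ (cell (play F tie N) (range T) u0 ∩ cyl R (fun _ => b))) :
    (cell (play F tie N) (range T) u0 ∩ cyl R (fun _ => b)) ∩ cell (play F tie N) {y, v i} u = ((cell (play F tie N) (range T) u0 ∩ cyl R (fun _ => b)) ∩ {w | (play F tie N) y w = (play F tie N) y u}) ∩ cyl {v i} u := by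
  ext w
  constructor
  · rintro ⟨h1, h2⟩
    refine ⟨⟨h1, h2 y (by simp)⟩, ?_⟩
    intro m hm
    rw [mem_singleton] at hm
    rw [hm]
    have h3 := h2 (v i) (by simp)
    rw [S.raw w h1.1 _ (S.vJ i hi), S.raw u hu.1 _ (S.vJ i hi)] at h3
    exact h3
  · rintro ⟨⟨h1, h2⟩, h3⟩
    refine ⟨h1, ?_⟩
    intro m hm
    rw [mem_insert, mem_singleton] at hm
    rcases hm with hm | hm
    · rw [hm]; exact h2
    · rw [hm, S.raw w h1.1 _ (S.vJ i hi), S.raw u hu.1 _ (S.vJ i hi)]
      exact h3 _ (mem_singleton_self _)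

lemma insAy {X : Finset ℕ} (hX : ∀ i ∈ X, T ≤ i) (hXR : Disjoint X R) (hy : y ∉ X)
    (hY : Disjoint Y X) (c : Bool) : Ins ((cell (play F tie N) (range T) u0 ∩ cyl R (fun _ => b)) ∩ {w | (play F tie N) y w = c}) X := by
  apply ins_inter (S.ins1 hX hXR)
  intro u hu w hw huw
  have := S.ay hy hY u hu.1 w hw.1 huw
  simp only [Set.mem_ofPred_eq, this]

lemma depAy (c : Bool) : Dep ((cell (play F tie N) (range T) u0 ∩ cyl R (fun _ => b)) ∩ {w | (play F tie N) y w = c}) ((range T ∪ R) ∪ range (y + 1)) :=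
  S.dep1.inter' (dep_act F tie N y c)

lemma pr_f {i : ℕ} (hi : i < k) {u : Sig} (hu : u ∈ (cell (play F tie N) (range T) u0 ∩ cyl R (fun _ => b))) (t : Bool) :
    pr F t ((cell (play F tie N) (range T) u0 ∩ cyl R (fun _ => b)) ∩ cell (play F tie N) {y, v i} u) =
      pr F t ((cell (play F tie N) (range T) u0 ∩ cyl R (fun _ => b)) ∩ {w | (play F tie N) y w = (play F tie N) y u}) * lk F t (u (v i)) := by
  rw [S.cell_f hi hu, pr_inter_cyl F t (S.depAy _) (S.insAy ?_ ?_ ?_ ?_ _)]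
  · simp
  · intro j hj
    rw [mem_singleton] at hj
    rw [hj]; exact S.JT _ (S.vJ i hi)
  · rw [disjoint_singleton_left]; exact S.vR i hi
  · rw [mem_singleton]
    intro h
    exact S.yJ (h ▸ S.vJ i hi)
  · rw [disjoint_singleton_right]; exact S.vY i hi

lemma factF1 (L : Lik F b)
    (h : pr F (!b) ((cell (play F tie N) (range T) u0 ∩ cyl R (fun _ => b)) ∩ {w | (play F tie N) y w = b}) * lk F (!b) (!b) ^ 2 <
      pr F b ((cell (play F tie N) (range T) u0 ∩ cyl R (fun _ => b)) ∩ {w | (play F tie N) y w = b}) * lk F b (!b) ^ 2)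
    {i : ℕ} (hi : i < k) {u : Sig} (hu : u ∈ (cell (play F tie N) (range T) u0 ∩ cyl R (fun _ => b))) (hy : (play F tie N) y u = b) : (play F tie N) (f i) u = b := by
  apply S.rule1 {y, v i} (S.Nf i hi) hu b
  rw [S.pr_f hi hu, S.pr_f hi hu, hy]
  set X := pr F b ((cell (play F tie N) (range T) u0 ∩ cyl R (fun _ => b)) ∩ {w | (play F tie N) y w = b})
  set X' := pr F (!b) ((cell (play F tie N) (range T) u0 ∩ cyl R (fun _ => b)) ∩ {w | (play F tie N) y w = b})
  have r1 := L.r1 (u (v i))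
  have r2 := L.r1 (u (f i))
  have p1 := L.pos b (u (v i))
  have p2 := L.pos b (u (f i))
  have p3 := L.pos (!b) (u (v i))
  have p4 := L.pos (!b) (u (f i))
  have p5 := L.pos b (!b)
  have p6 := L.pos (!b) (!b)
  have hX' : 0 ≤ X' := pr_nonneg F _ _
  have h3 : (X' * lk F (!b) (u (v i)) * lk F (!b) (u (f i))) * lk F b (!b) ^ 2 <
      (X * lk F b (u (v i)) * lk F b (u (f i))) * lk F b (!b) ^ 2 := by
    calc (X' * lk F (!b) (u (v i)) * lk F (!b) (u (f i))) * lk F b (!b) ^ 2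
        = X' * ((lk F (!b) (u (v i)) * lk F b (!b)) * (lk F (!b) (u (f i)) * lk F b (!b))) := by ring
      _ ≤ X' * ((lk F b (u (v i)) * lk F (!b) (!b)) * (lk F b (u (f i)) * lk F (!b) (!b))) := by
          gcongr
      _ = (X' * lk F (!b) (!b) ^ 2) * (lk F b (u (v i)) * lk F b (u (f i))) := by ring
      _ < (X * lk F b (!b) ^ 2) * (lk F b (u (v i)) * lk F b (u (f i))) := by gcongr
      _ = _ := by ring
  exact lt_of_mul_lt_mul_right h3 (by positivity)

lemma factF2 (L : Lik F b)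
    (h : lk F b b * lk F b (!b) * pr F b ((cell (play F tie N) (range T) u0 ∩ cyl R (fun _ => b)) ∩ {w | (play F tie N) y w = !b}) <
      lk F (!b) b * lk F (!b) (!b) * pr F (!b) ((cell (play F tie N) (range T) u0 ∩ cyl R (fun _ => b)) ∩ {w | (play F tie N) y w = !b}))
    {i : ℕ} (hi : i < k) {u : Sig} (hu : u ∈ (cell (play F tie N) (range T) u0 ∩ cyl R (fun _ => b))) (hy : (play F tie N) y u = !b) (hv : u (v i) = !b) :
    (play F tie N) (f i) u = !b := by
  apply S.rule1 {y, v i} (S.Nf i hi) hu (!b)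
  rw [Bool.not_not, S.pr_f hi hu, S.pr_f hi hu, hy, hv]
  set Z := pr F b ((cell (play F tie N) (range T) u0 ∩ cyl R (fun _ => b)) ∩ {w | (play F tie N) y w = !b})
  set Z' := pr F (!b) ((cell (play F tie N) (range T) u0 ∩ cyl R (fun _ => b)) ∩ {w | (play F tie N) y w = !b})
  have r2 := L.r2 (u (f i))
  have p1 := L.pos b b
  have p2 := L.pos b (u (f i))
  have p3 := L.pos (!b) b
  have p4 := L.pos (!b) (u (f i))
  have p5 := L.pos b (!b)
  have p6 := L.pos (!b) (!b)
  have hZ : 0 ≤ Z := pr_nonneg F _ _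
  have h3 : (Z * lk F b (!b) * lk F b (u (f i))) * lk F (!b) b <
      (Z' * lk F (!b) (!b) * lk F (!b) (u (f i))) * lk F (!b) b := by
    calc (Z * lk F b (!b) * lk F b (u (f i))) * lk F (!b) b
        = (Z * lk F b (!b)) * (lk F b (u (f i)) * lk F (!b) b) := by ring
      _ ≤ (Z * lk F b (!b)) * (lk F (!b) (u (f i)) * lk F b b) := by gcongr
      _ = (lk F b b * lk F b (!b) * Z) * lk F (!b) (u (f i)) := by ring
      _ < (lk F (!b) b * lk F (!b) (!b) * Z') * lk F (!b) (u (f i)) := by gcongr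
      _ = _ := by ring
  exact lt_of_mul_lt_mul_right h3 p3.le

lemma factF3 (L : Lik F b)
    (h : lk F (!b) b ^ 2 * pr F (!b) ((cell (play F tie N) (range T) u0 ∩ cyl R (fun _ => b)) ∩ {w | (play F tie N) y w = !b}) <
      lk F b b ^ 2 * pr F b ((cell (play F tie N) (range T) u0 ∩ cyl R (fun _ => b)) ∩ {w | (play F tie N) y w = !b}))
    {i : ℕ} (hi : i < k) {u : Sig} (hu : u ∈ (cell (play F tie N) (range T) u0 ∩ cyl R (fun _ => b))) (hy : (play F tie N) y u = !b) (hv : u (v i) = b)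
    (hf : u (f i) = b) : (play F tie N) (f i) u = b := by
  apply S.rule1 {y, v i} (S.Nf i hi) hu b
  rw [S.pr_f hi hu, S.pr_f hi hu, hy, hv, hf]
  linarith

lemma cell_g {i j : ℕ} (hi : i < k) (hj : j < M) {u : Sig} (hu : u ∈ (cell (play F tie N) (range T) u0 ∩ cyl R (fun _ => b))) :
    (cell (play F tie N) (range T) u0 ∩ cyl R (fun _ => b)) ∩ cell (play F tie N) ({v i, f i} ∪ C j) u =
      ((cell (play F tie N) (range T) u0 ∩ cyl R (fun _ => b)) ∩ {w | w (v i) = u (v i) ∧ (play F tie N) (f i) w = (play F tie N) (f i) u}) ∩ cyl (C j) u := by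
  ext w
  constructor
  · rintro ⟨h1, h2⟩
    refine ⟨⟨h1, ?_, h2 (f i) (by simp)⟩, ?_⟩
    · have h3 := h2 (v i) (by simp)
      rw [S.raw w h1.1 _ (S.vJ i hi), S.raw u hu.1 _ (S.vJ i hi)] at h3
      exact h3
    · intro m hm
      have h3 := h2 m (by rw [mem_union]; exact Or.inr hm)
      rw [S.raw w h1.1 _ (S.CJ j hj hm), S.raw u hu.1 _ (S.CJ j hj hm)] at h3
      exact h3
  · rintro ⟨⟨h1, h2, h3⟩, h4⟩
    refine ⟨h1, ?_⟩
    intro m hm
    rw [mem_union, mem_insert, mem_singleton] at hm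
    rcases hm with (hm | hm) | hm
    · rw [hm, S.raw w h1.1 _ (S.vJ i hi), S.raw u hu.1 _ (S.vJ i hi)]; exact h2
    · rw [hm]; exact h3
    · rw [S.raw w h1.1 _ (S.CJ j hj hm), S.raw u hu.1 _ (S.CJ j hj hm)]
      exact h4 m hm

lemma pr_g {i j : ℕ} (hi : i < k) (hj : j < M) {u : Sig} (hu : u ∈ (cell (play F tie N) (range T) u0 ∩ cyl R (fun _ => b))) (t : Bool) :
    pr F t ((cell (play F tie N) (range T) u0 ∩ cyl R (fun _ => b)) ∩ cell (play F tie N) ({v i, f i} ∪ C j) u) =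
      pr F t ((cell (play F tie N) (range T) u0 ∩ cyl R (fun _ => b)) ∩ {w | w (v i) = u (v i) ∧ (play F tie N) (f i) w = (play F tie N) (f i) u}) *
        ∏ l ∈ C j, lk F t (u l) := by
  rw [S.cell_g hi hj hu]
  have hd : Dep ((cell (play F tie N) (range T) u0 ∩ cyl R (fun _ => b)) ∩ {w | w (v i) = u (v i) ∧ (play F tie N) (f i) w = (play F tie N) (f i) u})
      ((range T ∪ R) ∪ (range (f i + 1) ∪ {v i})) := by
    apply S.dep1.inter'
    intro p q hpq
    have e1 : p (v i) = q (v i) := hpq _ (by simp)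
    have e2 := dep_act F tie N (f i) ((play F tie N) (f i) u) p q (fun l hl => hpq l (by
      rw [mem_union]; exact Or.inl hl))
    simp only [Set.mem_ofPred_eq] at e2 ⊢
    rw [e1, e2]
  apply pr_inter_cyl F t hd
  apply ins_inter (S.ins1 (fun l hl => S.JT l (S.CJ j hj hl)) (S.CR j hj))
  intro p hp q hq hpq
  have e1 : p (v i) = q (v i) := hpq _ (S.vC i hi j hj)
  have e2 := S.af hi (X := C j) (fun h => S.yJ (S.CJ j hj h)) (S.CY j hj).symm (S.vC i hi j hj)
    (fun h => S.fJ i hi (S.CJ j hj h)) p hp q hq hpq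
  simp only [Set.mem_ofPred_eq]
  rw [e1, e2]

lemma prod_r1 (L : Lik F b) (A : Finset ℕ) (u : Sig) :
    (∏ l ∈ A, lk F (!b) (u l)) * lk F b (!b) ^ A.card ≤
      (∏ l ∈ A, lk F b (u l)) * lk F (!b) (!b) ^ A.card := by
  rw [← prod_const, ← prod_const, ← prod_mul_distrib, ← prod_mul_distrib]
  apply prod_le_prod
  · intro l _
    exact mul_nonneg (L.pos _ _).le (L.pos _ _).le
  · intro l _
    exact L.r1 (u l)

/-- `X` and `Z` for the vector `(v i, f i)` -/
lemma pr_bb_le {i : ℕ} (hi : i < k) (t : Bool) :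
    pr F t ((cell (play F tie N) (range T) u0 ∩ cyl R (fun _ => b)) ∩ {w | w (v i) = b ∧ (play F tie N) (f i) w = b}) ≤ pr F t (cell (play F tie N) (range T) u0 ∩ cyl R (fun _ => b)) * lk F t b := by
  have h1 : (cell (play F tie N) (range T) u0 ∩ cyl R (fun _ => b)) ∩ {w | w (v i) = b ∧ (play F tie N) (f i) w = b} ⊆ (cell (play F tie N) (range T) u0 ∩ cyl R (fun _ => b)) ∩ cyl {v i} (fun _ => b) := by
    rintro w ⟨h1, h2, _⟩
    refine ⟨h1, ?_⟩
    intro m hm
    rw [mem_singleton] at hm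
    rw [hm]; exact h2
  refine (pr_mono F t h1).trans ?_
  rw [pr_inter_cyl F t S.dep1 (S.ins1 ?_ ?_)]
  · simp
  · intro j hj
    rw [mem_singleton] at hj
    rw [hj]; exact S.JT _ (S.vJ i hi)
  · rw [disjoint_singleton_left]; exact S.vR i hi

lemma pr_y_cyl {X : Finset ℕ} (hX : ∀ i ∈ X, T ≤ i) (hXR : Disjoint X R) (hy : y ∉ X)
    (hY : Disjoint Y X) (c s : Bool) (t : Bool) :
    pr F t (((cell (play F tie N) (range T) u0 ∩ cyl R (fun _ => b)) ∩ {w | (play F tie N) y w = c}) ∩ cyl X (fun _ => s)) =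
      pr F t ((cell (play F tie N) (range T) u0 ∩ cyl R (fun _ => b)) ∩ {w | (play F tie N) y w = c}) * lk F t s ^ X.card := by
  rw [pr_inter_cyl F t (S.depAy _) (S.insAy hX hXR hy hY _)]
  simp

lemma factT1 (L : Lik F b)
    (h1 : pr F (!b) ((cell (play F tie N) (range T) u0 ∩ cyl R (fun _ => b)) ∩ {w | (play F tie N) y w = b}) * lk F (!b) (!b) ^ 2 <
      pr F b ((cell (play F tie N) (range T) u0 ∩ cyl R (fun _ => b)) ∩ {w | (play F tie N) y w = b}) * lk F b (!b) ^ 2)
    (h2 : lk F b b * lk F b (!b) * pr F b ((cell (play F tie N) (range T) u0 ∩ cyl R (fun _ => b)) ∩ {w | (play F tie N) y w = !b}) <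
      lk F (!b) b * lk F (!b) (!b) * pr F (!b) ((cell (play F tie N) (range T) u0 ∩ cyl R (fun _ => b)) ∩ {w | (play F tie N) y w = !b}))
    (h : pr F (!b) ((cell (play F tie N) (range T) u0 ∩ cyl R (fun _ => b)) ∩ {w | (play F tie N) y w = b}) * lk F (!b) (!b) ^ (n + 2) <
      pr F b ((cell (play F tie N) (range T) u0 ∩ cyl R (fun _ => b)) ∩ {w | (play F tie N) y w = b}) * lk F b (!b) ^ (n + 2))
    {i j : ℕ} (hi : i < k) (hj : j < M) {u : Sig} (hu : u ∈ (cell (play F tie N) (range T) u0 ∩ cyl R (fun _ => b))) (hv : u (v i) = !b)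
    (hf : (play F tie N) (f i) u = b) : (play F tie N) (g i j) u = b := by
  apply S.rule1 ({v i, f i} ∪ C j) (S.Ng i hi j hj) hu b
  rw [S.pr_g hi hj hu, S.pr_g hi hj hu, hf, hv]
  have e : ∀ t : Bool, pr F t ((cell (play F tie N) (range T) u0 ∩ cyl R (fun _ => b)) ∩ {w | w (v i) = !b ∧ (play F tie N) (f i) w = b}) =
      pr F t ((cell (play F tie N) (range T) u0 ∩ cyl R (fun _ => b)) ∩ {w | (play F tie N) y w = b}) * lk F t (!b) := by
    intro t
    have e1 : (cell (play F tie N) (range T) u0 ∩ cyl R (fun _ => b)) ∩ {w | w (v i) = !b ∧ (play F tie N) (f i) w = b} =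
        ((cell (play F tie N) (range T) u0 ∩ cyl R (fun _ => b)) ∩ {w | (play F tie N) y w = b}) ∩ cyl {v i} (fun _ => !b) := by
      ext w
      simp only [Set.mem_inter_iff, Set.mem_ofPred_eq, cyl, mem_singleton, forall_eq]
      constructor
      · rintro ⟨g1, g2, g3⟩
        refine ⟨⟨g1, ?_⟩, g2⟩
        by_contra hc
        have hc' : (play F tie N) y w = !b := by
          cases hh : (play F tie N) y w <;> cases b <;> simp_all
        have := S.factF2 L h2 hi g1 hc' g2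
        rw [g3] at this
        cases b <;> simp at this
      · rintro ⟨⟨g1, g2⟩, g3⟩
        exact ⟨g1, g3, S.factF1 L h1 hi g1 g2⟩
    rw [e1, S.pr_y_cyl]
    · simp
    · intro j hj
      rw [mem_singleton] at hj
      rw [hj]; exact S.JT _ (S.vJ i hi)
    · rw [disjoint_singleton_left]; exact S.vR i hi
    · rw [mem_singleton]
      intro h
      exact S.yJ (h ▸ S.vJ i hi)
    · rw [disjoint_singleton_right]; exact S.vY i hi
  rw [e, e]
  set X := pr F b ((cell (play F tie N) (range T) u0 ∩ cyl R (fun _ => b)) ∩ {w | (play F tie N) y w = b})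
  set X' := pr F (!b) ((cell (play F tie N) (range T) u0 ∩ cyl R (fun _ => b)) ∩ {w | (play F tie N) y w = b})
  have r1 := S.prod_r1 L (C j) u
  rw [S.Ccard j hj] at r1
  have r2 := L.r1 (u (g i j))
  have p2 := L.pos b (u (g i j))
  have p4 := L.pos (!b) (u (g i j))
  have p5 := L.pos b (!b)
  have p6 := L.pos (!b) (!b)
  have hX' : 0 ≤ X' := pr_nonneg F _ _
  have hP : 0 < ∏ l ∈ C j, lk F b (u l) := prod_pos (fun _ _ => L.pos _ _)
  have hP' : 0 < ∏ l ∈ C j, lk F (!b) (u l) := prod_pos (fun _ _ => L.pos _ _)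
  set P := ∏ l ∈ C j, lk F b (u l)
  set P' := ∏ l ∈ C j, lk F (!b) (u l)
  have h3 : (X' * lk F (!b) (!b) * P' * lk F (!b) (u (g i j))) * lk F b (!b) ^ (n + 1) <
      (X * lk F b (!b) * P * lk F b (u (g i j))) * lk F b (!b) ^ (n + 1) := by
    calc (X' * lk F (!b) (!b) * P' * lk F (!b) (u (g i j))) * lk F b (!b) ^ (n + 1)
        = X' * lk F (!b) (!b) * ((P' * lk F b (!b) ^ n) * (lk F (!b) (u (g i j)) * lk F b (!b))) := by
          ring
      _ ≤ X' * lk F (!b) (!b) * ((P * lk F (!b) (!b) ^ n) * (lk F b (u (g i j)) * lk F (!b) (!b))) := by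
          gcongr
      _ = (X' * lk F (!b) (!b) ^ (n + 2)) * (P * lk F b (u (g i j))) := by ring
      _ < (X * lk F b (!b) ^ (n + 2)) * (P * lk F b (u (g i j))) := by gcongr
      _ = _ := by ring
  exact lt_of_mul_lt_mul_right h3 (by positivity)

lemma factT2 (L : Lik F b)
    (h3 : lk F (!b) b ^ 2 * pr F (!b) ((cell (play F tie N) (range T) u0 ∩ cyl R (fun _ => b)) ∩ {w | (play F tie N) y w = !b}) <
      lk F b b ^ 2 * pr F b ((cell (play F tie N) (range T) u0 ∩ cyl R (fun _ => b)) ∩ {w | (play F tie N) y w = !b}))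
    (h : pr F b (cell (play F tie N) (range T) u0 ∩ cyl R (fun _ => b)) * lk F b b ^ 2 * lk F b (!b) ^ n <
      pr F (!b) ((cell (play F tie N) (range T) u0 ∩ cyl R (fun _ => b)) ∩ {w | (play F tie N) y w = !b}) * lk F (!b) b ^ 3 * lk F (!b) (!b) ^ n)
    {i j : ℕ} (hi : i < k) (hj : j < M) {u : Sig} (hu : u ∈ (cell (play F tie N) (range T) u0 ∩ cyl R (fun _ => b))) (hv : u (v i) = b)
    (hf : (play F tie N) (f i) u = b) (hC : ∀ l ∈ C j, u l = !b) : (play F tie N) (g i j) u = !b := by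
  apply S.rule1 ({v i, f i} ∪ C j) (S.Ng i hi j hj) hu (!b)
  rw [Bool.not_not, S.pr_g hi hj hu, S.pr_g hi hj hu, hf, hv]
  have eP : ∀ t, ∏ l ∈ C j, lk F t (u l) = lk F t (!b) ^ n := by
    intro t
    rw [prod_congr rfl (fun l hl => by rw [hC l hl]), prod_const, S.Ccard j hj]
  rw [eP, eP]
  have u1 := S.pr_bb_le hi b
  have l1 : pr F (!b) ((cell (play F tie N) (range T) u0 ∩ cyl R (fun _ => b)) ∩ {w | (play F tie N) y w = !b}) * lk F (!b) b ^ 2 ≤
      pr F (!b) ((cell (play F tie N) (range T) u0 ∩ cyl R (fun _ => b)) ∩ {w | w (v i) = b ∧ (play F tie N) (f i) w = b}) := by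
    have hvf : v i ≠ f i := fun h => S.fJ i hi (h ▸ S.vJ i hi)
    have e2 : lk F (!b) b ^ 2 = lk F (!b) b ^ (({v i, f i} : Finset ℕ).card) := by
      rw [card_pair hvf]
    rw [e2, ← S.pr_y_cyl (X := {v i, f i})]
    · apply pr_mono
      rintro w ⟨⟨g1, g2⟩, g3⟩
      have g4 := g3 (v i) (by simp)
      have g5 := g3 (f i) (by simp)
      exact ⟨g1, g4, S.factF3 L h3 hi g1 g2 g4 g5⟩
    · intro l hl
      rw [mem_insert, mem_singleton] at hl
      rcases hl with hl | hl
      · rw [hl]; exact S.JT _ (S.vJ i hi)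
      · rw [hl]; exact S.fT i hi
    · rw [disjoint_left]
      intro l hl hl'
      rw [mem_insert, mem_singleton] at hl
      rcases hl with hl | hl
      · rw [hl] at hl'; exact S.vR i hi hl'
      · rw [hl] at hl'; exact S.fJ i hi (S.RJ hl')
    · rw [mem_insert, mem_singleton]
      rintro (h | h)
      · exact S.yJ (h ▸ S.vJ i hi)
      · exact S.fy i hi h.symm
    · rw [disjoint_left]
      intro l hl' hl
      rw [mem_insert, mem_singleton] at hl
      rcases hl with hl | hl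
      · rw [hl] at hl'; exact S.vY i hi hl'
      · rw [hl] at hl'; exact S.fJ i hi (S.YJ hl')
  set Z' := pr F (!b) ((cell (play F tie N) (range T) u0 ∩ cyl R (fun _ => b)) ∩ {w | (play F tie N) y w = !b})
  set W := pr F b (cell (play F tie N) (range T) u0 ∩ cyl R (fun _ => b))
  have r2 := L.r2 (u (g i j))
  have p1 := L.pos b b
  have p3 := L.pos (!b) b
  have p2 := L.pos b (u (g i j))
  have p4 := L.pos (!b) (u (g i j))
  have p5 := L.pos b (!b)
  have p6 := L.pos (!b) (!b)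
  have hW : 0 ≤ W := pr_nonneg F _ _
  have hZ' : 0 ≤ Z' := pr_nonneg F _ _
  have h4 : (W * lk F b b) * lk F b (!b) ^ n * lk F b (u (g i j)) <
      (Z' * lk F (!b) b ^ 2) * lk F (!b) (!b) ^ n * lk F (!b) (u (g i j)) := by
    have h5 : ((W * lk F b b) * lk F b (!b) ^ n * lk F b (u (g i j))) * lk F (!b) b <
      ((Z' * lk F (!b) b ^ 2) * lk F (!b) (!b) ^ n * lk F (!b) (u (g i j))) * lk F (!b) b := by
      calc ((W * lk F b b) * lk F b (!b) ^ n * lk F b (u (g i j))) * lk F (!b) b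
          = (W * lk F b b * lk F b (!b) ^ n) * (lk F b (u (g i j)) * lk F (!b) b) := by ring
        _ ≤ (W * lk F b b * lk F b (!b) ^ n) * (lk F (!b) (u (g i j)) * lk F b b) := by gcongr
        _ = (W * lk F b b ^ 2 * lk F b (!b) ^ n) * lk F (!b) (u (g i j)) := by ring
        _ < (Z' * lk F (!b) b ^ 3 * lk F (!b) (!b) ^ n) * lk F (!b) (u (g i j)) := by gcongr
        _ = _ := by ring
    exact lt_of_mul_lt_mul_right h5 p3.le
  calc _ ≤ (W * lk F b b) * lk F b (!b) ^ n * lk F b (u (g i j)) := by gcongr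
    _ < _ := h4
    _ ≤ _ := by gcongr

lemma factT3 (L : Lik F b)
    (h1 : pr F (!b) ((cell (play F tie N) (range T) u0 ∩ cyl R (fun _ => b)) ∩ {w | (play F tie N) y w = b}) * lk F (!b) (!b) ^ 2 <
      pr F b ((cell (play F tie N) (range T) u0 ∩ cyl R (fun _ => b)) ∩ {w | (play F tie N) y w = b}) * lk F b (!b) ^ 2)
    (h : pr F (!b) (cell (play F tie N) (range T) u0 ∩ cyl R (fun _ => b)) * lk F (!b) b ^ (n + 1) * lk F (!b) (!b) <
      pr F b ((cell (play F tie N) (range T) u0 ∩ cyl R (fun _ => b)) ∩ {w | (play F tie N) y w = b}) * lk F b b ^ (n + 1) * lk F b (!b))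
    {i j : ℕ} (hi : i < k) (hj : j < M) {u : Sig} (hu : u ∈ (cell (play F tie N) (range T) u0 ∩ cyl R (fun _ => b))) (hv : u (v i) = b)
    (hf : (play F tie N) (f i) u = b) (hC : ∀ l ∈ C j, u l = b) : (play F tie N) (g i j) u = b := by
  apply S.rule1 ({v i, f i} ∪ C j) (S.Ng i hi j hj) hu b
  rw [S.pr_g hi hj hu, S.pr_g hi hj hu, hf, hv]
  have eP : ∀ t, ∏ l ∈ C j, lk F t (u l) = lk F t b ^ n := by
    intro t
    rw [prod_congr rfl (fun l hl => by rw [hC l hl]), prod_const, S.Ccard j hj]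
  rw [eP, eP]
  have u1 := S.pr_bb_le hi (!b)
  have l1 : pr F b ((cell (play F tie N) (range T) u0 ∩ cyl R (fun _ => b)) ∩ {w | (play F tie N) y w = b}) * lk F b b ≤
      pr F b ((cell (play F tie N) (range T) u0 ∩ cyl R (fun _ => b)) ∩ {w | w (v i) = b ∧ (play F tie N) (f i) w = b}) := by
    have e2 : lk F b b = lk F b b ^ (({v i} : Finset ℕ).card) := by simp
    rw [e2, ← S.pr_y_cyl (X := {v i})]
    · apply pr_mono
      rintro w ⟨⟨g1, g2⟩, g3⟩
      have g4 := g3 (v i) (by simp)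
      exact ⟨g1, g4, S.factF1 L h1 hi g1 g2⟩
    · intro j hj
      rw [mem_singleton] at hj
      rw [hj]; exact S.JT _ (S.vJ i hi)
    · rw [disjoint_singleton_left]; exact S.vR i hi
    · rw [mem_singleton]
      intro h
      exact S.yJ (h ▸ S.vJ i hi)
    · rw [disjoint_singleton_right]; exact S.vY i hi
  set X := pr F b ((cell (play F tie N) (range T) u0 ∩ cyl R (fun _ => b)) ∩ {w | (play F tie N) y w = b})
  set W' := pr F (!b) (cell (play F tie N) (range T) u0 ∩ cyl R (fun _ => b))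
  have r1 := L.r1 (u (g i j))
  have p1 := L.pos b b
  have p3 := L.pos (!b) b
  have p2 := L.pos b (u (g i j))
  have p4 := L.pos (!b) (u (g i j))
  have p5 := L.pos b (!b)
  have p6 := L.pos (!b) (!b)
  have hW' : 0 ≤ W' := pr_nonneg F _ _
  have hX : 0 ≤ X := pr_nonneg F _ _
  have h4 : (W' * lk F (!b) b) * lk F (!b) b ^ n * lk F (!b) (u (g i j)) <
      (X * lk F b b) * lk F b b ^ n * lk F b (u (g i j)) := by
    have h5 : ((W' * lk F (!b) b) * lk F (!b) b ^ n * lk F (!b) (u (g i j))) * lk F b (!b) <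
      ((X * lk F b b) * lk F b b ^ n * lk F b (u (g i j))) * lk F b (!b) := by
      calc ((W' * lk F (!b) b) * lk F (!b) b ^ n * lk F (!b) (u (g i j))) * lk F b (!b)
          = (W' * lk F (!b) b ^ (n + 1)) * (lk F (!b) (u (g i j)) * lk F b (!b)) := by ring
        _ ≤ (W' * lk F (!b) b ^ (n + 1)) * (lk F b (u (g i j)) * lk F (!b) (!b)) := by gcongr
        _ = (W' * lk F (!b) b ^ (n + 1) * lk F (!b) (!b)) * lk F b (u (g i j)) := by ring
        _ < (X * lk F b b ^ (n + 1) * lk F b (!b)) * lk F b (u (g i j)) := by gcongr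
        _ = _ := by ring
    exact lt_of_mul_lt_mul_right h5 p5.le
  calc _ ≤ (W' * lk F (!b) b) * lk F (!b) b ^ n * lk F (!b) (u (g i j)) := by gcongr
    _ < _ := h4
    _ ≤ _ := by gcongr

end Setup

end Pool.Agent.X304.Learn
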