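import Pool.Agent.X304.Learn.Gadget2

set_option autoImplicit false
set_option linter.unusedSectionVars false
set_option linter.unusedVariables false

open MeasureTheory ProbabilityTheory Finset

namespace Pool.Agent.X304.Learn

variable {F : Bool → Measure Bool} [∀ t, IsProbabilityMeasure (F t)]
variable {tie : ℕ → (ℕ → Bool) → Bool → Bool}
variable {N : ℕ → Finset ℕ} {T : ℕ} {u0 : Sig} {b : Bool} {J Y R : Finset ℕ} {y k M n : ℕ}
  {v f : ℕ → ℕ} {g : ℕ → ℕ → ℕ} {C : ℕ → Finset ℕ}

/-- The observation set `S` is active at `u`: an agent who sees the actions in `S` follows her own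
signal. -/
def Active (F : Bool → Measure Bool) [∀ t, IsProbabilityMeasure (F t)] (a : ℕ → Sig → Bool)
    (S : Finset ℕ) (u : Sig) : Prop :=
  ∀ t : Bool, pr F (!t) (cell a S u) * lk F (!t) t < pr F t (cell a S u) * lk F t t

/-- the event that all the final agents choose `b` -/
def DD (a : ℕ → Sig → Bool) (b : Bool) (k M : ℕ) (f : ℕ → ℕ) (g : ℕ → ℕ → ℕ) : Set Sig :=
  {w | (∀ i < k, a (f i) w = b) ∧ ∀ i < k, ∀ j < M, a (g i j) w = b}


namespace Setup

variable (S : Setup F tie N T u0 b J Y R y k M n v f g C)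
include S

lemma depDD : Dep (DD (play F tie N) b k M f g) (((range k).biUnion fun i => range (f i + 1)) ∪
    ((range k).biUnion fun i => (range M).biUnion fun j => range (g i j + 1))) := by
  intro p q hpq
  have h1 : ∀ i < k, (play F tie N) (f i) p = (play F tie N) (f i) q := by
    intro i hi
    apply play_dep
    intro l hl
    apply hpq
    rw [mem_union]
    left
    exact mem_biUnion.2 ⟨i, mem_range.2 hi, mem_range.2 (by omega)⟩
  have h2 : ∀ i < k, ∀ j < M, (play F tie N) (g i j) p = (play F tie N) (g i j) q := by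
    intro i hi j hj
    apply play_dep
    intro l hl
    apply hpq
    rw [mem_union]
    right
    exact mem_biUnion.2 ⟨i, mem_range.2 hi, mem_biUnion.2 ⟨j, mem_range.2 hj, mem_range.2 (by omega)⟩⟩
  unfold DD
  simp only [Set.mem_ofPred_eq]
  constructor
  · rintro ⟨g1, g2⟩
    exact ⟨fun i hi => by rw [← h1 i hi]; exact g1 i hi,
      fun i hi j hj => by rw [← h2 i hi j hj]; exact g2 i hi j hj⟩
  · rintro ⟨g1, g2⟩
    exact ⟨fun i hi => by rw [h1 i hi]; exact g1 i hi,
      fun i hi j hj => by rw [h2 i hi j hj]; exact g2 i hi j hj⟩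

lemma cardV : ((range k).image v).card = k := by
  rw [card_image_of_injOn S.vinj, card_range]

lemma memV {l : ℕ} (hl : l ∈ (range k).image v) : ∃ i < k, v i = l := by
  obtain ⟨i, hi, h⟩ := mem_image.1 hl
  exact ⟨i, mem_range.1 hi, h⟩

lemma VT : ∀ l ∈ (range k).image v, T ≤ l := by
  intro l hl
  obtain ⟨i, hi, rfl⟩ := S.memV hl
  exact S.JT _ (S.vJ i hi)

lemma VR : Disjoint ((range k).image v) R := by
  rw [disjoint_left]
  intro l hl hl'
  obtain ⟨i, hi, rfl⟩ := S.memV hl
  exact S.vR i hi hl'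

lemma yV : y ∉ (range k).image v := by
  intro h
  obtain ⟨i, hi, h⟩ := S.memV h
  exact S.yJ (h ▸ S.vJ i hi)

lemma YV : Disjoint Y ((range k).image v) := by
  rw [disjoint_left]
  intro l hl hl'
  obtain ⟨i, hi, rfl⟩ := S.memV hl'
  exact S.vY i hi hl

lemma D_lower (L : Lik F b)
    (h1 : pr F (!b) ((cell (play F tie N) (range T) u0 ∩ cyl R (fun _ => b)) ∩ {w | (play F tie N) y w = b}) * lk F (!b) (!b) ^ 2 <
      pr F b ((cell (play F tie N) (range T) u0 ∩ cyl R (fun _ => b)) ∩ {w | (play F tie N) y w = b}) * lk F b (!b) ^ 2)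
    (h2 : lk F b b * lk F b (!b) * pr F b ((cell (play F tie N) (range T) u0 ∩ cyl R (fun _ => b)) ∩ {w | (play F tie N) y w = !b}) <
      lk F (!b) b * lk F (!b) (!b) * pr F (!b) ((cell (play F tie N) (range T) u0 ∩ cyl R (fun _ => b)) ∩ {w | (play F tie N) y w = !b}))
    (h : pr F (!b) ((cell (play F tie N) (range T) u0 ∩ cyl R (fun _ => b)) ∩ {w | (play F tie N) y w = b}) * lk F (!b) (!b) ^ (n + 2) <
      pr F b ((cell (play F tie N) (range T) u0 ∩ cyl R (fun _ => b)) ∩ {w | (play F tie N) y w = b}) * lk F b (!b) ^ (n + 2)) (t : Bool) :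
    pr F t ((cell (play F tie N) (range T) u0 ∩ cyl R (fun _ => b)) ∩ {w | (play F tie N) y w = b}) * lk F t (!b) ^ k ≤ pr F t ((cell (play F tie N) (range T) u0 ∩ cyl R (fun _ => b)) ∩ DD (play F tie N) b k M f g) := by
  have hc := S.pr_y_cyl S.VT S.VR S.yV S.YV b (!b) t
  rw [S.cardV] at hc
  rw [← hc]
  apply pr_mono
  rintro w ⟨⟨g1, g2⟩, g3⟩
  have hf : ∀ i < k, (play F tie N) (f i) w = b := fun i hi => S.factF1 L h1 hi g1 g2
  have hv : ∀ i < k, w (v i) = !b := fun i hi => g3 (v i) (mem_image_of_mem v (mem_range.2 hi))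
  exact ⟨g1, hf, fun i hi j hj => S.factT1 L h1 h2 h hi hj g1 (hv i hi) (hf i hi)⟩

lemma pr_blocks (t : Bool) (m : ℕ) (hm : m ≤ M) :
    pr F t ((cell (play F tie N) (range T) u0 ∩ cyl R (fun _ => b)) ∩ {w | ∀ j < m, ¬ ∀ l ∈ C j, w l = !b}) = pr F t (cell (play F tie N) (range T) u0 ∩ cyl R (fun _ => b)) * (1 - lk F t (!b) ^ n) ^ m := by
  induction m with
  | zero =>
    have : (cell (play F tie N) (range T) u0 ∩ cyl R (fun _ => b)) ∩ {w : Sig | ∀ j < 0, ¬ ∀ l ∈ C j, w l = !b} = (cell (play F tie N) (range T) u0 ∩ cyl R (fun _ => b)) := by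
      ext w; simp
    rw [this]; simp
  | succ m ih =>
    have e : (cell (play F tie N) (range T) u0 ∩ cyl R (fun _ => b)) ∩ {w : Sig | ∀ j < m + 1, ¬ ∀ l ∈ C j, w l = !b} =
        ((cell (play F tie N) (range T) u0 ∩ cyl R (fun _ => b)) ∩ {w : Sig | ∀ j < m, ¬ ∀ l ∈ C j, w l = !b}) ∩ (cyl (C m) (fun _ => !b))ᶜ := by
      ext w
      simp only [Set.mem_inter_iff, Set.mem_ofPred_eq, Set.mem_compl_iff, cyl]
      constructor
      · rintro ⟨h1, h2⟩
        exact ⟨⟨h1, fun j hj => h2 j (by omega)⟩, h2 m (by omega)⟩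
      · rintro ⟨⟨h1, h2⟩, h3⟩
        refine ⟨h1, fun j hj => ?_⟩
        rcases Nat.lt_succ_iff_lt_or_eq.1 hj with h | h
        · exact h2 j h
        · rw [h]; exact h3
    have hd : Dep ((cell (play F tie N) (range T) u0 ∩ cyl R (fun _ => b)) ∩ {w : Sig | ∀ j < m, ¬ ∀ l ∈ C j, w l = !b})
        ((range T ∪ R) ∪ (range m).biUnion C) := by
      apply S.dep1.inter'
      intro p q hpq
      have : ∀ j < m, ∀ l ∈ C j, p l = q l := fun j hj l hl =>
        hpq l (mem_biUnion.2 ⟨j, mem_range.2 hj, hl⟩)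
      simp only [Set.mem_ofPred_eq]
      constructor
      · intro h j hj hc
        exact h j hj (fun l hl => by rw [this j hj l hl]; exact hc l hl)
      · intro h j hj hc
        exact h j hj (fun l hl => by rw [← this j hj l hl]; exact hc l hl)
    have hi : Ins ((cell (play F tie N) (range T) u0 ∩ cyl R (fun _ => b)) ∩ {w : Sig | ∀ j < m, ¬ ∀ l ∈ C j, w l = !b}) (C m) := by
      apply ins_inter (S.ins1 (fun l hl => S.JT l (S.CJ m (by omega) hl)) (S.CR m (by omega)))
      intro p hp q hq hpq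
      have : ∀ j < m, ∀ l ∈ C j, p l = q l := fun j hj l hl =>
        hpq l (fun hl' => (disjoint_left.1 (S.CC j (by omega) m (by omega) (by omega))) hl hl')
      simp only [Set.mem_ofPred_eq]
      constructor
      · intro h j hj hc
        exact h j hj (fun l hl => by rw [this j hj l hl]; exact hc l hl)
      · intro h j hj hc
        exact h j hj (fun l hl => by rw [← this j hj l hl]; exact hc l hl)
    rw [e, pr_diff F t (dep_cyl (C m) _), pr_inter_cyl F t hd hi, ih (by omega), prod_const,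
      S.Ccard m (by omega)]
    ring

lemma D_upper (L : Lik F b)
    (h3 : lk F (!b) b ^ 2 * pr F (!b) ((cell (play F tie N) (range T) u0 ∩ cyl R (fun _ => b)) ∩ {w | (play F tie N) y w = !b}) <
      lk F b b ^ 2 * pr F b ((cell (play F tie N) (range T) u0 ∩ cyl R (fun _ => b)) ∩ {w | (play F tie N) y w = !b}))
    (h : pr F b (cell (play F tie N) (range T) u0 ∩ cyl R (fun _ => b)) * lk F b b ^ 2 * lk F b (!b) ^ n <
      pr F (!b) ((cell (play F tie N) (range T) u0 ∩ cyl R (fun _ => b)) ∩ {w | (play F tie N) y w = !b}) * lk F (!b) b ^ 3 * lk F (!b) (!b) ^ n) :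
    pr F b ((cell (play F tie N) (range T) u0 ∩ cyl R (fun _ => b)) ∩ DD (play F tie N) b k M f g) ≤
      pr F b (cell (play F tie N) (range T) u0 ∩ cyl R (fun _ => b)) * (lk F b (!b) ^ k + (1 - lk F b (!b) ^ n) ^ M) := by
  have hsub : (cell (play F tie N) (range T) u0 ∩ cyl R (fun _ => b)) ∩ DD (play F tie N) b k M f g ⊆
      ((cell (play F tie N) (range T) u0 ∩ cyl R (fun _ => b)) ∩ cyl ((range k).image v) (fun _ => !b)) ∪
      ((cell (play F tie N) (range T) u0 ∩ cyl R (fun _ => b)) ∩ {w | ∀ j < M, ¬ ∀ l ∈ C j, w l = !b}) := by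
    rintro w ⟨g1, g2, g3⟩
    by_cases hv : ∀ i < k, w (v i) = !b
    · left
      refine ⟨g1, ?_⟩
      intro l hl
      obtain ⟨i, hi, rfl⟩ := S.memV hl
      exact hv i hi
    · right
      push Not at hv
      obtain ⟨i, hi, hv⟩ := hv
      have hv' : w (v i) = b := by
        cases hh : w (v i) <;> cases b <;> simp_all
      refine ⟨g1, ?_⟩
      intro j hj hC
      have := S.factT2 L h3 h hi hj g1 hv' (g2 i hi) hC
      rw [g3 i hi j hj] at this
      cases b <;> simp at this
  refine (pr_mono F b hsub).trans ((pr_union_le F b _ _).trans ?_)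
  rw [S.pr_blocks b M le_rfl, pr_inter_cyl F b S.dep1 (S.ins1 S.VT S.VR), prod_const, S.cardV]
  linarith

/-- probabilities with `R` -/
lemma pr_E1 (t : Bool) : pr F t (cell (play F tie N) (range T) u0 ∩ cyl R (fun _ => b)) = pr F t (cell (play F tie N) (range T) u0) * lk F t b ^ R.card := by
  rw [pr_inter_cyl F t S.dep0 (S.ins0 (fun l hl => S.JT l (S.RJ hl))), prod_const]

lemma pr_E1y (t c : Bool) : pr F t ((cell (play F tie N) (range T) u0 ∩ cyl R (fun _ => b)) ∩ {w | (play F tie N) y w = c}) =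
    pr F t ((cell (play F tie N) (range T) u0) ∩ {w | (play F tie N) y w = c}) * lk F t b ^ R.card := by
  have e : (cell (play F tie N) (range T) u0 ∩ cyl R (fun _ => b)) ∩ {w | (play F tie N) y w = c} = ((cell (play F tie N) (range T) u0) ∩ {w | (play F tie N) y w = c}) ∩ cyl R (fun _ => b) := by
    ext w
    simp only [Set.mem_inter_iff]
    tauto
  rw [e, pr_inter_cyl F t (S.dep0.inter' (dep_act F tie N y c)), prod_const]
  apply ins_inter (S.ins0 (fun l hl => S.JT l (S.RJ hl)))
  intro p hp q hq hpq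
  have := S.ay (X := R) (fun h => S.yJ (S.RJ h)) S.YR p hp q hq hpq
  simp only [Set.mem_ofPred_eq, this]

/-- the cell of `y` -/
lemma cell_y {u : Sig} (hu : u ∈ (cell (play F tie N) (range T) u0)) : cell (play F tie N) (N y) u = (cell (play F tie N) (range T) u0) ∩ cyl Y u := by
  rw [S.Ny]
  ext w
  constructor
  · intro h
    have h0 : w ∈ (cell (play F tie N) (range T) u0) := by
      intro m hm
      rw [h m (by simp only [mem_union]; tauto), hu m hm]
    refine ⟨h0, fun m hm => ?_⟩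
    have h1 := h m (by simp only [mem_union]; tauto)
    rwa [S.raw w h0 m (S.YJ hm), S.raw u hu m (S.YJ hm)] at h1
  · rintro ⟨h1, h2⟩ m hm
    rw [mem_union] at hm
    rcases hm with hm | hm
    · rw [h1 m hm, hu m hm]
    · rw [S.raw w h1 m (S.YJ hm), S.raw u hu m (S.YJ hm)]
      exact h2 m hm

lemma pr_cell_y {u : Sig} (hu : u ∈ (cell (play F tie N) (range T) u0)) (t : Bool) :
    pr F t (cell (play F tie N) (N y) u) = pr F t (cell (play F tie N) (range T) u0) * ∏ l ∈ Y, lk F t (u l) := by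
  rw [S.cell_y hu, pr_inter_cyl F t S.dep0 (S.ins0 (fun l hl => S.JT l (S.YJ hl)))]

lemma factY (L : Lik F b)
    (h : pr F (!b) (cell (play F tie N) (range T) u0) * lk F (!b) b ^ Y.card * lk F (!b) (!b) <
      pr F b (cell (play F tie N) (range T) u0) * lk F b b ^ Y.card * lk F b (!b))
    {u : Sig} (hu : u ∈ (cell (play F tie N) (range T) u0)) (hY : ∀ l ∈ Y, u l = b) : (play F tie N) y u = b := by
  apply play_rule F tie S.valid
  have eP : ∀ t, ∏ l ∈ Y, lk F t (u l) = lk F t b ^ Y.card := by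
    intro t
    rw [prod_congr rfl (fun l hl => by rw [hY l hl]), prod_const]
  rw [S.pr_cell_y hu, S.pr_cell_y hu, eP, eP]
  set w := pr F b (cell (play F tie N) (range T) u0)
  set w' := pr F (!b) (cell (play F tie N) (range T) u0)
  have r1 := L.r1 (u y)
  have p2 := L.pos b (u y)
  have p4 := L.pos (!b) (u y)
  have p5 := L.pos b (!b)
  have p3 := L.pos (!b) b
  have hw' : 0 ≤ w' := pr_nonneg F _ _
  have h5 : (w' * lk F (!b) b ^ Y.card * lk F (!b) (u y)) * lk F b (!b) <
      (w * lk F b b ^ Y.card * lk F b (u y)) * lk F b (!b) := by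
    calc (w' * lk F (!b) b ^ Y.card * lk F (!b) (u y)) * lk F b (!b)
        = (w' * lk F (!b) b ^ Y.card) * (lk F (!b) (u y) * lk F b (!b)) := by ring
      _ ≤ (w' * lk F (!b) b ^ Y.card) * (lk F b (u y) * lk F (!b) (!b)) := by gcongr
      _ = (w' * lk F (!b) b ^ Y.card * lk F (!b) (!b)) * lk F b (u y) := by ring
      _ < (w * lk F b b ^ Y.card * lk F b (!b)) * lk F b (u y) := by gcongr
      _ = _ := by ring
  exact lt_of_mul_lt_mul_right h5 p5.le

lemma factYlow (L : Lik F b)
    (h : pr F b (cell (play F tie N) (range T) u0) * lk F b (!b) ^ Y.card * lk F b (!b) <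
      pr F (!b) (cell (play F tie N) (range T) u0) * lk F (!b) (!b) ^ Y.card * lk F (!b) (!b))
    {u : Sig} (hu : u ∈ (cell (play F tie N) (range T) u0)) (hY : ∀ l ∈ Y, u l = !b) (hy : u y = !b) : (play F tie N) y u = !b := by
  apply play_rule F tie S.valid
  have eP : ∀ t, ∏ l ∈ Y, lk F t (u l) = lk F t (!b) ^ Y.card := by
    intro t
    rw [prod_congr rfl (fun l hl => by rw [hY l hl]), prod_const]
  rw [Bool.not_not, S.pr_cell_y hu, S.pr_cell_y hu, eP, eP, hy]
  exact h

end Setup

end Pool.Agent.X304.Learn
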