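import Pool.Agent.X304.Learn.Gadget3

set_option autoImplicit false
set_option linter.unusedSectionVars false
set_option linter.unusedVariables false

open MeasureTheory ProbabilityTheory Finset

namespace Pool.Agent.X304.Learn

variable {F : Bool → Measure Bool} [∀ t, IsProbabilityMeasure (F t)]
variable {tie : ℕ → (ℕ → Bool) → Bool → Bool}
variable {N : ℕ → Finset ℕ} {T : ℕ} {u0 : Sig} {b : Bool} {J Y R : Finset ℕ} {y k M n : ℕ}
  {v f : ℕ → ℕ} {g : ℕ → ℕ → ℕ} {C : ℕ → Finset ℕ}


/-- the observation set of the test agents, beyond the base history and `R` -/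
def QQ (R' : Finset ℕ) (k M : ℕ) (f : ℕ → ℕ) (g : ℕ → ℕ → ℕ) : Finset ℕ :=
  R' ∪ ((range k).image f ∪ (range k ×ˢ range M).image (fun p => g p.1 p.2))

namespace Setup

variable (S : Setup F tie N T u0 b J Y R y k M n v f g C)
include S

/-- accuracy of `y` -/
lemma acc (ε : ℝ) (h : Sig → Bool) (h1 : ∀ u w : Sig, (∀ j ∈ Y, u j = w j) → h u = h w)
    (h2 : ∀ t : Bool, pr F t {u | h u ≠ t} ≤ ε) (t : Bool) :
    pr F t ((cell (play F tie N) (range T) u0) ∩ {w | (play F tie N) y w ≠ t}) ≤ (pr F t (cell (play F tie N) (range T) u0) + pr F (!t) (cell (play F tie N) (range T) u0)) * ε := by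
  have hE : InfoMeas (play F tie N) N y (cell (play F tie N) (range T) u0) := by
    intro u w huw _
    have : ∀ m ∈ range T, (play F tie N) m u = (play F tie N) m w := fun m hm => huw m (by
      rw [S.Ny, mem_union]; exact Or.inl hm)
    constructor
    · intro hu m hm
      rw [← this m hm]; exact hu m hm
    · intro hw m hm
      rw [this m hm]; exact hw m hm
  have hg : ∀ u w : Sig, (∀ m ∈ N y, (play F tie N) m u = (play F tie N) m w) → u y = w y →
      h (fun j => (play F tie N) j u) = h (fun j => (play F tie N) j w) := by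
    intro u w huw _
    apply h1
    intro j hj
    exact huw j (by rw [S.Ny, mem_union]; exact Or.inr hj)
  have hopt := opt F tie S.valid y hE (fun u => h (fun j => (play F tie N) j u)) hg
  have hb : ∀ t : Bool, pr F t ((cell (play F tie N) (range T) u0) ∩ {u | h (fun j => (play F tie N) j u) ≠ t}) ≤ pr F t (cell (play F tie N) (range T) u0) * ε := by
    intro t
    have e : (cell (play F tie N) (range T) u0) ∩ {u | h (fun j => (play F tie N) j u) ≠ t} = (cell (play F tie N) (range T) u0) ∩ {u | h u ≠ t} := by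
      ext w
      constructor
      · rintro ⟨g1, g2⟩
        refine ⟨g1, ?_⟩
        have : h (fun j => (play F tie N) j w) = h w := h1 _ _ (fun j hj => S.raw w g1 j (S.YJ hj))
        simp only [Set.mem_ofPred_eq] at g2 ⊢
        rwa [this] at g2
      · rintro ⟨g1, g2⟩
        refine ⟨g1, ?_⟩
        have : h (fun j => (play F tie N) j w) = h w := h1 _ _ (fun j hj => S.raw w g1 j (S.YJ hj))
        simp only [Set.mem_ofPred_eq] at g2 ⊢
        rwa [this]
    have hd : Dep {u : Sig | h u ≠ t} Y := by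
      intro p q hpq
      simp only [Set.mem_ofPred_eq, h1 p q hpq]
    rw [e, pr_indep F t S.dep0 hd]
    · exact mul_le_mul_of_nonneg_left (h2 t) (pr_nonneg F t _)
    · rw [disjoint_left]
      intro i hi hi'
      have := S.JT i (S.YJ hi')
      have := mem_range.1 hi
      omega
  have n1 := pr_nonneg F true ((cell (play F tie N) (range T) u0) ∩ {u | (play F tie N) y u ≠ true})
  have n2 := pr_nonneg F false ((cell (play F tie N) (range T) u0) ∩ {u | (play F tie N) y u ≠ false})
  have b1 := hb true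
  have b2 := hb false
  cases t
  · simp only [Bool.not_false]
    nlinarith
  · simp only [Bool.not_true]
    nlinarith

lemma y_low1 (L : Lik F b)
    (h : pr F (!b) (cell (play F tie N) (range T) u0) * lk F (!b) b ^ Y.card * lk F (!b) (!b) <
      pr F b (cell (play F tie N) (range T) u0) * lk F b b ^ Y.card * lk F b (!b)) (t : Bool) :
    pr F t (cell (play F tie N) (range T) u0) * lk F t b ^ Y.card ≤ pr F t ((cell (play F tie N) (range T) u0) ∩ {w | (play F tie N) y w = b}) := by
  have e : pr F t ((cell (play F tie N) (range T) u0) ∩ cyl Y (fun _ => b)) = pr F t (cell (play F tie N) (range T) u0) * lk F t b ^ Y.card := by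
    rw [pr_inter_cyl F t S.dep0 (S.ins0 (fun l hl => S.JT l (S.YJ hl))), prod_const]
  rw [← e]
  apply pr_mono
  rintro w ⟨g1, g2⟩
  exact ⟨g1, S.factY L h g1 g2⟩

lemma y_low2 (L : Lik F b)
    (h : pr F b (cell (play F tie N) (range T) u0) * lk F b (!b) ^ Y.card * lk F b (!b) <
      pr F (!b) (cell (play F tie N) (range T) u0) * lk F (!b) (!b) ^ Y.card * lk F (!b) (!b)) (t : Bool) :
    pr F t (cell (play F tie N) (range T) u0) * lk F t (!b) ^ (Y.card + 1) ≤ pr F t ((cell (play F tie N) (range T) u0) ∩ {w | (play F tie N) y w = !b}) := by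
  have hc : (insert y Y).card = Y.card + 1 := card_insert_of_notMem (fun h => S.yJ (S.YJ h))
  have e : pr F t ((cell (play F tie N) (range T) u0) ∩ cyl (insert y Y) (fun _ => !b)) = pr F t (cell (play F tie N) (range T) u0) * lk F t (!b) ^ (Y.card + 1) := by
    rw [pr_inter_cyl F t S.dep0 (S.ins0 ?_), prod_const, hc]
    intro l hl
    rcases mem_insert.1 hl with hl | hl
    · rw [hl]; exact S.yT
    · exact S.JT l (S.YJ hl)
  rw [← e]
  apply pr_mono
  rintro w ⟨g1, g2⟩
  exact ⟨g1, S.factYlow L h g1 (fun l hl => g2 l (mem_insert_of_mem hl)) (g2 y (mem_insert_self _ _))⟩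

theorem final (L : Lik F b) {η η' : ℝ} {mM : ℕ}
    (hw : 0 < pr F b (cell (play F tie N) (range T) u0)) (hw' : 0 < pr F (!b) (cell (play F tie N) (range T) u0)) (hη : 0 < η) (hη' : 0 < η')
    (e1 : pr F b ((cell (play F tie N) (range T) u0) ∩ {w | (play F tie N) y w = b}) = pr F b (cell (play F tie N) (range T) u0) * η)
    (e2 : pr F b ((cell (play F tie N) (range T) u0) ∩ {w | (play F tie N) y w = !b}) = pr F b (cell (play F tie N) (range T) u0) * (1 - η))
    (e3 : pr F (!b) ((cell (play F tie N) (range T) u0) ∩ {w | (play F tie N) y w = b}) = pr F (!b) (cell (play F tie N) (range T) u0) * η')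
    (e4 : pr F (!b) ((cell (play F tie N) (range T) u0) ∩ {w | (play F tie N) y w = !b}) = pr F (!b) (cell (play F tie N) (range T) u0) * (1 - η'))
    (hY : pr F (!b) (cell (play F tie N) (range T) u0) * lk F (!b) b ^ Y.card * lk F (!b) (!b) <
      pr F b (cell (play F tie N) (range T) u0) * lk F b b ^ Y.card * lk F b (!b))
    (I : Ineqs (lk F b b) (lk F (!b) b) (lk F b (!b)) (lk F (!b) (!b)) (pr F b (cell (play F tie N) (range T) u0)) (pr F (!b) (cell (play F tie N) (range T) u0))
      η η' R.card n k M mM) :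
    ∃ m ≤ mM, ∀ R' : Finset ℕ, R'.card = m → R' ⊆ J → Disjoint R' Y → Disjoint R' R →
      (∀ i < k, v i ∉ R') → (∀ j < M, Disjoint (C j) R') →
      ∀ u ∈ (cell (play F tie N) (range T) u0), (∀ j ∈ J, u j = b) → Active F (play F tie N) (range T ∪ R ∪ QQ R' k M f g) u := by
  obtain ⟨I1, I2, I3, I4, I5, I6, I7, I8⟩ := I
  have q1 : pr F b ((cell (play F tie N) (range T) u0 ∩ cyl R (fun _ => b)) ∩ {w | (play F tie N) y w = b}) = pr F b (cell (play F tie N) (range T) u0) * η * lk F b b ^ R.card := by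
    rw [S.pr_E1y, e1]
  have q2 : pr F b ((cell (play F tie N) (range T) u0 ∩ cyl R (fun _ => b)) ∩ {w | (play F tie N) y w = !b}) = pr F b (cell (play F tie N) (range T) u0) * (1 - η) * lk F b b ^ R.card := by
    rw [S.pr_E1y, e2]
  have q3 : pr F (!b) ((cell (play F tie N) (range T) u0 ∩ cyl R (fun _ => b)) ∩ {w | (play F tie N) y w = b}) = pr F (!b) (cell (play F tie N) (range T) u0) * η' * lk F (!b) b ^ R.card := by
    rw [S.pr_E1y, e3]
  have q4 : pr F (!b) ((cell (play F tie N) (range T) u0 ∩ cyl R (fun _ => b)) ∩ {w | (play F tie N) y w = !b}) = pr F (!b) (cell (play F tie N) (range T) u0) * (1 - η') * lk F (!b) b ^ R.card := by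
    rw [S.pr_E1y, e4]
  have q5 : pr F b (cell (play F tie N) (range T) u0 ∩ cyl R (fun _ => b)) = pr F b (cell (play F tie N) (range T) u0) * lk F b b ^ R.card := S.pr_E1 b
  have q6 : pr F (!b) (cell (play F tie N) (range T) u0 ∩ cyl R (fun _ => b)) = pr F (!b) (cell (play F tie N) (range T) u0) * lk F (!b) b ^ R.card := S.pr_E1 (!b)
  have h1 : pr F (!b) ((cell (play F tie N) (range T) u0 ∩ cyl R (fun _ => b)) ∩ {w | (play F tie N) y w = b}) * lk F (!b) (!b) ^ 2 <
      pr F b ((cell (play F tie N) (range T) u0 ∩ cyl R (fun _ => b)) ∩ {w | (play F tie N) y w = b}) * lk F b (!b) ^ 2 := by rw [q1, q3]; exact I1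
  have h2 : lk F b b * lk F b (!b) * pr F b ((cell (play F tie N) (range T) u0 ∩ cyl R (fun _ => b)) ∩ {w | (play F tie N) y w = !b}) <
      lk F (!b) b * lk F (!b) (!b) * pr F (!b) ((cell (play F tie N) (range T) u0 ∩ cyl R (fun _ => b)) ∩ {w | (play F tie N) y w = !b}) := by
    rw [q2, q4]; exact I2
  have h3 : lk F (!b) b ^ 2 * pr F (!b) ((cell (play F tie N) (range T) u0 ∩ cyl R (fun _ => b)) ∩ {w | (play F tie N) y w = !b}) <
      lk F b b ^ 2 * pr F b ((cell (play F tie N) (range T) u0 ∩ cyl R (fun _ => b)) ∩ {w | (play F tie N) y w = !b}) := by rw [q2, q4]; exact I3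
  have h4 : pr F (!b) ((cell (play F tie N) (range T) u0 ∩ cyl R (fun _ => b)) ∩ {w | (play F tie N) y w = b}) * lk F (!b) (!b) ^ (n + 2) <
      pr F b ((cell (play F tie N) (range T) u0 ∩ cyl R (fun _ => b)) ∩ {w | (play F tie N) y w = b}) * lk F b (!b) ^ (n + 2) := by rw [q1, q3]; exact I4
  have h5 : pr F b (cell (play F tie N) (range T) u0 ∩ cyl R (fun _ => b)) * lk F b b ^ 2 * lk F b (!b) ^ n <
      pr F (!b) ((cell (play F tie N) (range T) u0 ∩ cyl R (fun _ => b)) ∩ {w | (play F tie N) y w = !b}) * lk F (!b) b ^ 3 * lk F (!b) (!b) ^ n := by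
    rw [q5, q4]; exact I5
  have h6 : pr F (!b) (cell (play F tie N) (range T) u0 ∩ cyl R (fun _ => b)) * lk F (!b) b ^ (n + 1) * lk F (!b) (!b) <
      pr F b ((cell (play F tie N) (range T) u0 ∩ cyl R (fun _ => b)) ∩ {w | (play F tie N) y w = b}) * lk F b b ^ (n + 1) * lk F b (!b) := by
    rw [q6, q1]; exact I6
  have p1 := L.pos b b
  have p3 := L.pos (!b) b
  have p5 := L.pos b (!b)
  have p6 := L.pos (!b) (!b)
  have low := S.D_lower L h1 h2 h4
  have up := S.D_upper L h3 h5
  have lowb := low b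
  have lowb' := low (!b)
  rw [q1] at lowb
  rw [q3] at lowb'
  rw [q5] at up
  have upb' : pr F (!b) ((cell (play F tie N) (range T) u0 ∩ cyl R (fun _ => b)) ∩ DD (play F tie N) b k M f g) ≤ pr F (!b) (cell (play F tie N) (range T) u0) * lk F (!b) b ^ R.card := by
    rw [← q6]
    exact pr_mono F _ Set.inter_subset_left
  have hx' : 0 < pr F (!b) ((cell (play F tie N) (range T) u0 ∩ cyl R (fun _ => b)) ∩ DD (play F tie N) b k M f g) := lt_of_lt_of_le (by positivity) lowb'
  obtain ⟨m, hm, hm1, hm2⟩ := tune (a := lk F b b) (a' := lk F (!b) b) (d := lk F b (!b))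
    (d' := lk F (!b) (!b)) (x := pr F b ((cell (play F tie N) (range T) u0 ∩ cyl R (fun _ => b)) ∩ DD (play F tie N) b k M f g))
    (x' := pr F (!b) ((cell (play F tie N) (range T) u0 ∩ cyl R (fun _ => b)) ∩ DD (play F tie N) b k M f g)) p3 p1 p5 L.lo hx' mM (by
      calc lk F (!b) b ^ (mM + 1) * pr F (!b) ((cell (play F tie N) (range T) u0 ∩ cyl R (fun _ => b)) ∩ DD (play F tie N) b k M f g)
          ≤ lk F (!b) b ^ (mM + 1) * (pr F (!b) (cell (play F tie N) (range T) u0) * lk F (!b) b ^ R.card) := by gcongr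
        _ < lk F b b ^ (mM + 1) * ((pr F b (cell (play F tie N) (range T) u0) * η * lk F b b ^ R.card) * lk F b (!b) ^ k) := I8
        _ ≤ _ := by gcongr) (by
      calc lk F b (!b) * pr F b ((cell (play F tie N) (range T) u0 ∩ cyl R (fun _ => b)) ∩ DD (play F tie N) b k M f g)
          ≤ lk F b (!b) * (pr F b (cell (play F tie N) (range T) u0) * lk F b b ^ R.card *
            (lk F b (!b) ^ k + (1 - lk F b (!b) ^ n) ^ M)) := by gcongr
        _ < lk F (!b) (!b) * ((pr F (!b) (cell (play F tie N) (range T) u0) * η' * lk F (!b) b ^ R.card) * lk F (!b) (!b) ^ k) := I7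
        _ ≤ _ := by gcongr)
  refine ⟨m, hm, ?_⟩
  intro R' hcard hJ hRY hRR hvR hCR u hu huJ
  have hu1 : u ∈ (cell (play F tie N) (range T) u0 ∩ cyl R (fun _ => b)) := ⟨hu, fun l hl => huJ l (S.RJ hl)⟩
  have hyb : (play F tie N) y u = b := S.factY L hY hu (fun l hl => huJ l (S.YJ hl))
  have hfb : ∀ i < k, (play F tie N) (f i) u = b := fun i hi => S.factF1 L h1 hi hu1 hyb
  have hgb : ∀ i < k, ∀ j < M, (play F tie N) (g i j) u = b := fun i hi j hj =>
    S.factT3 L h1 h6 hi hj hu1 (huJ _ (S.vJ i hi)) (hfb i hi) (fun l hl => huJ l (S.CJ j hj hl))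
  have hcell : ∀ t, pr F t (cell (play F tie N) (range T ∪ R ∪ QQ R' k M f g) u) =
      pr F t ((cell (play F tie N) (range T) u0 ∩ cyl R (fun _ => b)) ∩ DD (play F tie N) b k M f g) * lk F t b ^ m := by
    intro t
    rw [S.cell_eq _ hu1]
    have e : (cell (play F tie N) (range T) u0 ∩ cyl R (fun _ => b)) ∩ cell (play F tie N) (QQ R' k M f g) u = ((cell (play F tie N) (range T) u0 ∩ cyl R (fun _ => b)) ∩ DD (play F tie N) b k M f g) ∩ cyl R' (fun _ => b) := by
      ext w
      constructor
      · rintro ⟨g1, g2⟩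
        refine ⟨⟨g1, ?_, ?_⟩, ?_⟩
        · intro i hi
          rw [g2 (f i) (by
            unfold QQ
            simp only [mem_union, mem_image, mem_range]
            exact Or.inr (Or.inl ⟨i, hi, rfl⟩)), hfb i hi]
        · intro i hi j hj
          rw [g2 (g i j) (by
            unfold QQ
            simp only [mem_union, mem_image, mem_product, mem_range]
            exact Or.inr (Or.inr ⟨(i, j), ⟨hi, hj⟩, rfl⟩)), hgb i hi j hj]
        · intro l hl
          have h7 := g2 l (by unfold QQ; simp only [mem_union]; exact Or.inl hl)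
          rw [S.raw w g1.1 l (hJ hl), S.raw u hu l (hJ hl), huJ l (hJ hl)] at h7
          exact h7
      · rintro ⟨⟨g1, g2, g3⟩, g4⟩
        refine ⟨g1, ?_⟩
        intro l hl
        unfold QQ at hl
        simp only [mem_union, mem_image, mem_product, mem_range] at hl
        rcases hl with hl | ⟨i, hi, rfl⟩ | ⟨p, ⟨hp1, hp2⟩, rfl⟩
        · rw [S.raw w g1.1 l (hJ hl), S.raw u hu l (hJ hl), huJ l (hJ hl)]
          exact g4 l hl
        · rw [g2 i hi, hfb i hi]
        · rw [g3 p.1 hp1 p.2 hp2, hgb p.1 hp1 p.2 hp2]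
    rw [e, pr_inter_cyl F t (S.dep1.inter' S.depDD) ?_, prod_const, hcard]
    apply ins_inter (S.ins1 (fun l hl => S.JT l (hJ hl)) hRR)
    intro p hp q hq hpq
    have hyR : y ∉ R' := fun h => S.yJ (hJ h)
    have a1 : ∀ i < k, (play F tie N) (f i) p = (play F tie N) (f i) q := fun i hi =>
      S.af hi hyR hRY.symm (hvR i hi) (fun h => S.fJ i hi (hJ h)) p hp q hq hpq
    have a2 : ∀ i < k, ∀ j < M, (play F tie N) (g i j) p = (play F tie N) (g i j) q := fun i hi j hj =>
      S.ag hi hj hyR hRY.symm (hvR i hi) (fun h => S.fJ i hi (hJ h)) (fun h => S.gJ i hi j hj (hJ h))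
        (hCR j hj) p hp q hq hpq
    unfold DD
    simp only [Set.mem_ofPred_eq]
    constructor
    · rintro ⟨g1, g2⟩
      exact ⟨fun i hi => by rw [← a1 i hi]; exact g1 i hi,
        fun i hi j hj => by rw [← a2 i hi j hj]; exact g2 i hi j hj⟩
    · rintro ⟨g1, g2⟩
      exact ⟨fun i hi => by rw [a1 i hi]; exact g1 i hi,
        fun i hi j hj => by rw [a2 i hi j hj]; exact g2 i hi j hj⟩
  intro t
  rw [hcell, hcell]
  by_cases ht : t = b
  · rw [ht]
    calc pr F (!b) ((cell (play F tie N) (range T) u0 ∩ cyl R (fun _ => b)) ∩ DD (play F tie N) b k M f g) * lk F (!b) b ^ m * lk F (!b) b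
        = lk F (!b) b ^ (m + 1) * pr F (!b) ((cell (play F tie N) (range T) u0 ∩ cyl R (fun _ => b)) ∩ DD (play F tie N) b k M f g) := by ring
      _ < lk F b b ^ (m + 1) * pr F b ((cell (play F tie N) (range T) u0 ∩ cyl R (fun _ => b)) ∩ DD (play F tie N) b k M f g) := hm1
      _ = _ := by ring
  · have ht' : t = !b := by cases t <;> cases b <;> simp_all
    rw [ht', Bool.not_not]
    calc pr F b ((cell (play F tie N) (range T) u0 ∩ cyl R (fun _ => b)) ∩ DD (play F tie N) b k M f g) * lk F b b ^ m * lk F b (!b)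
        = lk F b (!b) * (lk F b b ^ m * pr F b ((cell (play F tie N) (range T) u0 ∩ cyl R (fun _ => b)) ∩ DD (play F tie N) b k M f g)) := by ring
      _ < lk F (!b) (!b) * (lk F (!b) b ^ m * pr F (!b) ((cell (play F tie N) (range T) u0 ∩ cyl R (fun _ => b)) ∩ DD (play F tie N) b k M f g)) := hm2
      _ = _ := by ring

end Setup

end Pool.Agent.X304.Learn
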