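import Pool.Agent.X304.Learn.Place2

set_option autoImplicit false
set_option linter.unusedSectionVars false
set_option linter.unusedVariables false

open MeasureTheory ProbabilityTheory Finset

namespace Pool.Agent.X304.Learn

variable {F : Bool → Measure Bool} [∀ t, IsProbabilityMeasure (F t)]
variable {tie : ℕ → (ℕ → Bool) → Bool → Bool}

lemma Ext.mono {B B' : ℕ} {N N' : ℕ → Finset ℕ} {T T' : ℕ} (h : Ext B N T N' T') (hB : B' ≤ B) :
    Ext B' N T N' T' :=
  ⟨h.le, h.agree, h.valid, fun n h1 h2 => (range_subset_range.2 hB).trans (h.sees n h1 h2)⟩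

lemma Ext.refl {B : ℕ} {N : ℕ → Finset ℕ} {T : ℕ} (h : Valid N) : Ext B N T N T :=
  ⟨le_rfl, fun _ _ => rfl, h, fun n h1 h2 => by omega⟩

lemma Ext.trans {B : ℕ} {N N' N'' : ℕ → Finset ℕ} {T T' T'' : ℕ} (h : Ext B N T N' T')
    (h' : Ext B N' T' N'' T'') : Ext B N T N'' T'' := by
  refine ⟨h.le.trans h'.le, h.agree.trans h'.agree h.le, h'.valid, ?_⟩
  intro n h1 h2
  by_cases h3 : n < T'
  · rw [← h'.agree n h3]; exact h.sees n h1 h3
  · exact h'.sees n (by omega) h2

/-- finitely many stable tasks can be carried out one after the other -/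
lemma process {ι : Type*} [DecidableEq ι] (s : Finset ι) (B : ℕ) (P : ι → (ℕ → Finset ℕ) → ℕ → Prop)
    (stable : ∀ i N T N' T', P i N T → Ext B N T N' T' → P i N' T')
    (N : ℕ → Finset ℕ) (T : ℕ) (hN : Valid N)
    (step : ∀ i ∈ s, ∀ N' T', Ext B N T N' T' → ∃ N'' T'', Ext B N' T' N'' T'' ∧ P i N'' T'') :
    ∃ N' T', Ext B N T N' T' ∧ ∀ i ∈ s, P i N' T' := by
  induction s using Finset.induction_on with
  | empty => exact ⟨N, T, Ext.refl hN, fun i hi => absurd hi (notMem_empty i)⟩
  | insert a s ha ih =>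
    obtain ⟨N', T', h1, h2⟩ := ih (fun i hi => step i (mem_insert_of_mem hi))
    obtain ⟨N'', T'', h3, h4⟩ := step a (mem_insert_self a s) N' T' h1
    refine ⟨N'', T'', h1.trans h3, ?_⟩
    intro i hi
    rcases mem_insert.1 hi with h | h
    · rw [h]; exact h4
    · exact stable i N' T' N'' T'' (h2 i h) h3

/-- The task for one base history: every continuation has an active observation set containing the
base, and the state can be guessed. -/
def Task (F : Bool → Measure Bool) [∀ t, IsProbabilityMeasure (F t)]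
    (tie : ℕ → (ℕ → Bool) → Bool → Bool) (T : ℕ) (E : Set Sig) (ε : ℝ)
    (N' : ℕ → Finset ℕ) (T' : ℕ) : Prop :=
  (∀ u ∈ E, ∃ S : Finset ℕ, range T ⊆ S ∧ S ⊆ range T' ∧ Active F (play F tie N') S u) ∧
  (∃ g : Sig → Bool, (∀ u w : Sig, (∀ m < T', play F tie N' m u = play F tie N' m w) → g u = g w) ∧
    ∀ t : Bool, pr F t (E ∩ {u | g u ≠ t}) ≤ ε) ∧ T < T'

lemma Task.stable {T : ℕ} {E : Set Sig} {ε : ℝ} {B : ℕ} {N N' : ℕ → Finset ℕ} {T1 T' : ℕ}
    (h : Task F tie T E ε N T1) (hE : Ext B N T1 N' T') : Task F tie T E ε N' T' := by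
  obtain ⟨h1, ⟨g, h2, h3⟩, h4⟩ := h
  refine ⟨?_, ⟨g, ?_, h3⟩, lt_of_lt_of_le h4 hE.le⟩
  · intro u hu
    obtain ⟨S, hS1, hS2, hS3⟩ := h1 u hu
    exact ⟨S, hS1, hS2.trans (range_subset_range.2 hE.le), (hE.agree.active hS2 u).1 hS3⟩
  · intro u w huw
    apply h2
    intro m hm
    rw [hE.agree.play_eq hm, hE.agree.play_eq hm]
    exact huw m (lt_of_lt_of_le hm hE.le)

theorem one_history (hpos : ∀ t s, 0 < lk F t s) (hinf : lk F false true < lk F true true)
    (N0 : ℕ → Finset ℕ) (Tp T : ℕ) (hTp : Tp ≤ T) (u0 : Sig) (S0 : Finset ℕ)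
    (hS1 : range Tp ⊆ S0) (hS2 : S0 ⊆ range T) (hact : Active F (play F tie N0) S0 u0)
    (ε : ℝ) (hε : 0 < ε) (N : ℕ → Finset ℕ) (Tc : ℕ) (hE : Ext Tp N0 T N Tc) :
    ∃ N' T', Ext Tp N Tc N' T' ∧ Task F tie T (cell (play F tie N0) (range T) u0) ε N' T' := by
  classical
  set E := cell (play F tie N0) (range T) u0 with hEdef
  choose K hK using fun b => place_gadget (tie := tie) hpos hinf b N0 T u0
  obtain ⟨Kt, hKt⟩ := exists_test F hinf ε hε
  set Mc := 2 * (K true + K false) + Kt + 1 with hMc
  set N1 : ℕ → Finset ℕ := fun n => if n < Tc then N n else if n < Tc + Mc then S0 else ∅ with hN1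
  set Jc := Ico Tc (Tc + Mc) with hJc
  have hJcard : Jc.card = Mc := by rw [hJc, Nat.card_Ico]; omega
  have A1 : Agree N N1 Tc := by
    intro n hn
    rw [hN1]; simp only; rw [if_pos hn]
  have V1 : Valid N1 := by
    intro n m hm
    rw [hN1] at hm
    simp only at hm
    by_cases h : n < Tc
    · rw [if_pos h] at hm; exact hE.valid n m hm
    · rw [if_neg h] at hm
      by_cases h2 : n < Tc + Mc
      · rw [if_pos h2] at hm
        have := mem_range.1 (hS2 hm)
        have := hE.le
        omega
      · rw [if_neg h2] at hm; simp at hm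
  have E1 : Ext Tp N Tc N1 (Tc + Mc) := by
    refine ⟨by omega, A1, V1, ?_⟩
    intro n h1 h2
    rw [hN1]; simp only; rw [if_neg (by omega), if_pos h2]
    exact hS1
  have A01 : Agree N0 N1 T := hE.agree.trans A1 hE.le
  have raw : ∀ u ∈ E, ∀ j ∈ Jc, play F tie N1 j u = u j := by
    intro u hu j hj
    rw [hJc, mem_Ico] at hj
    have hNj : N1 j = S0 := by
      rw [hN1]; simp only; rw [if_neg (by omega), if_pos (by omega)]
    apply play_rule F tie V1
    rw [hNj, ← A01.cell_eq hS2]
    have hc : cell (play F tie N0) S0 u = cell (play F tie N0) S0 u0 := by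
      ext w
      unfold cell
      simp only [Set.mem_ofPred_eq]
      constructor
      · intro h m hm
        rw [h m hm, hu m (hS2 hm)]
      · intro h m hm
        rw [h m hm, hu m (hS2 hm)]
    rw [hc]
    exact hact (u j)
  -- the gadgets
  obtain ⟨N', T', hX, hall⟩ := process (Jc.powerset ×ˢ (Finset.univ : Finset Bool)) Tp
    (fun q N' T' => K q.2 ≤ q.1.card → ∃ S : Finset ℕ, range T ⊆ S ∧ S ⊆ range T' ∧
      ∀ u ∈ E, (∀ j ∈ q.1, u j = q.2) → Active F (play F tie N') S u) (by
        intro q N T1 N' T' h hex hcard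
        obtain ⟨S, g1, g2, g3⟩ := h hcard
        exact ⟨S, g1, g2.trans (range_subset_range.2 hex.le), fun u hu hq =>
          (hex.agree.active g2 u).1 (g3 u hu hq)⟩) N1 (Tc + Mc) V1 (by
        rintro ⟨J, b⟩ hq N' T' hex
        rw [mem_product, mem_powerset] at hq
        by_cases hcard : K b ≤ J.card
        · obtain ⟨N'', T'', g1, g2⟩ := hK b N' T' J hex.valid (A01.trans hex.agree (by
            have := hE.le; omega)) (by have := hE.le; have := hex.le; omega) (by
              intro u hu j hj
              have hj' := hq.1 hj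
              have hj2 := mem_Ico.1 hj'
              rw [← hex.agree.play_eq hj2.2]
              exact raw u hu j hj') (by
              intro j hj
              have hj2 := mem_Ico.1 (hq.1 hj)
              have := hE.le
              have := hex.le
              omega) hcard
          exact ⟨N'', T'', g1.mono (by omega), fun _ => g2⟩
        · exact ⟨N', T', Ext.refl hex.valid, fun h => absurd h hcard⟩)
  refine ⟨N', T', E1.trans hX, ?_, ?_, ?_⟩
  · intro u hu
    have hsum : (Jc.filter (fun j => u j = true)).card + (Jc.filter (fun j => ¬ u j = true)).card =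
        Mc := by
      rw [card_filter_add_card_filter_not, hJcard]
    by_cases hc : K true ≤ (Jc.filter (fun j => u j = true)).card
    · obtain ⟨S, g1, g2, g3⟩ := hall (Jc.filter (fun j => u j = true), true)
        (mem_product.2 ⟨mem_powerset.2 (filter_subset _ _), mem_univ _⟩) hc
      exact ⟨S, g1, g2, g3 u hu (fun j hj => (mem_filter.1 hj).2)⟩
    · have hc' : K false ≤ (Jc.filter (fun j => ¬ u j = true)).card := by omega
      obtain ⟨S, g1, g2, g3⟩ := hall (Jc.filter (fun j => ¬ u j = true), false)
        (mem_product.2 ⟨mem_powerset.2 (filter_subset _ _), mem_univ _⟩) hc'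
      exact ⟨S, g1, g2, g3 u hu (fun j hj => by
        have := (mem_filter.1 hj).2
        simpa using this)⟩
  · obtain ⟨h, h1, h2⟩ := hKt Jc (by omega)
    refine ⟨fun u => h (fun j => play F tie N' j u), ?_, ?_⟩
    · intro u w huw
      apply h1
      intro j hj
      have hj2 := mem_Ico.1 hj
      exact huw j (lt_of_lt_of_le hj2.2 hX.le)
    · intro t
      have e : E ∩ {u | h (fun j => play F tie N' j u) ≠ t} = E ∩ {u | h u ≠ t} := by
        have key : ∀ w ∈ E, h (fun j => play F tie N' j w) = h w := by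
          intro w hw
          apply h1
          intro j hj
          have hj2 := mem_Ico.1 hj
          rw [← hX.agree.play_eq hj2.2]
          exact raw w hw j hj
        ext w
        constructor
        · rintro ⟨g1, g2⟩
          refine ⟨g1, ?_⟩
          simp only [Set.mem_ofPred_eq] at g2 ⊢
          rwa [key w g1] at g2
        · rintro ⟨g1, g2⟩
          refine ⟨g1, ?_⟩
          simp only [Set.mem_ofPred_eq] at g2 ⊢
          rwa [key w g1]
      have hd : Dep {u : Sig | h u ≠ t} Jc := by
        intro p q hpq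
        simp only [Set.mem_ofPred_eq, h1 p q hpq]
      have hdE : Dep E (range T) := dep_cell F tie (range T) u0 (Finset.Subset.refl _)
      rw [e, pr_indep F t hdE hd]
      · calc pr F t E * pr F t {u | h u ≠ t} ≤ 1 * pr F t {u | h u ≠ t} := by
              apply mul_le_mul_of_nonneg_right (pr_le_one F t _) (pr_nonneg F t _)
          _ ≤ ε := by rw [one_mul]; exact h2 t
      · rw [disjoint_left]
        intro i hi hi'
        have := mem_Ico.1 hi'
        have := mem_range.1 hi
        have := hE.le
        omega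
  · have := hE.le
    have := hX.le
    omega

/-- The invariant. -/
def Inv (F : Bool → Measure Bool) [∀ t, IsProbabilityMeasure (F t)]
    (tie : ℕ → (ℕ → Bool) → Bool → Bool) (Tp T : ℕ) (N : ℕ → Finset ℕ) : Prop :=
  Valid N ∧ Tp ≤ T ∧ ∀ u : Sig, ∃ S : Finset ℕ, range Tp ⊆ S ∧ S ⊆ range T ∧
    Active F (play F tie N) S u

theorem step (hpos : ∀ t s, 0 < lk F t s) (hinf : lk F false true < lk F true true)
    (Tp T : ℕ) (N : ℕ → Finset ℕ) (hI : Inv F tie Tp T N) (ε : ℝ) (hε : 0 < ε) :
    ∃ N' T', Ext Tp N T N' T' ∧ T < T' ∧ Inv F tie T T' N' ∧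
      ∃ g : Sig → Bool, (∀ u w : Sig, (∀ m < T', play F tie N' m u = play F tie N' m w) → g u = g w) ∧
        ∀ t : Bool, pr F t {u | g u ≠ t} ≤ ε := by
  classical
  obtain ⟨hV, hTp, hS⟩ := hI
  set uz : (Fin T → Bool) → Sig := fun z i => if h : i < T then z ⟨i, h⟩ else false with huz
  set E : (Fin T → Bool) → Set Sig := fun z => cell (play F tie N) (range T) (uz z) with hEz
  have hcov : ∀ u : Sig, u ∈ E (fun i => u i) := by
    intro u m hm
    apply play_dep
    intro i hi
    have : i < T := by have := mem_range.1 hm; omega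
    rw [huz]; simp only; rw [dif_pos this]
  obtain ⟨N', T', hX, hall⟩ := process (Finset.univ : Finset (Fin T → Bool)) Tp
    (fun z N' T' => Task F tie T (E z) (ε / 2 ^ T) N' T')
    (fun z N T1 N' T' h hex => h.stable hex) N T hV (by
      intro z _ N' T' hex
      obtain ⟨S0, g1, g2, g3⟩ := hS (uz z)
      exact one_history hpos hinf N Tp T hTp (uz z) S0 g1 g2 g3 (ε / 2 ^ T) (by positivity) N' T' hex)
  have hT' : T < T' := (hall (fun _ => false) (mem_univ _)).2.2
  refine ⟨N', T', hX, hT', ⟨hX.valid, hT'.le, ?_⟩, ?_⟩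
  · intro u
    exact (hall (fun i => u i) (mem_univ _)).1 u (hcov u)
  · choose g hg1 hg2 using fun z => (hall z (mem_univ _)).2.1
    set κ : Sig → (Fin T → Bool) := fun u => Classical.epsilon (fun z => u ∈ E z) with hκ
    have hκmem : ∀ u, u ∈ E (κ u) := fun u =>
      Classical.epsilon_spec (p := fun z => u ∈ E z)
        (⟨fun i : Fin T => u i, hcov u⟩ : ∃ z, u ∈ E z)
    refine ⟨fun u => g (κ u) u, ?_, ?_⟩
    · intro u w huw
      have hk : κ u = κ w := by
        rw [hκ]
        simp only
        congr 1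
        funext z
        apply propext
        have : ∀ m ∈ range T, play F tie N m u = play F tie N m w := by
          intro m hm
          have hm' := mem_range.1 hm
          rw [hX.agree.play_eq hm', hX.agree.play_eq hm']
          exact huw m (by omega)
        constructor
        · intro h m hm
          rw [← this m hm]; exact h m hm
        · intro h m hm
          rw [this m hm]; exact h m hm
      simp only [hk]
      exact hg1 _ u w huw
    · intro t
      have hsub : {u | g (κ u) u ≠ t} ⊆ ⋃ z : Fin T → Bool, (E z ∩ {u | g z u ≠ t}) := by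
        intro u hu
        rw [Set.mem_iUnion]
        exact ⟨κ u, hκmem u, hu⟩
      refine (pr_mono F t hsub).trans ?_
      unfold pr
      refine (measureReal_iUnion_fintype_le _).trans ?_
      calc ∑ z : Fin T → Bool, (sigLaw F t).real (E z ∩ {u | g z u ≠ t})
          ≤ ∑ z : Fin T → Bool, ε / 2 ^ T := Finset.sum_le_sum (fun z _ => hg2 z t)
        _ = ε := by
          rw [Finset.sum_const, Finset.card_univ]
          simp only [Fintype.card_pi, Fintype.card_bool, prod_const, card_univ, Fintype.card_fin,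
            nsmul_eq_mul, Nat.cast_pow, Nat.cast_ofNat]
          field_simp

end Pool.Agent.X304.Learn
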