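import Pool.Agent.X304.Learn.Iterate

set_option autoImplicit false
set_option linter.unusedSectionVars false
set_option linter.unusedVariables false

open MeasureTheory ProbabilityTheory Finset Filter Topology

namespace Pool.Agent.X304.Learn

variable {F : Bool → Measure Bool} [∀ t, IsProbabilityMeasure (F t)]
variable {tie : ℕ → (ℕ → Bool) → Bool → Bool}

/-- a state of the construction -/
structure St (F : Bool → Measure Bool) [∀ t, IsProbabilityMeasure (F t)]
    (tie : ℕ → (ℕ → Bool) → Bool → Bool) where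
  Tp : ℕ
  T : ℕ
  N : ℕ → Finset ℕ
  inv : Inv F tie Tp T N

/-- the relation between consecutive states -/
def Rel (ε : ℝ) (s s' : St F tie) : Prop :=
  s'.Tp = s.T ∧ Ext s.Tp s.N s.T s'.N s'.T ∧ s.T < s'.T ∧
    ∃ g : Sig → Bool, (∀ u w : Sig, (∀ m < s'.T, play F tie s'.N m u = play F tie s'.N m w) →
      g u = g w) ∧ ∀ t : Bool, pr F t {u | g u ≠ t} ≤ ε

lemma exists_next (hpos : ∀ t s, 0 < lk F t s) (hinf : lk F false true < lk F true true)
    (s : St F tie) (ε : ℝ) (hε : 0 < ε) : ∃ s' : St F tie, Rel ε s s' := by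
  obtain ⟨N', T', h1, h2, h3, h4⟩ := step hpos hinf s.Tp s.T s.N s.inv ε hε
  exact ⟨⟨s.T, T', N', h3⟩, rfl, h1, h2, h4⟩

/-- the empty network -/
lemma inv0 (hinf : ∀ b, Lik F b) : Inv F tie 0 0 (fun _ => ∅) := by
  refine ⟨fun n m hm => by simp at hm, le_rfl, ?_⟩
  intro u
  refine ⟨∅, by simp, by simp, ?_⟩
  intro t
  have e : cell (play F tie (fun _ => ∅)) ∅ u = Set.univ := by
    ext w
    simp [cell]
  rw [e, pr_univ, pr_univ, one_mul, one_mul]
  exact (hinf t).hi

theorem learning (hpos : ∀ t s, 0 < lk F t s) (hinf : lk F false true < lk F true true) :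
    ∃ N : ℕ → Finset ℕ, Valid N ∧ ∀ ε : ℝ, 0 < ε → ∃ n0 : ℕ, ∀ n ≥ n0,
      pr F true {u | play F tie N n u ≠ true} + pr F false {u | play F tie N n u ≠ false} ≤ ε := by
  classical
  set s0 : St F tie := ⟨0, 0, fun _ => ∅, inv0 (fun b => lik_of hpos hinf b)⟩ with hs0
  choose nxt hnxt using fun (s : St F tie) (k : ℕ) =>
    exists_next hpos hinf s ((1 / 2 : ℝ) ^ k) (by positivity)
  set st : ℕ → St F tie := fun k => Nat.rec s0 (fun k s => nxt s k) k with hst
  have hrel : ∀ k, Rel ((1 / 2 : ℝ) ^ k) (st k) (st (k + 1)) := fun k => hnxt (st k) k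
  have hTlt : ∀ k, (st k).T < (st (k + 1)).T := fun k => (hrel k).2.2.1
  have hTmono : StrictMono (fun k => (st k).T) := strictMono_nat_of_lt_succ hTlt
  have hTge : ∀ k, k ≤ (st k).T := fun k => hTmono.le_apply
  have hAg : ∀ k j, Agree (st k).N (st (k + j)).N (st k).T := by
    intro k j
    induction j with
    | zero => exact fun _ _ => rfl
    | succ j ih =>
      exact ih.trans (hrel (k + j)).2.1.agree (hTmono.monotone (by omega))
  set N : ℕ → Finset ℕ := fun n => (st (n + 1)).N n with hN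
  have hAgN : ∀ k, Agree (st k).N N (st k).T := by
    intro k n hn
    rw [hN]
    simp only
    rcases le_total k (n + 1) with h | h
    · obtain ⟨j, hj⟩ : ∃ j, n + 1 = k + j := ⟨n + 1 - k, by omega⟩
      rw [hj]
      exact hAg k j n hn
    · obtain ⟨j, hj⟩ : ∃ j, k = (n + 1) + j := ⟨k - (n + 1), by omega⟩
      rw [hj]
      have h1 := hTge (n + 1)
      exact (hAg (n + 1) j n (by omega)).symm
  have hValid : Valid N := by
    intro n m hm
    exact (st (n + 1)).inv.1 n m hm
  refine ⟨N, hValid, ?_⟩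
  intro ε hε
  obtain ⟨K, hK⟩ := exists_pow_lt_of_lt_one (show (0 : ℝ) < ε / 2 by positivity)
    (show (1 / 2 : ℝ) < 1 by norm_num)
  refine ⟨(st (K + 2)).T, ?_⟩
  intro n hn
  -- find the stage
  obtain ⟨k, hk1, hk2⟩ : ∃ k, (st (k + 2)).T ≤ n ∧ n < (st (k + 3)).T ∧ K ≤ k := by
    have hex : ∃ j, n < (st j).T := ⟨n + 1, by have := hTge (n + 1); omega⟩
    have h1 : K + 2 < Nat.find hex := by
      by_contra hc
      push Not at hc
      have := Nat.find_spec hex
      have h3 : (st (Nat.find hex)).T ≤ (st (K + 2)).T := hTmono.monotone hc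
      omega
    obtain ⟨k, hk⟩ : ∃ k, Nat.find hex = k + 3 := ⟨Nat.find hex - 3, by omega⟩
    refine ⟨k, ?_, ?_, by omega⟩
    · have := Nat.find_min hex (m := k + 2) (by omega)
      omega
    · rw [← hk]; exact Nat.find_spec hex
  obtain ⟨hk2, hk3⟩ := hk2
  -- the agent sees all the agents below T (k + 1)
  have hsees : range (st (k + 1)).T ⊆ N n := by
    have h1 := (hrel (k + 2)).2.1.sees n hk1 hk2
    rw [(hrel (k + 1)).1] at h1
    rw [← hAgN (k + 3) n hk2]
    exact h1
  obtain ⟨g, hg1, hg2⟩ := (hrel k).2.2.2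
  have hopt := opt F tie hValid n (E := Set.univ) (fun u v _ _ => by simp) g (by
    intro u w huw _
    apply hg1
    intro m hm
    rw [(hAgN (k + 1)).play_eq hm, (hAgN (k + 1)).play_eq hm]
    exact huw m (hsees (mem_range.2 hm)))
  simp only [Set.univ_inter] at hopt
  have h1 := hg2 true
  have h2 := hg2 false
  have h3 : (1 / 2 : ℝ) ^ k ≤ (1 / 2 : ℝ) ^ K :=
    pow_le_pow_of_le_one (by norm_num) (by norm_num) hk3
  linarith

lemma world_correct (N : ℕ → Finset ℕ) (n : ℕ) :
    (world F {ω | play F tie N n ω.2 = ω.1}) =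
      ENNReal.ofReal (1 - (pr F true {u | play F tie N n u ≠ true} +
        pr F false {u | play F tie N n u ≠ false}) / 2) := by
  have hd := fun c : Bool => (dep_act F tie N n c)
  have e : {ω : Bool × Sig | play F tie N n ω.2 = ω.1} =
      {ω : Bool × Sig | ω.1 = true ∧ ω.2 ∈ {u | play F tie N n u = true}} ∪
      {ω : Bool × Sig | ω.1 = false ∧ ω.2 ∈ {u | play F tie N n u = false}} := by
    ext ω
    simp only [Set.mem_ofPred_eq, Set.mem_union]
    cases ω.1 <;> simp
  have hdisj : Disjoint {ω : Bool × Sig | ω.1 = true ∧ ω.2 ∈ {u | play F tie N n u = true}}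
      {ω : Bool × Sig | ω.1 = false ∧ ω.2 ∈ {u | play F tie N n u = false}} := by
    rw [Set.disjoint_left]
    rintro ω ⟨h1, _⟩ ⟨h2, _⟩
    rw [h1] at h2
    exact absurd h2 (by simp)
  have hmeas : MeasurableSet {ω : Bool × Sig | ω.1 = false ∧ ω.2 ∈ {u | play F tie N n u = false}} := by
    have : {ω : Bool × Sig | ω.1 = false ∧ ω.2 ∈ {u | play F tie N n u = false}} =
        ({false} : Set Bool) ×ˢ {u | play F tie N n u = false} := by
      ext ω; simp [Set.mem_prod]
    rw [this]
    exact (measurableSet_singleton _).prod (hd false).measurableSet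
  rw [e, measure_union hdisj hmeas, world_slice F true (hd true).measurableSet,
    world_slice F false (hd false).measurableSet]
  have hcomp : ∀ t, pr F t {u | play F tie N n u ≠ t} = 1 - pr F t {u | play F tie N n u = t} := by
    intro t
    have h1 := pr_diff F t (A := Set.univ) (hd t)
    rw [Set.univ_inter, Set.univ_inter, pr_univ] at h1
    exact h1
  have hr : ∀ t, sigLaw F t {u | play F tie N n u = t} =
      ENNReal.ofReal (pr F t {u | play F tie N n u = t}) := by
    intro t
    unfold pr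
    rw [ofReal_measureReal]
  rw [hcomp, hcomp, hr, hr]
  have h2 : (2 : ENNReal)⁻¹ = ENNReal.ofReal (2⁻¹) := by
    rw [ENNReal.ofReal_inv_of_pos (by norm_num)]
    norm_num
  rw [h2, ← ENNReal.ofReal_mul (by norm_num), ← ENNReal.ofReal_mul (by norm_num),
    ← ENNReal.ofReal_add (mul_nonneg (by norm_num) (pr_nonneg F _ _))
      (mul_nonneg (by norm_num) (pr_nonneg F _ _))]
  congr 1
  ring

theorem main (F : Bool → Measure Bool) [∀ t, IsProbabilityMeasure (F t)]
    (hpos : ∀ t s, F t {s} ≠ 0) (hinf : F false {true} < F true {true})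
    (tie : ℕ → (ℕ → Bool) → Bool → Bool) :
    ∃ N : ℕ → Finset ℕ, (∀ n, ∀ m ∈ N n, m < n) ∧
      Tendsto (fun n => world F {ω | play F tie N n ω.2 = ω.1}) atTop (𝓝 1) := by
  have h1 : ∀ t s, 0 < lk F t s := by
    intro t s
    unfold lk
    exact ENNReal.toReal_pos (hpos t s) (measure_ne_top _ _)
  have h2 : lk F false true < lk F true true := by
    unfold lk
    exact (ENNReal.toReal_lt_toReal (measure_ne_top _ _) (measure_ne_top _ _)).2 hinf
  obtain ⟨N, hN, hlearn⟩ := learning (tie := tie) h1 h2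
  refine ⟨N, hN, ?_⟩
  simp only [world_correct]
  have h3 : Tendsto (fun n => 1 - (pr F true {u | play F tie N n u ≠ true} +
        pr F false {u | play F tie N n u ≠ false}) / 2) atTop (𝓝 1) := by
    rw [Metric.tendsto_atTop]
    intro ε hε
    obtain ⟨n0, hn0⟩ := hlearn ε hε
    refine ⟨n0, fun n hn => ?_⟩
    have h4 := hn0 n hn
    have h5 := pr_nonneg F true {u | play F tie N n u ≠ true}
    have h6 := pr_nonneg F false {u | play F tie N n u ≠ false}
    rw [Real.dist_eq, abs_lt]
    constructor <;> linarith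
  have h4 := (ENNReal.continuous_ofReal.tendsto 1).comp h3
  rw [ENNReal.ofReal_one] at h4
  exact h4

end Pool.Agent.X304.Learn
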