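import Pool.Agent.X304.Learn.Play

set_option autoImplicit false
set_option linter.unusedSectionVars false

open MeasureTheory ProbabilityTheory

namespace Pool.Agent.X304.Learn

variable (F : Bool → Measure Bool) [∀ t, IsProbabilityMeasure (F t)]

lemma pr_partition (t : Bool) {ι : Type*} [Fintype ι] (f : Sig → ι) (B : Set Sig)
    (hf : ∀ z, MeasurableSet (B ∩ f ⁻¹' {z})) :
    pr F t B = ∑ z : ι, pr F t (B ∩ f ⁻¹' {z}) := by
  classical
  have e : B = ⋃ z ∈ (Finset.univ : Finset ι), (B ∩ f ⁻¹' {z}) := by
    ext u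
    simp
  have h := measureReal_biUnion_finset (μ := sigLaw F t) (s := (Finset.univ : Finset ι))
    (f := fun z => B ∩ f ⁻¹' {z}) (by
      intro i _ j _ hij
      simp only [Function.onFun]
      rw [Set.disjoint_left]
      rintro u ⟨_, hu⟩ ⟨_, hu'⟩
      simp only [Set.mem_preimage, Set.mem_singleton_iff] at hu hu'
      exact hij (hu.symm.trans hu')) (fun z _ => hf z)
  rw [← e] at h
  exact h

variable (tie : ℕ → (ℕ → Bool) → Bool → Bool)

/-- `B` is determined by the information of agent `n`. -/
def InfoMeas (a : ℕ → Sig → Bool) (N : ℕ → Finset ℕ) (n : ℕ) (B : Set Sig) : Prop :=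
  ∀ u v : Sig, (∀ m ∈ N n, a m u = a m v) → u n = v n → (u ∈ B ↔ v ∈ B)

lemma dep_of_infoMeas {N : ℕ → Finset ℕ} (hN : Valid N) (n : ℕ) {B : Set Sig}
    (hB : InfoMeas (play F tie N) N n B) : Dep B (Finset.range (n + 1)) := by
  intro u v huv
  apply hB
  · intro m hm
    apply play_dep
    intro i hi
    have := hN n m hm
    exact huv i (Finset.mem_range.2 (by omega))
  · exact huv n (Finset.mem_range.2 (by omega))

lemma dom {N : ℕ → Finset ℕ} (hN : Valid N) (n : ℕ) (t : Bool) {B : Set Sig}
    (hB : InfoMeas (play F tie N) N n B) (ht : ∀ u ∈ B, play F tie N n u = t) :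
    pr F (!t) B ≤ pr F t B := by
  classical
  set f : Sig → ((N n) → Bool) × Bool := fun u => (fun m => play F tie N m u, u n) with hf
  have hfib : ∀ u ∈ B, B ∩ f ⁻¹' {f u} = cell (play F tie N) (N n) u ∩ cyl {n} u := by
    intro u hu
    ext v
    simp only [Set.mem_inter_iff, Set.mem_preimage, Set.mem_singleton_iff, cell, cyl,
      Set.mem_ofPred_eq, Finset.mem_singleton, forall_eq]
    constructor
    · rintro ⟨_, h2⟩
      rw [hf] at h2
      simp only [Prod.mk.injEq] at h2
      exact ⟨fun m hm => congrFun h2.1 ⟨m, hm⟩, h2.2⟩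
    · rintro ⟨h1, h2⟩
      refine ⟨(hB v u h1 h2).2 hu, ?_⟩
      rw [hf]
      simp only [Prod.mk.injEq]
      exact ⟨funext fun m => h1 m.1 m.2, h2⟩
  have hS : N n ⊆ Finset.range n := fun m hm => Finset.mem_range.2 (hN n m hm)
  have hmeas : ∀ z, MeasurableSet (B ∩ f ⁻¹' {z}) := by
    intro z
    by_cases hz : ∃ u ∈ B, f u = z
    · obtain ⟨u, hu, rfl⟩ := hz
      rw [hfib u hu]
      exact (dep_cell F tie (N n) u hS).measurableSet.inter (dep_cyl {n} u).measurableSet
    · have : B ∩ f ⁻¹' {z} = ∅ := by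
        ext u
        simp only [Set.mem_inter_iff, Set.mem_preimage, Set.mem_singleton_iff,
          Set.mem_empty_iff_false, iff_false]
        rintro ⟨h1, h2⟩
        exact hz ⟨u, h1, h2⟩
      rw [this]
      exact MeasurableSet.empty
  rw [pr_partition F (!t) f B hmeas, pr_partition F t f B hmeas]
  apply Finset.sum_le_sum
  intro z _
  by_cases hz : ∃ u ∈ B, f u = z
  · obtain ⟨u, hu, rfl⟩ := hz
    rw [hfib u hu]
    have hd := dep_cell F tie (N := N) (N n) u hS
    rw [pr_inter_cyl F t hd (hd.ins (by simp)) u, pr_inter_cyl F (!t) hd (hd.ins (by simp)) u]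
    simp only [Finset.prod_singleton]
    by_contra hcon
    push Not at hcon
    have h := play_rule F tie hN n u (!t) (by rw [Bool.not_not]; exact hcon)
    rw [ht u hu] at h
    cases t <;> simp at h
  · have : B ∩ f ⁻¹' {z} = ∅ := by
      ext u
      simp only [Set.mem_inter_iff, Set.mem_preimage, Set.mem_singleton_iff,
        Set.mem_empty_iff_false, iff_false]
      rintro ⟨h1, h2⟩
      exact hz ⟨u, h1, h2⟩
    rw [this]
    simp [pr]

/-- Optimality: on an event of her information, no other guess based on the same information is better. -/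
lemma opt {N : ℕ → Finset ℕ} (hN : Valid N) (n : ℕ) {E : Set Sig}
    (hE : InfoMeas (play F tie N) N n E) (g : Sig → Bool)
    (hg : ∀ u v : Sig, (∀ m ∈ N n, play F tie N m u = play F tie N m v) → u n = v n → g u = g v) :
    pr F true (E ∩ {u | play F tie N n u ≠ true}) + pr F false (E ∩ {u | play F tie N n u ≠ false}) ≤
      pr F true (E ∩ {u | g u ≠ true}) + pr F false (E ∩ {u | g u ≠ false}) := by
  have hA : ∀ t : Bool, InfoMeas (play F tie N) N n (E ∩ {u | play F tie N n u = t ∧ g u = !t}) := by
    intro t u v h1 h2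
    have e1 := play_loc F tie N n u v h1 h2
    have e2 := hg u v h1 h2
    have e3 := hE u v h1 h2
    simp only [Set.mem_inter_iff, Set.mem_ofPred_eq, e1, e2, e3]
  have hC : ∀ t : Bool, InfoMeas (play F tie N) N n (E ∩ {u | play F tie N n u = t ∧ g u = t}) := by
    intro t u v h1 h2
    have e1 := play_loc F tie N n u v h1 h2
    have e2 := hg u v h1 h2
    have e3 := hE u v h1 h2
    simp only [Set.mem_inter_iff, Set.mem_ofPred_eq, e1, e2, e3]
  have hdom : ∀ t : Bool, pr F (!t) (E ∩ {u | play F tie N n u = t ∧ g u = !t}) ≤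
      pr F t (E ∩ {u | play F tie N n u = t ∧ g u = !t}) := fun t =>
    dom F tie hN n t (hA t) (fun u hu => hu.2.1)
  have split1 : ∀ t : Bool, pr F t (E ∩ {u | play F tie N n u ≠ t}) =
      pr F t (E ∩ {u | play F tie N n u = !t ∧ g u = !(!t)}) +
      pr F t (E ∩ {u | play F tie N n u = !t ∧ g u = !t}) := by
    intro t
    unfold pr
    rw [← measureReal_union]
    · congr 1
      ext u
      simp only [Set.mem_inter_iff, Set.mem_union, Set.mem_ofPred_eq]
      cases t <;> cases h1 : play F tie N n u <;> cases h2 : g u <;> simp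
    · rw [Set.disjoint_left]
      rintro u ⟨_, h1, h2⟩ ⟨_, h3, h4⟩
      rw [h2] at h4
      cases t <;> simp at h4
    · exact (dep_of_infoMeas F tie hN n (hC (!t))).measurableSet
  have split2 : ∀ t : Bool, pr F t (E ∩ {u | g u ≠ t}) =
      pr F t (E ∩ {u | play F tie N n u = t ∧ g u = !t}) +
      pr F t (E ∩ {u | play F tie N n u = !t ∧ g u = !t}) := by
    intro t
    unfold pr
    rw [← measureReal_union]
    · congr 1
      ext u
      simp only [Set.mem_inter_iff, Set.mem_union, Set.mem_ofPred_eq]
      cases t <;> cases h1 : play F tie N n u <;> cases h2 : g u <;> simp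
    · rw [Set.disjoint_left]
      rintro u ⟨_, h1, h2⟩ ⟨_, h3, h4⟩
      rw [h1] at h3
      cases t <;> simp at h3
    · exact (dep_of_infoMeas F tie hN n (hC (!t))).measurableSet
  rw [split1 true, split1 false, split2 true, split2 false]
  have h1 := hdom true
  have h2 := hdom false
  simp only [Bool.not_true, Bool.not_false] at h1 h2 ⊢
  linarith

end Pool.Agent.X304.Learn
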