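import Pool.Agent.X304.Learn.Gadget4

set_option autoImplicit false
set_option linter.unusedSectionVars false
set_option linter.unusedVariables false

open MeasureTheory ProbabilityTheory Finset

namespace Pool.Agent.X304.Learn

variable {F : Bool → Measure Bool} [∀ t, IsProbabilityMeasure (F t)]
variable {tie : ℕ → (ℕ → Bool) → Bool → Bool}

/-- the two networks agree below `T` -/
def Agree (N N' : ℕ → Finset ℕ) (T : ℕ) : Prop := ∀ n < T, N n = N' n

lemma Agree.trans {N N' N'' : ℕ → Finset ℕ} {T T' : ℕ} (h : Agree N N' T) (h' : Agree N' N'' T')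
    (hT : T ≤ T') : Agree N N'' T := fun n hn => (h n hn).trans (h' n (by omega))

lemma Agree.play_eq {N N' : ℕ → Finset ℕ} {T : ℕ} (h : Agree N N' T) {n : ℕ} (hn : n < T) (u : Sig) :
    play F tie N n u = play F tie N' n u :=
  play_congr_net F tie n (fun m hm => h m (by omega)) u

lemma Agree.cell_eq {N N' : ℕ → Finset ℕ} {T : ℕ} (h : Agree N N' T) {S : Finset ℕ}
    (hS : S ⊆ range T) (u : Sig) : cell (play F tie N) S u = cell (play F tie N') S u := by
  ext w
  unfold cell
  simp only [Set.mem_ofPred_eq]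
  constructor
  · intro h1 m hm
    have := mem_range.1 (hS hm)
    rw [← h.play_eq this, ← h.play_eq this]; exact h1 m hm
  · intro h1 m hm
    have := mem_range.1 (hS hm)
    rw [h.play_eq this, h.play_eq this]; exact h1 m hm

lemma Agree.active {N N' : ℕ → Finset ℕ} {T : ℕ} (h : Agree N N' T) {S : Finset ℕ}
    (hS : S ⊆ range T) (u : Sig) :
    Active F (play F tie N) S u ↔ Active F (play F tie N') S u := by
  unfold Active
  rw [h.cell_eq hS]

lemma exists_enum (J : Finset ℕ) (K : ℕ) (hK : K ≤ J.card) :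
    ∃ e : ℕ → ℕ, Set.InjOn e (range K : Set ℕ) ∧ ∀ i < K, e i ∈ J := by
  classical
  refine ⟨fun i => if h : i < J.card then J.orderEmbOfFin rfl ⟨i, h⟩ else 0, ?_, ?_⟩
  · intro i hi j hj hij
    have h1 : i < J.card := lt_of_lt_of_le (mem_range.1 (mem_coe.1 hi)) hK
    have h2 : j < J.card := lt_of_lt_of_le (mem_range.1 (mem_coe.1 hj)) hK
    simp only [dif_pos h1, dif_pos h2] at hij
    have := (J.orderEmbOfFin rfl).injective hij
    exact congrArg Fin.val this
  · intro i hi
    have h1 : i < J.card := lt_of_lt_of_le hi hK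
    simp only [dif_pos h1]
    exact J.orderEmbOfFin_mem rfl _

lemma img_disj {e : ℕ → ℕ} {K : ℕ} (he : Set.InjOn e (range K : Set ℕ)) {A B : Finset ℕ}
    (hA : A ⊆ range K) (hB : B ⊆ range K) (h : Disjoint A B) : Disjoint (A.image e) (B.image e) := by
  rw [disjoint_left]
  intro x hx hx'
  obtain ⟨i, hi, rfl⟩ := mem_image.1 hx
  obtain ⟨j, hj, hij⟩ := mem_image.1 hx'
  have := he (mem_coe.2 (hB hj)) (mem_coe.2 (hA hi)) hij
  rw [this] at hj
  exact (disjoint_left.1 h) hi hj

lemma img_notMem {e : ℕ → ℕ} {K : ℕ} (he : Set.InjOn e (range K : Set ℕ)) {A : Finset ℕ} {i : ℕ}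
    (hA : A ⊆ range K) (hi : i < K) (h : i ∉ A) : e i ∉ A.image e := by
  intro hx
  obtain ⟨j, hj, hij⟩ := mem_image.1 hx
  have := he (mem_coe.2 (hA hj)) (mem_coe.2 (mem_range.2 hi)) hij
  rw [this] at hj
  exact h hj

lemma img_card {e : ℕ → ℕ} {K : ℕ} (he : Set.InjOn e (range K : Set ℕ)) {A : Finset ℕ}
    (hA : A ⊆ range K) : (A.image e).card = A.card :=
  card_image_of_injOn (he.mono (fun x hx => mem_coe.2 (hA (mem_coe.1 hx))))

lemma img_sub {e : ℕ → ℕ} {K : ℕ} {J : Finset ℕ} (he : ∀ i < K, e i ∈ J) {A : Finset ℕ}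
    (hA : A ⊆ range K) : A.image e ⊆ J := by
  intro x hx
  obtain ⟨i, hi, rfl⟩ := mem_image.1 hx
  exact he i (mem_range.1 (hA hi))

lemma pr_cell_pos (hpos : ∀ t s, 0 < lk F t s) (N : ℕ → Finset ℕ) (T : ℕ) (u0 : Sig) (t : Bool) :
    0 < pr F t (cell (play F tie N) (range T) u0) := by
  have h : pr F t (cyl (range T) u0) ≤ pr F t (cell (play F tie N) (range T) u0) := by
    apply pr_mono
    intro w hw m hm
    apply play_dep
    intro i hi
    exact hw i (mem_range.2 (by have := mem_range.1 hm; omega))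
  refine lt_of_lt_of_le ?_ h
  rw [pr_cyl]
  exact prod_pos (fun _ _ => hpos _ _)

lemma pr_compl_split (N : ℕ → Finset ℕ) (T y : ℕ) (u0 : Sig) (b t : Bool) :
    pr F t (cell (play F tie N) (range T) u0 ∩ {w | play F tie N y w = !b}) =
      pr F t (cell (play F tie N) (range T) u0) -
      pr F t (cell (play F tie N) (range T) u0 ∩ {w | play F tie N y w = b}) := by
  rw [← pr_diff F t (dep_act F tie N y b)]
  congr 1
  ext w
  simp only [Set.mem_inter_iff, Set.mem_ofPred_eq, Set.mem_compl_iff]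
  constructor
  · rintro ⟨h1, h2⟩
    refine ⟨h1, ?_⟩
    rw [h2]
    cases b <;> simp
  · rintro ⟨h1, h2⟩
    refine ⟨h1, ?_⟩
    cases hh : play F tie N y w <;> cases b <;> simp_all

/-- The network in which the block of the agents `f i` and `g i j` is added. -/
def netG (N : ℕ → Finset ℕ) (T P : ℕ) (R : Finset ℕ) (y k M : ℕ) (v : ℕ → ℕ) (C : ℕ → Finset ℕ) :
    ℕ → Finset ℕ := fun n =>
  if n < P then N n
  else if n < P + k then range T ∪ R ∪ {y, v (n - P)}
  else if n < P + k + k * M then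
    range T ∪ R ∪ ({v ((n - (P + k)) / M), P + (n - (P + k)) / M} ∪ C ((n - (P + k)) % M))
  else ∅

lemma netG_f {N : ℕ → Finset ℕ} {T P : ℕ} {R : Finset ℕ} {y k M : ℕ} {v : ℕ → ℕ} {C : ℕ → Finset ℕ}
    {i : ℕ} (hi : i < k) : netG N T P R y k M v C (P + i) = range T ∪ R ∪ {y, v i} := by
  unfold netG
  rw [if_neg (by omega), if_pos (by omega), Nat.add_sub_cancel_left]

lemma netG_g {N : ℕ → Finset ℕ} {T P : ℕ} {R : Finset ℕ} {y k M : ℕ} {v : ℕ → ℕ} {C : ℕ → Finset ℕ}
    {i j : ℕ} (hi : i < k) (hj : j < M) :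
    netG N T P R y k M v C (P + k + (i * M + j)) = range T ∪ R ∪ ({v i, P + i} ∪ C j) := by
  have h1 : i * M + j < k * M := by
    have : (i + 1) * M ≤ k * M := Nat.mul_le_mul_right M hi
    nlinarith
  have h2 : (i * M + j) / M = i := by
    rw [Nat.mul_comm, Nat.mul_add_div (by omega), Nat.div_eq_of_lt hj, Nat.add_zero]
  have h3 : (i * M + j) % M = j := by
    rw [Nat.mul_comm, Nat.mul_add_mod, Nat.mod_eq_of_lt hj]
  unfold netG
  rw [if_neg (by omega), if_neg (by omega), if_pos (by omega)]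
  have h4 : P + k + (i * M + j) - (P + k) = i * M + j := by omega
  rw [h4, h2, h3]

end Pool.Agent.X304.Learn
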