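import Pool.Agent.X304.Learn.Place

set_option autoImplicit false
set_option linter.unusedSectionVars false
set_option linter.unusedVariables false

open MeasureTheory ProbabilityTheory Finset

namespace Pool.Agent.X304.Learn

variable {F : Bool → Measure Bool} [∀ t, IsProbabilityMeasure (F t)]
variable {tie : ℕ → (ℕ → Bool) → Bool → Bool}

/-- Extension of a network: the agents below `T` keep their neighbourhoods and the new agents, up to
`T'`, observe all the agents below `B`. -/
structure Ext (B : ℕ) (N : ℕ → Finset ℕ) (T : ℕ) (N' : ℕ → Finset ℕ) (T' : ℕ) : Prop where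
  le : T ≤ T'
  agree : Agree N N' T
  valid : Valid N'
  sees : ∀ n, T ≤ n → n < T' → range B ⊆ N' n

theorem place_gadget (hpos : ∀ t s, 0 < lk F t s) (hinf : lk F false true < lk F true true)
    (b : Bool) (N0 : ℕ → Finset ℕ) (T : ℕ) (u0 : Sig) :
    ∃ K : ℕ, ∀ (N : ℕ → Finset ℕ) (Tc : ℕ) (J : Finset ℕ), Valid N → Agree N0 N T → T ≤ Tc →
      (∀ u ∈ cell (play F tie N0) (range T) u0, ∀ j ∈ J, play F tie N j u = u j) →
      (∀ j ∈ J, T ≤ j ∧ j < Tc) → K ≤ J.card →
      ∃ (N' : ℕ → Finset ℕ) (T' : ℕ), Ext T N Tc N' T' ∧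
        ∃ S : Finset ℕ, range T ⊆ S ∧ S ⊆ range T' ∧
          ∀ u ∈ cell (play F tie N0) (range T) u0, (∀ j ∈ J, u j = b) →
            Active F (play F tie N') S u := by
  classical
  have L := lik_of (F := F) hpos hinf b
  set w := pr F b (cell (play F tie N0) (range T) u0) with hw
  set w' := pr F (!b) (cell (play F tie N0) (range T) u0) with hw'
  have hw0 : 0 < w := pr_cell_pos hpos N0 T u0 b
  have hw0' : 0 < w' := pr_cell_pos hpos N0 T u0 (!b)
  have had : lk F b b + lk F b (!b) = 1 := lk_add F b b
  have had' : lk F (!b) b + lk F (!b) (!b) = 1 := lk_add F (!b) b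
  obtain ⟨δ, hδ, hpar⟩ := params (lk F b b) (lk F (!b) b) (lk F b (!b)) (lk F (!b) (!b)) w w'
    (hpos _ _) L.hi (hpos _ _) L.lo had had' hw0 hw0'
  obtain ⟨K0, hK0⟩ := exists_test F hinf (δ * min w w' / (w + w')) (by positivity)
  obtain ⟨ny, hny, hny1, hY1, hY2, rM, nM, k, M, mM, hk, hall⟩ := hpar K0
  refine ⟨ny + rM + k + M * nM + mM, ?_⟩
  intro N Tc J hN hA hT hraw hJ hK
  obtain ⟨e, he, heJ⟩ := exists_enum J _ hK
  set K := ny + rM + k + M * nM + mM with hKdef
  have hcellN : cell (play F tie N) (range T) u0 = cell (play F tie N0) (range T) u0 :=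
    (hA.cell_eq (Finset.Subset.refl _) u0).symm
  -- first the agent y
  set Y := (range ny).image e with hY
  have iY : range ny ⊆ range K := by
    intro x hx; rw [mem_range] at hx ⊢; omega
  have hYJ : Y ⊆ J := img_sub heJ iY
  have hYc : Y.card = ny := by rw [hY, img_card he iY, card_range]
  set N1 : ℕ → Finset ℕ := fun n => if n = Tc then range T ∪ Y else N n with hN1
  have A1 : Agree N N1 Tc := by
    intro n hn
    rw [hN1]
    simp only
    rw [if_neg (by omega)]
  have V1 : Valid N1 := by
    intro n m hm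
    rw [hN1] at hm
    simp only at hm
    by_cases h : n = Tc
    · rw [if_pos h, mem_union] at hm
      rcases hm with hm | hm
      · have := mem_range.1 hm; omega
      · have := (hJ m (hYJ hm)).2; omega
    · rw [if_neg h] at hm
      exact hN n m hm
  have A01 : Agree N0 N1 T := hA.trans A1 hT
  have hcell1 : cell (play F tie N1) (range T) u0 = cell (play F tie N0) (range T) u0 :=
    (A01.cell_eq (Finset.Subset.refl _) u0).symm
  have S1 : Setup F tie N1 T u0 b J Y ∅ Tc 0 0 0 id id (fun _ _ => 0) (fun _ => ∅) := by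
    refine ⟨V1, ?_, fun j hj => (hJ j hj).1, hYJ, empty_subset _, ?_, ?_, disjoint_empty_right _, ?_,
      ?_, ?_, ?_, ?_, ?_, ?_, ?_, hT, fun h => lt_irrefl _ (hJ _ h).2, ?_, ?_, ?_, ?_, ?_, ?_, ?_⟩
    · intro u hu j hj
      rw [hcell1] at hu
      rw [← A1.play_eq (hJ j hj).2]
      exact hraw u hu j hj
    any_goals (intro i hi; omega)
    · simp
    · rw [hN1]; simp
  -- the estimates for y
  obtain ⟨tst, ht1, ht2⟩ := hK0 Y (by rw [hYc]; exact hny)
  have acc := S1.acc (δ * min w w' / (w + w')) tst ht1 ht2
  rw [hcell1] at acc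
  have accb := acc b
  have accb' := acc (!b)
  rw [Bool.not_not] at accb'
  have low1 := S1.y_low1 L (by rw [hcell1, hYc]; exact hY1) (!b)
  have low1b := S1.y_low1 L (by rw [hcell1, hYc]; exact hY1) b
  have low2 := S1.y_low2 L (by rw [hcell1, hYc]; exact hY2) b
  rw [hcell1, hYc] at low1 low2 low1b
  have split : ∀ t, pr F t (cell (play F tie N0) (range T) u0 ∩ {x | play F tie N1 Tc x = !b}) =
      pr F t (cell (play F tie N0) (range T) u0) -
      pr F t (cell (play F tie N0) (range T) u0 ∩ {x | play F tie N1 Tc x = b}) := by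
    intro t
    have := pr_compl_split (F := F) (tie := tie) N1 T Tc u0 b t
    rw [hcell1] at this
    exact this
  have eneb : {x : Sig | play F tie N1 Tc x ≠ b} = {x | play F tie N1 Tc x = !b} := by
    ext x
    simp only [Set.mem_ofPred_eq]
    cases play F tie N1 Tc x <;> cases b <;> simp
  have eneb' : {x : Sig | play F tie N1 Tc x ≠ !b} = {x | play F tie N1 Tc x = b} := by
    ext x
    simp only [Set.mem_ofPred_eq]
    cases play F tie N1 Tc x <;> cases b <;> simp
  rw [eneb] at accb
  rw [eneb'] at accb'
  obtain ⟨η, hη⟩ : ∃ η : ℝ, pr F b (cell (play F tie N0) (range T) u0 ∩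
      {x | play F tie N1 Tc x = b}) = w * η :=
    ⟨pr F b (cell (play F tie N0) (range T) u0 ∩ {x | play F tie N1 Tc x = b}) / w, by
      field_simp⟩
  obtain ⟨η', hη'⟩ : ∃ η' : ℝ, pr F (!b) (cell (play F tie N0) (range T) u0 ∩
      {x | play F tie N1 Tc x = b}) = w' * η' :=
    ⟨pr F (!b) (cell (play F tie N0) (range T) u0 ∩ {x | play F tie N1 Tc x = b}) / w', by
      field_simp⟩
  have hη2 : pr F b (cell (play F tie N0) (range T) u0 ∩ {x | play F tie N1 Tc x = !b}) =
      w * (1 - η) := by
    rw [split b, hη]; ring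
  have hη2' : pr F (!b) (cell (play F tie N0) (range T) u0 ∩ {x | play F tie N1 Tc x = !b}) =
      w' * (1 - η') := by
    rw [split (!b), hη']; ring
  rw [hη2] at accb low2
  rw [hη'] at accb' low1
  rw [hη] at low1b
  have hmin1 : min w w' ≤ w := min_le_left _ _
  have hmin2 : min w w' ≤ w' := min_le_right _ _
  have c1 : 1 - η ≤ δ := by
    have h1 : w * (1 - η) ≤ δ * min w w' := by
      calc w * (1 - η) ≤ (w + w') * (δ * min w w' / (w + w')) := accb
        _ = δ * min w w' := by field_simp
    have h2 : w * (1 - η) ≤ w * δ := by nlinarith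
    exact le_of_mul_le_mul_left h2 hw0
  have c3 : η' ≤ δ := by
    have h1 : w' * η' ≤ δ * min w w' := by
      calc w' * η' ≤ (w' + w) * (δ * min w w' / (w + w')) := accb'
        _ = δ * min w w' := by field_simp; ring
    have h2 : w' * η' ≤ w' * δ := by nlinarith
    exact le_of_mul_le_mul_left h2 hw0'
  have c4 : lk F b (!b) ^ (ny + 1) ≤ 1 - η := le_of_mul_le_mul_left low2 hw0
  have c5 : lk F (!b) b ^ ny ≤ η' := le_of_mul_le_mul_left low1 hw0'
  have c2 : η ≤ 1 := by
    have : 0 < lk F b (!b) ^ (ny + 1) := pow_pos (hpos _ _) _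
    linarith
  have c6 : 0 < η := by
    have h1 : lk F b b ^ ny ≤ η := le_of_mul_le_mul_left low1b hw0
    exact lt_of_lt_of_le (pow_pos (hpos _ _) _) h1
  have c7 : 0 < η' := lt_of_lt_of_le (pow_pos (hpos _ _) _) c5
  obtain ⟨r, hr, n, hn, I⟩ := hall η η' c1 c2 c3 c4 c5
  -- the second block
  have hMn : ∀ j < M, j * nM + n ≤ M * nM := by
    intro j hj
    have : (j + 1) * nM ≤ M * nM := Nat.mul_le_mul_right nM hj
    nlinarith
  set R := (Ico ny (ny + r)).image e with hR
  set v : ℕ → ℕ := fun i => e (ny + rM + i) with hv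
  set C : ℕ → Finset ℕ := fun j => (Ico (ny + rM + k + j * nM) (ny + rM + k + j * nM + n)).image e
    with hC
  have iR : Ico ny (ny + r) ⊆ range K := by
    intro x hx; rw [mem_Ico] at hx; rw [mem_range]; omega
  have iC : ∀ j < M, Ico (ny + rM + k + j * nM) (ny + rM + k + j * nM + n) ⊆ range K := by
    intro j hj x hx; rw [mem_Ico] at hx; rw [mem_range]
    have := hMn j hj; omega
  have iv : ∀ i < k, ny + rM + i < K := by intro i hi; omega
  set P := Tc + 1 with hP
  set N2 := netG N1 T P R Tc k M v C with hN2
  have A2 : Agree N1 N2 P := by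
    intro n hn
    rw [hN2]
    unfold netG
    rw [if_pos hn]
  have hRJ : R ⊆ J := img_sub heJ iR
  have hvJ : ∀ i < k, v i ∈ J := fun i hi => heJ _ (iv i hi)
  have hCJ : ∀ j < M, C j ⊆ J := fun j hj => img_sub heJ (iC j hj)
  have V2 : Valid N2 := by
    intro n m hm
    rw [hN2] at hm
    by_cases h1 : n < P
    · unfold netG at hm
      rw [if_pos h1] at hm
      exact V1 n m hm
    · by_cases h2 : n < P + k
      · obtain ⟨i, rfl⟩ : ∃ i, n = P + i := ⟨n - P, by omega⟩
        have hi : i < k := by omega
        rw [netG_f hi, mem_union, mem_union, mem_insert, mem_singleton] at hm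
        rcases hm with (hm | hm) | (hm | hm)
        · have := mem_range.1 hm; omega
        · have := (hJ m (hRJ hm)).2; omega
        · omega
        · rw [hm]; have := (hJ _ (hvJ i hi)).2; omega
      · by_cases h3 : n < P + k + k * M
        · obtain ⟨x, rfl⟩ : ∃ x, n = P + k + x := ⟨n - (P + k), by omega⟩
          have hx : x < k * M := by omega
          have hM : 0 < M := by
            rcases Nat.eq_zero_or_pos M with h | h
            · rw [h] at hx; omega
            · exact h
          have hi : x / M < k := (Nat.div_lt_iff_lt_mul hM).2 hx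
          have hj : x % M < M := Nat.mod_lt _ hM
          have hxe : x = (x / M) * M + x % M := by
            rw [Nat.mul_comm]; exact (Nat.div_add_mod x M).symm
          rw [hxe, netG_g hi hj, mem_union, mem_union, mem_union, mem_insert, mem_singleton] at hm
          have hdiv : x / M ≤ x := Nat.div_le_self _ _
          rcases hm with (hm | hm) | ((hm | hm) | hm)
          · have := mem_range.1 hm; omega
          · have := (hJ m (hRJ hm)).2; omega
          · rw [hm]; have := (hJ _ (hvJ _ hi)).2; omega
          · omega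
          · have := (hJ m (hCJ _ hj hm)).2; omega
        · unfold netG at hm
          rw [if_neg h1, if_neg h2, if_neg h3] at hm
          simp at hm
  have A02 : Agree N0 N2 T := A01.trans A2 (by omega)
  have A12 : Agree N N2 Tc := A1.trans A2 (by omega)
  have hcell2 : cell (play F tie N2) (range T) u0 = cell (play F tie N0) (range T) u0 :=
    (A02.cell_eq (Finset.Subset.refl _) u0).symm
  have S2 : Setup F tie N2 T u0 b J Y R Tc k M n v (fun i => P + i)
      (fun i j => P + k + (i * M + j)) C := by
    refine ⟨V2, ?_, fun j hj => (hJ j hj).1, hYJ, hRJ, hvJ, hCJ, ?_, ?_, ?_, ?_, ?_, ?_, ?_, ?_, ?_,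
      hT, fun h => lt_irrefl _ (hJ _ h).2, ?_, ?_, ?_, ?_, ?_, ?_, ?_⟩
    · intro u hu j hj
      rw [hcell2] at hu
      rw [← A12.play_eq (hJ j hj).2]
      exact hraw u hu j hj
    · apply img_disj he iY iR
      rw [disjoint_left]; intro x hx hx'; rw [mem_range] at hx; rw [mem_Ico] at hx'; omega
    · intro i hi
      apply img_notMem he iY (iv i hi)
      rw [mem_range]; omega
    · intro i hi
      apply img_notMem he iR (iv i hi)
      rw [mem_Ico]; omega
    · intro j hj
      apply img_disj he (iC j hj) iY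
      rw [disjoint_left]; intro x hx hx'; rw [mem_range] at hx'; rw [mem_Ico] at hx; omega
    · intro j hj
      apply img_disj he (iC j hj) iR
      rw [disjoint_left]; intro x hx hx'; rw [mem_Ico] at hx'; rw [mem_Ico] at hx; omega
    · intro i hi j hj
      apply img_notMem he (iC j hj) (iv i hi)
      rw [mem_Ico]; omega
    · intro j hj j' hj' hne
      apply img_disj he (iC j hj) (iC j' hj')
      rw [disjoint_left]; intro x hx hx'
      rw [mem_Ico] at hx'; rw [mem_Ico] at hx
      rcases lt_or_gt_of_ne hne with h | h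
      · have : (j + 1) * nM ≤ j' * nM := Nat.mul_le_mul_right nM h
        have h5 : (j + 1) * nM = j * nM + nM := by ring
        omega
      · have : (j' + 1) * nM ≤ j * nM := Nat.mul_le_mul_right nM h
        have h5 : (j' + 1) * nM = j' * nM + nM := by ring
        omega
    · intro i hi i' hi' hii
      have h1 := mem_range.1 (mem_coe.1 hi)
      have h2 := mem_range.1 (mem_coe.1 hi')
      have := he (mem_coe.2 (mem_range.2 (iv i h1))) (mem_coe.2 (mem_range.2 (iv i' h2))) hii
      omega
    · intro j hj
      rw [hC]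
      simp only
      rw [img_card he (iC j hj), Nat.card_Ico]
      omega
    · intro i hi; omega
    · intro i hi h
      have := (hJ _ h).2; omega
    · intro i hi; omega
    · intro i hi j hj h
      have := (hJ _ h).2; omega
    · rw [← A2 Tc (by omega), hN1]; simp
    · intro i hi
      rw [hN2, netG_f hi]
    · intro i hi j hj
      rw [hN2, netG_g hi hj]
  have hpl : ∀ x, play F tie N1 Tc x = play F tie N2 Tc x := fun x => A2.play_eq (by omega) x
  simp only [hpl] at hη hη' hη2 hη2'
  have hRc : R.card = r := by rw [hR, img_card he iR, Nat.card_Ico]; omega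
  obtain ⟨m, hm, hfin⟩ := S2.final L (η := η) (η' := η') (mM := mM) (by rw [hcell2]; exact hw0)
    (by rw [hcell2]; exact hw0') c6 c7 (by rw [hcell2]; exact hη) (by rw [hcell2]; exact hη2)
    (by rw [hcell2]; exact hη') (by rw [hcell2]; exact hη2')
    (by rw [hcell2, hYc]; exact hY1) (by rw [hcell2, hRc]; exact I)
  set R' := (Ico (ny + rM + k + M * nM) (ny + rM + k + M * nM + m)).image e with hR'
  have iR' : Ico (ny + rM + k + M * nM) (ny + rM + k + M * nM + m) ⊆ range K := by
    intro x hx; rw [mem_Ico] at hx; rw [mem_range]; omega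
  have hR'J : R' ⊆ J := img_sub heJ iR'
  refine ⟨N2, P + k + k * M, ⟨by omega, A12, V2, ?_⟩,
    range T ∪ R ∪ QQ R' k M (fun i => P + i) (fun i j => P + k + (i * M + j)), ?_, ?_, ?_⟩
  · intro x hx1 hx2 l hl
    by_cases h1 : x < P
    · have hxT : x = Tc := by omega
      rw [hxT, ← A2 Tc (by omega), hN1]
      simp only [if_true, mem_union]
      exact Or.inl hl
    · by_cases h2 : x < P + k
      · obtain ⟨i, rfl⟩ : ∃ i, x = P + i := ⟨x - P, by omega⟩
        rw [hN2, netG_f (by omega)]
        simp only [mem_union]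
        exact Or.inl (Or.inl hl)
      · obtain ⟨z, rfl⟩ : ∃ z, x = P + k + z := ⟨x - (P + k), by omega⟩
        have hx : z < k * M := by omega
        have hM : 0 < M := by
          rcases Nat.eq_zero_or_pos M with h | h
          · rw [h] at hx; omega
          · exact h
        have hi : z / M < k := (Nat.div_lt_iff_lt_mul hM).2 hx
        have hj : z % M < M := Nat.mod_lt _ hM
        have hxe : z = (z / M) * M + z % M := by
          rw [Nat.mul_comm]; exact (Nat.div_add_mod z M).symm
        rw [hN2, hxe, netG_g hi hj]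
        simp only [mem_union]
        exact Or.inl (Or.inl hl)
  · intro l hl
    simp only [mem_union]
    exact Or.inl (Or.inl hl)
  · intro l hl
    rw [mem_range]
    unfold QQ at hl
    simp only [mem_union, mem_image, mem_product, mem_range] at hl
    rcases hl with (hl | hl) | hl | ⟨i, hi, rfl⟩ | ⟨p, ⟨hp1, hp2⟩, rfl⟩
    · omega
    · have := (hJ l (hRJ hl)).2; omega
    · have := (hJ l (hR'J hl)).2; omega
    · omega
    · have : p.1 * M + p.2 < k * M := by
        have : (p.1 + 1) * M ≤ k * M := Nat.mul_le_mul_right M hp1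
        nlinarith
      omega
  · intro u hu huJ
    apply hfin R' ?_ hR'J ?_ ?_ ?_ ?_ u (by rw [hcell2]; exact hu) huJ
    · rw [hR', img_card he iR', Nat.card_Ico]; omega
    · apply img_disj he iR' iY
      rw [disjoint_left]; intro x hx hx'; rw [mem_range] at hx'; rw [mem_Ico] at hx; omega
    · apply img_disj he iR' iR
      rw [disjoint_left]; intro x hx hx'; rw [mem_Ico] at hx'; rw [mem_Ico] at hx; omega
    · intro i hi
      apply img_notMem he iR' (iv i hi)
      rw [mem_Ico]; omega
    · intro j hj
      apply img_disj he (iC j hj) iR'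
      rw [disjoint_left]; intro x hx hx'
      rw [mem_Ico] at hx'; rw [mem_Ico] at hx
      have := hMn j hj
      omega

end Pool.Agent.X304.Learn
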