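import Pool.Agent.X304.Learn.Basic

set_option autoImplicit false
set_option linter.unusedSectionVars false

open MeasureTheory ProbabilityTheory

namespace Pool.Agent.X304.Learn

variable (F : Bool → Measure Bool) [∀ t, IsProbabilityMeasure (F t)]

open Classical in
/-- The action of agent `n` when the signals are `u`, in the network in which agent `n` observes the
actions of the agents in `N n`. She compares the joint probabilities of the two states with what she
knows: the actions of the agents `m ∈ N n` and her own signal `u n`; that is, she maximises the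
posterior probability of being right. Ties are broken by the rule `tie`. -/
noncomputable def play (tie : ℕ → (ℕ → Bool) → Bool → Bool) (N : ℕ → Finset ℕ) (n : ℕ)
    (u : Sig) : Bool :=
  if world F {ω | ω.1 = false ∧
        (∀ m, (h : m < n) → m ∈ N n → play tie N m ω.2 = play tie N m u) ∧ ω.2 n = u n} <
      world F {ω | ω.1 = true ∧
        (∀ m, (h : m < n) → m ∈ N n → play tie N m ω.2 = play tie N m u) ∧ ω.2 n = u n} then true
  else if world F {ω | ω.1 = true ∧
        (∀ m, (h : m < n) → m ∈ N n → play tie N m ω.2 = play tie N m u) ∧ ω.2 n = u n} <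
      world F {ω | ω.1 = false ∧
        (∀ m, (h : m < n) → m ∈ N n → play tie N m ω.2 = play tie N m u) ∧ ω.2 n = u n} then false
  else tie n (fun m => if h : m < n ∧ m ∈ N n then play tie N m u else false) (u n)
termination_by n
decreasing_by all_goals first | exact h | exact h.1

/-- The set of the signal sequences which give the same actions of the agents in `S` as `u`. -/
def cell (a : ℕ → Sig → Bool) (S : Finset ℕ) (u : Sig) : Set Sig := {v | ∀ m ∈ S, a m v = a m u}

/-- Everybody observes earlier agents only. -/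
def Valid (N : ℕ → Finset ℕ) : Prop := ∀ n, ∀ m ∈ N n, m < n

variable (tie : ℕ → (ℕ → Bool) → Bool → Bool)

lemma play_loc (N : ℕ → Finset ℕ) (n : ℕ) (u v : Sig)
    (h : ∀ m ∈ N n, play F tie N m u = play F tie N m v) (hn : u n = v n) :
    play F tie N n u = play F tie N n v := by
  have e : ∀ t : Bool, {ω : Bool × Sig | ω.1 = t ∧
        (∀ m, m < n → m ∈ N n → play F tie N m ω.2 = play F tie N m u) ∧ ω.2 n = u n} =
      {ω : Bool × Sig | ω.1 = t ∧
        (∀ m, m < n → m ∈ N n → play F tie N m ω.2 = play F tie N m v) ∧ ω.2 n = v n} := by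
    intro t
    ext ω
    simp only [Set.mem_ofPred_eq]
    rw [hn]
    constructor
    · rintro ⟨h1, h2, h3⟩
      exact ⟨h1, fun m hm hm' => by rw [h2 m hm hm', h m hm'], h3⟩
    · rintro ⟨h1, h2, h3⟩
      exact ⟨h1, fun m hm hm' => by rw [h2 m hm hm', h m hm'], h3⟩
  have e2 : (fun m => if _h : m < n ∧ m ∈ N n then play F tie N m u else false) =
      (fun m => if _h : m < n ∧ m ∈ N n then play F tie N m v else false) := by
    funext m
    by_cases hm : m < n ∧ m ∈ N n
    · rw [dif_pos hm, dif_pos hm, h m hm.2]
    · rw [dif_neg hm, dif_neg hm]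
  rw [play, play]
  simp only [e, e2]
  rw [hn]

lemma play_congr_net {N N' : ℕ → Finset ℕ} (n : ℕ) (h : ∀ m, m ≤ n → N m = N' m) :
    ∀ u, play F tie N n u = play F tie N' n u := by
  induction n using Nat.strong_induction_on with
  | _ n ih =>
    intro u
    have ih' : ∀ m, m < n → ∀ u, play F tie N m u = play F tie N' m u := fun m hm u =>
      ih m hm (fun k hk => h k (by omega)) u
    have e : ∀ t : Bool, {ω : Bool × Sig | ω.1 = t ∧
          (∀ m, m < n → m ∈ N n → play F tie N m ω.2 = play F tie N m u) ∧ ω.2 n = u n} =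
        {ω : Bool × Sig | ω.1 = t ∧
          (∀ m, m < n → m ∈ N' n → play F tie N' m ω.2 = play F tie N' m u) ∧ ω.2 n = u n} := by
      intro t
      ext ω
      simp only [Set.mem_ofPred_eq, h n le_rfl]
      constructor
      · rintro ⟨h1, h2, h3⟩
        exact ⟨h1, fun m hm hm' => by rw [← ih' m hm, ← ih' m hm]; exact h2 m hm hm', h3⟩
      · rintro ⟨h1, h2, h3⟩
        exact ⟨h1, fun m hm hm' => by rw [ih' m hm, ih' m hm]; exact h2 m hm hm', h3⟩
    have e2 : (fun m => if _h : m < n ∧ m ∈ N n then play F tie N m u else false) =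
        (fun m => if _h : m < n ∧ m ∈ N' n then play F tie N' m u else false) := by
      funext m
      rw [h n le_rfl]
      by_cases hm : m < n ∧ m ∈ N' n
      · rw [dif_pos hm, dif_pos hm, ih' m hm.1]
      · rw [dif_neg hm, dif_neg hm]
    rw [play, play]
    simp only [e, e2]

lemma play_dep (N : ℕ → Finset ℕ) (n : ℕ) : ∀ u v : Sig, (∀ i ≤ n, u i = v i) →
    play F tie N n u = play F tie N n v := by
  induction n using Nat.strong_induction_on with
  | _ n ih =>
    intro u v huv
    have ih' : ∀ m, m < n → play F tie N m u = play F tie N m v := fun m hm =>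
      ih m hm u v (fun i hi => huv i (by omega))
    have e : ∀ t : Bool, {ω : Bool × Sig | ω.1 = t ∧
          (∀ m, m < n → m ∈ N n → play F tie N m ω.2 = play F tie N m u) ∧ ω.2 n = u n} =
        {ω : Bool × Sig | ω.1 = t ∧
          (∀ m, m < n → m ∈ N n → play F tie N m ω.2 = play F tie N m v) ∧ ω.2 n = v n} := by
      intro t
      ext ω
      simp only [Set.mem_ofPred_eq]
      rw [huv n le_rfl]
      constructor
      · rintro ⟨h1, h2, h3⟩
        exact ⟨h1, fun m hm hm' => by rw [h2 m hm hm', ih' m hm], h3⟩
      · rintro ⟨h1, h2, h3⟩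
        exact ⟨h1, fun m hm hm' => by rw [h2 m hm hm', ih' m hm], h3⟩
    have e2 : (fun m => if _h : m < n ∧ m ∈ N n then play F tie N m u else false) =
        (fun m => if _h : m < n ∧ m ∈ N n then play F tie N m v else false) := by
      funext m
      by_cases hm : m < n ∧ m ∈ N n
      · rw [dif_pos hm, dif_pos hm, ih' m hm.1]
      · rw [dif_neg hm, dif_neg hm]
    rw [play, play]
    simp only [e, e2]
    rw [huv n le_rfl]

lemma world_slice (t : Bool) {B : Set Sig} (hB : MeasurableSet B) :
    world F {ω | ω.1 = t ∧ ω.2 ∈ B} = 2⁻¹ * sigLaw F t B := by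
  have e : {ω : Bool × Sig | ω.1 = t ∧ ω.2 ∈ B} = ({t} : Set Bool) ×ˢ B := by
    ext ω; simp [Set.mem_prod]
  unfold world
  rw [e, Measure.finsetSum_apply]
  simp only [Measure.smul_apply, smul_eq_mul, Measure.prod_prod, Fintype.sum_bool]
  cases t <;> simp

lemma dep_cell {N : ℕ → Finset ℕ} (S : Finset ℕ) (u : Sig) {T : ℕ} (hS : S ⊆ Finset.range T) :
    Dep (cell (play F tie N) S u) (Finset.range T) := by
  intro v w hvw
  unfold cell
  simp only [Set.mem_ofPred_eq]
  have h : ∀ m ∈ S, play F tie N m v = play F tie N m w := by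
    intro m hm
    apply play_dep
    intro i hi
    apply hvw
    have := Finset.mem_range.1 (hS hm)
    exact Finset.mem_range.2 (by omega)
  constructor
  · intro h1 m hm
    rw [← h m hm]; exact h1 m hm
  · intro h1 m hm
    rw [h m hm]; exact h1 m hm

/-- The rule, in real numbers: if the product of the likelihoods of the public and of the private
information is larger in state `t`, the action is `t`. -/
lemma play_rule {N : ℕ → Finset ℕ} (hN : Valid N) (n : ℕ) (u : Sig) (t : Bool)
    (h : pr F (!t) (cell (play F tie N) (N n) u) * lk F (!t) (u n) <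
      pr F t (cell (play F tie N) (N n) u) * lk F t (u n)) :
    play F tie N n u = t := by
  have hS : N n ⊆ Finset.range n := fun m hm => Finset.mem_range.2 (hN n m hm)
  have hd := dep_cell F tie (N := N) (N n) u hS
  have key : ∀ t : Bool, world F {ω : Bool × Sig | ω.1 = t ∧
          (∀ m, m < n → m ∈ N n → play F tie N m ω.2 = play F tie N m u) ∧ ω.2 n = u n} =
        ENNReal.ofReal (2⁻¹ * (pr F t (cell (play F tie N) (N n) u) * lk F t (u n))) := by
    intro t
    have e : {ω : Bool × Sig | ω.1 = t ∧
          (∀ m, m < n → m ∈ N n → play F tie N m ω.2 = play F tie N m u) ∧ ω.2 n = u n} =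
        {ω : Bool × Sig | ω.1 = t ∧ ω.2 ∈ (cell (play F tie N) (N n) u ∩ cyl {n} u)} := by
      ext ω
      simp only [Set.mem_ofPred_eq, cell, cyl, Set.mem_inter_iff, Finset.mem_singleton, forall_eq]
      constructor
      · rintro ⟨h1, h2, h3⟩
        exact ⟨h1, fun m hm => h2 m (hN n m hm) hm, h3⟩
      · rintro ⟨h1, h2, h3⟩
        exact ⟨h1, fun m _ hm' => h2 m hm', h3⟩
    have hm : MeasurableSet (cell (play F tie N) (N n) u ∩ cyl {n} u) :=
      hd.measurableSet.inter (dep_cyl {n} u).measurableSet
    have h2 : pr F t (cell (play F tie N) (N n) u ∩ cyl {n} u) =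
        pr F t (cell (play F tie N) (N n) u) * lk F t (u n) := by
      rw [pr_inter_cyl F t hd (hd.ins (by simp)) u]
      simp
    rw [e, world_slice F t hm, ← h2]
    unfold pr
    rw [ENNReal.ofReal_mul (by norm_num), ofReal_measureReal, ENNReal.ofReal_inv_of_pos (by norm_num)]
    norm_num
  have hpos : ∀ t : Bool, 0 ≤ pr F t (cell (play F tie N) (N n) u) * lk F t (u n) := fun t =>
    mul_nonneg (pr_nonneg F t _) measureReal_nonneg
  rw [play]
  rw [key, key]
  have hlt : ENNReal.ofReal (2⁻¹ * (pr F (!t) (cell (play F tie N) (N n) u) * lk F (!t) (u n))) <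
      ENNReal.ofReal (2⁻¹ * (pr F t (cell (play F tie N) (N n) u) * lk F t (u n))) := by
    rw [ENNReal.ofReal_lt_ofReal_iff_of_nonneg (mul_nonneg (by norm_num) (hpos _))]
    linarith
  cases t
  · simp only [Bool.not_false] at hlt
    rw [if_neg (not_lt.2 hlt.le), if_pos hlt]
  · simp only [Bool.not_true] at hlt
    rw [if_pos hlt]

end Pool.Agent.X304.Learn
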