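import Pool.Agent.X304.Learn.Opt

set_option autoImplicit false
set_option linter.unusedSectionVars false

open MeasureTheory ProbabilityTheory

namespace Pool.Agent.X304.Learn

variable (F : Bool → Measure Bool) [∀ t, IsProbabilityMeasure (F t)]

lemma lk_nonneg (t s : Bool) : 0 ≤ lk F t s := measureReal_nonneg

/-- the affinity of the two laws -/
noncomputable def aff : ℝ := ∑ s : Bool, Real.sqrt (lk F true s * lk F false s)

lemma aff_nonneg : 0 ≤ aff F := Finset.sum_nonneg (fun _ _ => Real.sqrt_nonneg _)

lemma aff_lt_one (hinf : lk F false true < lk F true true) : aff F < 1 := by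
  have h : ∀ a b : ℝ, 0 ≤ a → 0 ≤ b → Real.sqrt (a * b) ≤ (a + b) / 2 := by
    intro a b ha hb
    rw [Real.sqrt_le_left (by linarith)]
    nlinarith [sq_nonneg (a - b)]
  have h2 : ∀ a b : ℝ, 0 ≤ a → 0 ≤ b → a ≠ b → Real.sqrt (a * b) < (a + b) / 2 := by
    intro a b ha hb hab
    have h3 : 0 < (a - b) ^ 2 := by
      have : a - b ≠ 0 := sub_ne_zero.2 hab
      positivity
    have hab' : 0 < a + b := by
      rcases ha.lt_or_eq with h | h
      · linarith
      · rcases hb.lt_or_eq with h' | h'
        · linarith
        · exact absurd (h.symm.trans h') hab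
    rw [Real.sqrt_lt' (by linarith)]
    nlinarith
  unfold aff
  rw [Fintype.sum_bool]
  have e1 := lk_add F true true
  have e2 := lk_add F false true
  simp only [Bool.not_true] at e1 e2
  have a1 := h2 (lk F true true) (lk F false true) (lk_nonneg F _ _) (lk_nonneg F _ _) hinf.ne'
  have a2 := h (lk F true false) (lk F false false) (lk_nonneg F _ _) (lk_nonneg F _ _)
  linarith

lemma test_bound (J : Finset ℕ) : ∃ g : Sig → Bool,
    (∀ u v : Sig, (∀ j ∈ J, u j = v j) → g u = g v) ∧
    ∀ t : Bool, pr F t {u | g u ≠ t} ≤ aff F ^ J.card := by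
  classical
  set L : Bool → Sig → ℝ := fun t u => ∏ j ∈ J, lk F t (u j) with hL
  have hLdep : ∀ t u v, (∀ j ∈ J, u j = v j) → L t u = L t v := by
    intro t u v h
    rw [hL]
    exact Finset.prod_congr rfl (fun j hj => by rw [h j hj])
  refine ⟨fun u => decide (L false u ≤ L true u), ?_, ?_⟩
  · intro u v h
    simp only [hLdep _ u v h]
  · intro t
    set B : Set Sig := {u | decide (L false u ≤ L true u) ≠ t} with hB
    have hBdep : Dep B J := by
      intro u v h
      rw [hB]
      simp only [Set.mem_ofPred_eq, hLdep _ u v h]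
    have hBle : ∀ u ∈ B, L t u ≤ L (!t) u := by
      intro u hu
      rw [hB] at hu
      simp only [Set.mem_ofPred_eq] at hu
      cases t
      · have : L false u ≤ L true u := by
          by_contra hc
          exact hu (decide_eq_false hc)
        exact this
      · have : ¬ (L false u ≤ L true u) := by
          intro hc
          exact hu (decide_eq_true hc)
        simp only [Bool.not_true]
        linarith [not_le.1 this]
    set f : Sig → (J → Bool) := fun u j => u j with hf
    have hfib : ∀ u ∈ B, B ∩ f ⁻¹' {f u} = cyl J u := by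
      intro u hu
      ext v
      simp only [Set.mem_inter_iff, Set.mem_preimage, Set.mem_singleton_iff, cyl, Set.mem_ofPred_eq]
      constructor
      · rintro ⟨_, h2⟩ i hi
        exact congrFun h2 ⟨i, hi⟩
      · intro h
        exact ⟨(hBdep v u h).2 hu, funext fun j => h j.1 j.2⟩
    have hempty : ∀ z, (¬ ∃ u ∈ B, f u = z) → B ∩ f ⁻¹' {z} = ∅ := by
      intro z hz
      ext u
      simp only [Set.mem_inter_iff, Set.mem_preimage, Set.mem_singleton_iff,
        Set.mem_empty_iff_false, iff_false]
      rintro ⟨h1, h2⟩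
      exact hz ⟨u, h1, h2⟩
    have hmeas : ∀ z, MeasurableSet (B ∩ f ⁻¹' {z}) := by
      intro z
      by_cases hz : ∃ u ∈ B, f u = z
      · obtain ⟨u, hu, rfl⟩ := hz
        rw [hfib u hu]
        exact (dep_cyl J u).measurableSet
      · rw [hempty z hz]
        exact MeasurableSet.empty
    rw [pr_partition F t f B hmeas]
    have hsum : aff F ^ J.card =
        ∑ x : J → Bool, ∏ j : J, Real.sqrt (lk F true (x j) * lk F false (x j)) := by
      have h1 := Finset.prod_univ_sum (fun _ : J => (Finset.univ : Finset Bool))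
        (fun _ s => Real.sqrt (lk F true s * lk F false s))
      rw [Fintype.piFinset_univ] at h1
      rw [← h1]
      simp [aff]
    rw [hsum]
    apply Finset.sum_le_sum
    intro z _
    by_cases hz : ∃ u ∈ B, f u = z
    · obtain ⟨u, hu, rfl⟩ := hz
      rw [hfib u hu, pr_cyl]
      have h1 : ∀ t, 0 ≤ L t u := fun t => Finset.prod_nonneg (fun _ _ => lk_nonneg F _ _)
      have h2 : L t u ≤ Real.sqrt (L true u * L false u) := by
        have h3 : L true u * L false u = L t u * L (!t) u := by
          cases t
          · simp only [Bool.not_false]; ring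
          · simp only [Bool.not_true]
        rw [h3]
        apply Real.le_sqrt_of_sq_le
        nlinarith [hBle u hu, h1 t]
      have h4 : Real.sqrt (L true u * L false u) =
          ∏ j : J, Real.sqrt (lk F true (f u j) * lk F false (f u j)) := by
        rw [hL]
        simp only
        rw [← Finset.prod_mul_distrib, Finset.prod_coe_sort J
          (fun j => Real.sqrt (lk F true (u j) * lk F false (u j))),
          Real.sqrt_eq_rpow, ← Real.finset_prod_rpow]
        · simp only [Real.sqrt_eq_rpow]
        · intro i _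
          exact mul_nonneg (lk_nonneg F _ _) (lk_nonneg F _ _)
      rw [← h4]
      exact h2
    · rw [hempty z hz]
      have : pr F t ∅ = 0 := by simp [pr]
      rw [this]
      exact Finset.prod_nonneg (fun _ _ => Real.sqrt_nonneg _)

lemma exists_test (hinf : lk F false true < lk F true true) (ε : ℝ) (hε : 0 < ε) :
    ∃ K : ℕ, ∀ J : Finset ℕ, K ≤ J.card → ∃ g : Sig → Bool,
      (∀ u v : Sig, (∀ j ∈ J, u j = v j) → g u = g v) ∧
      ∀ t : Bool, pr F t {u | g u ≠ t} ≤ ε := by
  obtain ⟨K, hK⟩ := exists_pow_lt_of_lt_one hε (aff_lt_one F hinf)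
  refine ⟨K, fun J hJ => ?_⟩
  obtain ⟨g, hg, hg'⟩ := test_bound F J
  refine ⟨g, hg, fun t => (hg' t).trans ?_⟩
  exact (pow_le_pow_of_le_one (aff_nonneg F) (aff_lt_one F hinf).le hJ).trans hK.le

end Pool.Agent.X304.Learn
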